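import Pool.Agent.Lib.MP_4ffbf9_nt.B.Shape

-- part Pool.Agent.Lib.MP_4ffbf9_nt.B.Comb
section

/-! From few points modulo a subspace to a small relation. -/

set_option autoImplicit false

namespace Pool.Agent.Lib.MP_4ffbf9_nt.B

open Finset

namespace Comb

variable {ι : Type} [Fintype ι] [DecidableEq ι]

/-- a minimal spanning set of coordinates and the coordinate forms of the quotient -/
theorem basis (W : Submodule ℂ (ι → ℂ)) (hW : W ≠ ⊤) (o : ι) :
    ∃ (J : Finset ι) (c : ι → ι → ℂ), Sp W J ∧ J.Nonempty ∧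
      (∀ w ∈ W, ∀ j, ∑ i, w i * c i j = 0) ∧ (∀ i ∈ J, ∀ j, c i j = if j = i then 1 else 0) ∧
      (∀ i ∉ J, ∀ k ∈ J, c i k ≠ 0 → Sp W (insert i (J.erase k))) ∧
      (o ∈ J → ∀ J', Sp W J' → o ∈ J') := by
  obtain ⟨J, ⟨h1, h2⟩, h3⟩ := exists_minimal_of_wellFoundedLT
    (fun J : Finset ι => Sp W J ∧ (o ∈ J → ∀ J', Sp W J' → o ∈ J')) (by
      by_cases h : ∃ J', Sp W J' ∧ o ∉ J'
      · obtain ⟨J, h, k⟩ := h
        exact ⟨J, h, fun l => absurd l k⟩
      · exact ⟨univ, fun v => ⟨0, W.zero_mem, fun i hi => absurd (mem_univ i) hi⟩,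
          fun _ J' k => by_contra fun l => h ⟨J', k, l⟩⟩)
  have ex : ∀ w ∈ W, ∀ k, w k ≠ 0 → ∀ J' : Finset ι,
      (∀ l ∉ J', l = k ∨ (l ∉ J ∧ w l = 0)) → Sp W J' := fun w hw k hk J' h v => by
    obtain ⟨w1, m, e⟩ := h1 v
    refine ⟨w1 + ((v k - w1 k) / w k) • w, W.add_mem m (W.smul_mem _ hw), fun l hl => ?_⟩
    rcases h l hl with rfl | ⟨a, b⟩
    · simp [div_mul_cancel₀ _ hk]
    · simp [b, e l a]
  have un : ∀ w ∈ W, (∀ l ∉ J, w l = 0) → w = 0 := fun w hw h => funext fun k => by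
    by_contra hk
    have m : k ∈ J := by_contra fun m => hk (h k m)
    have := h3 (y := J.erase k) ⟨ex w hw k hk _ fun l hl => by
      by_cases e : l = k
      · exact .inl e
      · have : l ∉ J := fun m' => hl (mem_erase.mpr ⟨e, m'⟩)
        exact .inr ⟨this, h l this⟩, fun m' => h2 (mem_of_mem_erase m')⟩ (erase_subset _ _)
    exact notMem_erase k J (this m)
  choose w hw e using fun i : ι => h1 fun j => if j = i then 1 else 0
  refine ⟨J, fun i j => (if j = i then 1 else 0) - w i j, h1, ?_, fun x hx j => ?_,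
    fun i hi j => ?_, fun i hi k hk h => ?_, h2⟩
  · refine nonempty_iff_ne_empty.mpr fun h => hW (eq_top_iff.mpr fun v _ => ?_)
    obtain ⟨x, m, e⟩ := h1 v
    rwa [← funext fun i => e i (h ▸ notMem_empty i)]
  · have := congrFun (un (x - ∑ i, x i • w i)
      (W.sub_mem hx (W.sum_mem fun i _ => W.smul_mem _ (hw i))) fun l hl => by
        simp [Finset.sum_apply, e _ l hl]) j
    simpa [Finset.sum_apply, mul_sub] using this
  · simp [un (w i) (hw i) fun l hl => by rw [e i l hl, if_neg (by rintro rfl; exact hl hi)]]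
  · have n : k ≠ i := by
      rintro rfl
      exact hi hk
    refine ex (w i) (hw i) k (by simpa [n] using h) _ fun l hl => ?_
    rw [mem_insert, mem_erase, not_or] at hl
    by_cases e' : l = k
    · exact .inl e'
    · have : l ∉ J := fun m' => hl.2 ⟨e', m'⟩
      exact .inr ⟨this, by rw [e i l this, if_neg hl.1]⟩

/-- the counting step -/
theorem count {W : Submodule ℂ (ι → ℂ)} {J : Finset ι} {c : ι → ι → ℂ} {b : ι → ℤ} {S₀ N : ℕ}
    {S : ι → ℕ} {k : ι} (h1 : ∀ w ∈ W, ∀ j, ∑ i, w i * c i j = 0)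
    (h2 : ∀ i ∈ J, ∀ j, c i j = if j = i then 1 else 0) (hS : ∀ i, 0 < S i)
    (hF : Few W (Grid b S₀ S) (N * ∏ j ∈ J.erase k, S j)) (A : Type) [Fintype A] (s₀ : A → ℕ)
    (s : A → ι → ℕ) (l0 : ∀ a, s₀ a < S₀) (l : ∀ a i, s a i < S i)
    (z : ∀ a, ∀ i ∈ J.erase k, s a i = 0)
    (inj : Function.Injective fun a => ∑ i, ((s a i : ℂ) - b i * s₀ a) * c i k) :
    Fintype.card A ≤ N := by
  have key := hF (A × Fintype.piFinset fun i => if i ∈ J.erase k then range (S i) else {0})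
    (fun x i => ((s x.1 i + x.2.1 i : ℕ) : ℂ) - b i * s₀ x.1) (fun x => ?_) ?_
  · rw [Fintype.card_prod, Fintype.card_coe, Fintype.card_piFinset] at key
    simp only [apply_ite card, card_range, card_singleton, prod_ite_mem, univ_inter] at key
    exact Nat.le_of_mul_le_mul_right key (prod_pos fun i _ => hS i)
  · refine ⟨_, _, l0 x.1, fun i => ?_, rfl⟩
    have := Fintype.mem_piFinset.mp x.2.2 i
    split_ifs at this with h
    · rw [z _ i h, zero_add]
      exact mem_range.mp this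
    · rw [mem_singleton.mp this, add_zero]
      exact l _ i
  · rintro ⟨a, t, ht⟩ ⟨a', t', ht'⟩ h
    have z0 : ∀ i ∉ J.erase k, t i = 0 ∧ t' i = 0 := fun i hi => by
      have a1 := Fintype.mem_piFinset.mp ht i
      have a2 := Fintype.mem_piFinset.mp ht' i
      rw [if_neg hi, mem_singleton] at a1 a2
      exact ⟨a1, a2⟩
    obtain rfl : a = a' := by
      refine inj (sub_eq_zero.mp ?_)
      rw [← h1 _ h k, ← sum_sub_distrib]
      refine sum_congr rfl fun i _ => ?_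
      by_cases hi : i ∈ J.erase k
      · simp [h2 i (mem_of_mem_erase hi), (ne_of_mem_erase hi).symm]
      · simp [z0 i hi, sub_mul]
    obtain rfl : t = t' := funext fun j => by
      by_cases hj : j ∈ J.erase k
      · have := h1 _ h j
        rw [sum_eq_single j (fun i _ n => ?_) (by simp)] at this
        · simpa [h2 j (mem_of_mem_erase hj), sub_eq_zero] using this
        · by_cases hi : i ∈ J.erase k
          · simp [h2 i (mem_of_mem_erase hi), n.symm]
          · simp [z0 i hi]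
      · rw [(z0 j hj).1, (z0 j hj).2]
    rfl

theorem count2 {W : Submodule ℂ (ι → ℂ)} {J : Finset ι} {c : ι → ι → ℂ} {b : ι → ℤ} {S₀ N : ℕ}
    {S : ι → ℕ} {k : ι} (h1 : ∀ w ∈ W, ∀ j, ∑ i, w i * c i j = 0)
    (h2 : ∀ i ∈ J, ∀ j, c i j = if j = i then 1 else 0) (hS : ∀ i, 0 < S i) (hk : k ∈ J)
    (hF : Few W (Grid b S₀ S) (N * ∏ j ∈ J.erase k, S j)) (i : ι) (A : Type) [Fintype A]
    (s₀ a t : A → ℕ) (hi : ∀ x, i ∈ J → a x = 0) (l0 : ∀ x, s₀ x < S₀) (l : ∀ x, a x < S i)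
    (l' : ∀ x, t x < S k) (inj : Function.Injective fun x =>
      (a x : ℂ) * c i k + s₀ x * (-∑ l, b l * c l k) + t x) : Fintype.card A ≤ N := by
  refine count (k := k) h1 h2 hS hF A s₀
    (fun x l => (if l = i then a x else 0) + if l = k then t x else 0) l0 (fun x j => ?_)
    (fun x j hj => ?_) ?_
  · split_ifs with p q q
    · rw [hi x (p ▸ q ▸ hk), zero_add, q]
      exact l' x
    · exact p ▸ l x
    · rw [zero_add, q]
      exact l' x
    · exact hS j
  · rw [if_neg (ne_of_mem_erase hj), add_zero, ite_eq_right_iff]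
    exact fun p => hi x (p ▸ mem_of_mem_erase hj)
  · convert inj using 2 with x
    simp only [Nat.cast_add, Nat.cast_ite, Nat.cast_zero, sub_mul, add_mul, ite_mul, zero_mul,
      sum_sub_distrib, sum_add_distrib, sum_ite_eq', mem_univ, if_true, h2 k hk, mul_neg, mul_sum]
    rw [mul_one, add_right_comm, ← sub_eq_add_neg]
    congr 1
    exact sum_congr rfl fun _ _ => by ring

/-- the one dimensional step -/
theorem one {φ : ℂ} {S T Q : ℕ} (hQ : 1 ≤ Q) (hS : Q < S) (hT : 0 < T)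
    (h : ∀ (A : Type) [Fintype A] (a b : A → ℕ), (∀ x, a x < S) → (∀ x, b x < T) →
      Function.Injective (fun x => (a x : ℂ) * φ + b x) → Fintype.card A ≤ Q * T) :
    (∃ (q : ℕ) (p : ℤ), 1 ≤ q ∧ q ≤ Q ∧ q * φ = p) ∧ ‖φ‖ * S ≤ 2 * Q * T ∧
      (φ ≠ 0 → S ≤ Q * T) := by
  have key : ∀ κ, κ * Q < S → ∃ (q : ℕ) (p : ℤ), 1 ≤ q ∧ q ≤ Q ∧ |p| ≤ T ∧ q * (κ * φ) = p := by
    intro κ hκ
    by_contra n
    have w : ∀ x y : Fin (Q + 1) × Fin T,
        ((κ * x.1 : ℕ) : ℂ) * φ + (x.2 : ℕ) = ((κ * y.1 : ℕ) : ℂ) * φ + (y.2 : ℕ) → x.1 ≤ y.1 :=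
      fun x y e => by
        by_contra l
        have l' : (y.1 : ℕ) < x.1 := not_le.mp l
        refine n ⟨x.1 - y.1, (y.2 : ℕ) - (x.2 : ℕ), by omega, by omega, ?_, ?_⟩
        · rw [abs_le]
          omega
        · push_cast [l'.le] at e ⊢
          linear_combination e
    have := h (Fin (Q + 1) × Fin T) (fun x => κ * x.1) (fun x => x.2)
      (fun x => (Nat.mul_le_mul_left κ (Nat.lt_succ_iff.mp x.1.2)).trans_lt hκ) (fun x => x.2.2)
      fun x y e => by
        have e1 := le_antisymm (w x y e) (w y x e.symm)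
        refine Prod.ext e1 (Fin.ext ?_)
        simpa [e1] using e
    simp only [Fintype.card_prod, Fintype.card_fin] at this
    nlinarith
  refine ⟨?_, ?_, fun n => ?_⟩
  · obtain ⟨q, p, a, b, -, e⟩ := key 1 (by omega)
    exact ⟨q, p, a, b, by simpa using e⟩
  · obtain ⟨κ, hκ⟩ : ∃ κ, κ = (S - 1) / Q := ⟨_, rfl⟩
    have k1 : κ * Q < S := by
      have := Nat.div_mul_le_self (S - 1) Q
      rw [← hκ] at this
      omega
    have k2 : 1 ≤ κ := hκ ▸ (Nat.le_div_iff_mul_le hQ).mpr (by omega)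
    have k3 : S ≤ 2 * Q * κ := by
      have := Nat.lt_mul_div_succ (S - 1) hQ
      rw [← hκ] at this
      have : S ≤ Q * (κ + 1) := by omega
      nlinarith
    obtain ⟨q, p, a, -, b, e⟩ := key κ k1
    have e' := congrArg norm e
    simp only [norm_mul, Complex.norm_natCast, Complex.norm_intCast] at e'
    have a' : (1 : ℝ) ≤ q := by exact_mod_cast a
    have b' : |(p : ℝ)| ≤ T := by exact_mod_cast b
    have k4 : (S : ℝ) ≤ 2 * Q * κ := by exact_mod_cast k3
    have k5 : κ * ‖φ‖ ≤ T := (le_mul_of_one_le_left (by positivity) a').trans (e' ▸ b')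
    calc ‖φ‖ * S ≤ ‖φ‖ * (2 * Q * κ) := by gcongr
      _ = 2 * Q * (κ * ‖φ‖) := by ring
      _ ≤ _ := by gcongr
  · simpa using h (Fin S) (fun x => x) (fun _ => 0) (fun x => x.2) (fun _ => hT) fun x y e =>
      Fin.ext (by simpa [n] using e)

/-- a common denominator -/
theorem den (φ : ι → ℂ) {Q : ℕ} (h : ∀ x, ∃ (q : ℕ) (p : ℤ), 1 ≤ q ∧ q ≤ Q ∧ q * φ x = p) :
    ∃ (q : ℕ) (u : ι → ℤ), 1 ≤ q ∧ q ≤ Q ^ Fintype.card ι ∧ ∀ x, (u x : ℂ) = q * φ x := by
  choose q p a b e using h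
  refine ⟨∏ x, q x, fun x => (∏ y ∈ univ.erase x, q y : ℕ) * p x, one_le_prod' fun x _ => a x,
    prod_le_pow_card _ _ _ fun x _ => b x, fun x => ?_⟩
  rw [← prod_erase_mul _ _ (mem_univ x)]
  push_cast
  rw [← e, mul_assoc]

end Comb

theorem stComb : StComb := by
  intro r G Q S₀ S b W hW hG hQ h0 hS hb hbi hSG hF
  obtain ⟨J, c, h1, ⟨k, hk⟩, h2, h3, h4, h5⟩ := Comb.basis W hW none
  have S0 : ∀ i, 0 < S i := fun i => (Nat.zero_le _).trans_lt (hS i)
  have S00 : 0 < S₀ := (Nat.zero_le _).trans_lt h0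
  by_cases hn : none ∈ J
  · exfalso
    have c0 : ∀ i, c (some i) none = 0 := fun i => by
      by_cases hi : some i ∈ J
      · simp [h3 _ hi]
      · by_contra n
        simpa using h5 hn _ (h4 _ hi _ hn n)
    have f := hF J h1
    rw [← mul_prod_erase _ _ hn, if_pos rfl, ← mul_assoc,
      prod_congr rfl fun j hj => if_neg (ne_of_mem_erase hj)] at f
    have := Comb.count2 h2 h3 S0 hn f none (Fin S₀ × Fin (S none)) (fun x => x.1) (fun _ => 0)
      (fun x => x.2) (fun _ _ => rfl) (fun x => x.1.2) (fun _ => S0 _) (fun x => x.2.2)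
      fun x y e => by
        simp only [Fintype.sum_option, c0, h3 _ hn, if_true, mul_zero, sum_const_zero, add_zero,
          mul_one, Nat.cast_zero, zero_add] at e
        have e' : ((x.2 : ℕ) : ℤ) - (y.2 : ℕ) = (((x.1 : ℕ) : ℤ) - (y.1 : ℕ)) * b none := by
          have : (((x.2 : ℕ) : ℤ) : ℂ) - ((y.2 : ℕ) : ℤ) =
              ((((x.1 : ℕ) : ℤ) : ℂ) - ((y.1 : ℕ) : ℤ)) * b none := by
            push_cast
            linear_combination e
          exact_mod_cast this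
        have e1 : ((x.1 : ℕ) : ℤ) - (y.1 : ℕ) = 0 := by
          by_contra n
          have a1 := le_mul_of_one_le_left (abs_nonneg (b none)) (Int.one_le_abs n)
          rw [← abs_mul, ← e'] at a1
          have a2 := le_abs.mp (hb.trans a1)
          omega
        rw [e1, zero_mul] at e'
        exact Prod.ext (Fin.ext (by omega)) (Fin.ext (by omega))
    simp only [Fintype.card_prod, Fintype.card_fin] at this
    nlinarith [hS none]
  obtain ⟨k, rfl⟩ : ∃ k', k = some k' := Option.ne_none_iff_exists'.mp fun e => hn (e ▸ hk)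
  have n1 : ∀ j ∈ J.erase (some k), (if j = none then S₀ else S j) = S j := fun j hj =>
    if_neg fun e : j = none => hn (e ▸ mem_of_mem_erase hj)
  have f := hF J h1
  rw [← mul_prod_erase _ _ hk, if_neg (Option.some_ne_none k), ← mul_assoc, prod_congr rfl n1] at f
  obtain ⟨⟨q0, p0, a1, a2, a3⟩, a4, a5⟩ := Comb.one (φ := -∑ l, b l * c l (some k)) hQ h0
    (S0 (some k)) fun A _ a t ha ht inj => Comb.count2 h2 h3 S0 hk f none A a (fun _ => 0) t
      (fun _ _ => rfl) ha (fun _ => S0 _) ht (by simpa using inj)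
  have o1 := fun i (hi : i ∉ J) => Comb.one (φ := c i (some k)) hQ (hS i) (S0 (some k))
    fun A _ a t ha ht inj => Comb.count2 h2 h3 S0 hk f i A (fun _ => 0) a t
      (fun _ h => absurd h hi) (fun _ => S00) ha ht (by simpa using inj)
  have o2 : ∀ i, c (some i) (some k) ≠ 0 →
      S (some i) ≤ Q * S (some k) ∧ S (some k) ≤ Q * S (some i) := fun i n => by
    by_cases hi : some i ∈ J
    · obtain rfl : k = i := by simpa [h3 _ hi] using n
      exact ⟨Nat.le_mul_of_pos_left _ hQ, Nat.le_mul_of_pos_left _ hQ⟩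
    refine ⟨(o1 _ hi).2.2 n, ?_⟩
    have f' := hF _ (h4 _ hi _ hk n)
    rw [prod_insert fun h => hi (mem_of_mem_erase h), if_neg (Option.some_ne_none i), ← mul_assoc,
      prod_congr rfl n1] at f'
    simpa using Comb.count2 h2 h3 S0 hk f' none (Fin (S (some k))) (fun _ => 0) (fun _ => 0)
      (fun x => x) (fun _ _ => rfl) (fun _ => S00) (fun _ => S0 _) (fun x => x.2)
      fun x y e => Fin.ext (by simpa using e)
  have Q1 : (1 : ℝ) ≤ Q := by exact_mod_cast hQ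
  have G1 : (1 : ℝ) ≤ G := by exact_mod_cast hG
  have b1 : ∀ i, ‖c (some i) (some k)‖ ≤ 2 * Q ^ 2 := fun i => by
    by_cases hi : some i ∈ J
    · rw [h3 _ hi]
      split_ifs
      · rw [norm_one]
        nlinarith
      · rw [norm_zero]
        positivity
    by_cases n : c (some i) (some k) = 0
    · rw [n, norm_zero]
      positivity
    have a : (S (some k) : ℝ) ≤ Q * S (some i) := by exact_mod_cast (o2 i n).2
    refine le_of_mul_le_mul_right ((o1 _ hi).2.1.trans ?_) (Nat.cast_pos.mpr (S0 (some i)))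
    calc (2 * Q * S (some k) : ℝ) ≤ 2 * Q * (Q * S (some i)) := by gcongr
      _ = _ := by ring
  have b2 : ‖-∑ l, b l * c l (some k)‖ ≤ 2 * G * Q ^ 2 := by
    have a : (S (some k) : ℝ) ≤ G * S₀ := by exact_mod_cast hSG _
    refine le_of_mul_le_mul_right (a4.trans ?_) (Nat.cast_pos.mpr S00)
    calc (2 * Q * S (some k) : ℝ) ≤ 2 * (Q * Q) * (G * S₀) := by gcongr; nlinarith
      _ = _ := by ring
  have b3 : ‖c none (some k)‖ ≤ 2 * (r + 1) * G * Q ^ 2 := by
    have a : (1 : ℝ) ≤ |(b none : ℝ)| := by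
      exact_mod_cast (show (1 : ℤ) ≤ S none by exact_mod_cast S0 none).trans hb
    have e : b none * c none (some k) =
        -(-∑ l, b l * c l (some k)) - ∑ i, b (some i) * c (some i) (some k) := by
      rw [Fintype.sum_option]
      ring
    have e1 : ‖∑ i, b (some i) * c (some i) (some k)‖ ≤ r * (G * |(b none : ℝ)| * (2 * Q ^ 2)) := by
      refine (norm_sum_le _ _).trans ((sum_le_card_nsmul _ _
        (G * |(b none : ℝ)| * (2 * Q ^ 2)) fun i _ => ?_).trans_eq (by simp))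
      rw [norm_mul, Complex.norm_intCast]
      exact mul_le_mul (by exact_mod_cast hbi (some i)) (b1 i) (norm_nonneg _) (by positivity)
    have e2 := (congrArg norm e).trans_le (norm_sub_le _ _)
    rw [norm_neg, norm_mul, Complex.norm_intCast] at e2
    refine le_of_mul_le_mul_left (e2.trans ?_) (one_pos.trans_le a)
    have := le_mul_of_one_le_left (by positivity : (0 : ℝ) ≤ 2 * G * Q ^ 2) a
    linarith
  obtain ⟨q, u, q1, q2, q3⟩ := Comb.den (Q := Q)
    (fun x : Option (Option (Fin r)) => x.elim (-∑ l, b l * c l (some k)) fun i => c i (some k))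
    (by
      rintro (_ | i)
      · exact ⟨q0, p0, a1, a2, a3⟩
      by_cases hi : i ∈ J
      · exact ⟨1, if some k = i then 1 else 0, le_rfl, hQ, by simp [h3 _ hi]⟩
      · exact (o1 i hi).1)
  have q4 : (q : ℝ) ≤ Q ^ (r + 2) := by exact_mod_cast (by simpa using q2 : q ≤ Q ^ (r + 2))
  have bd : ∀ x, ‖(x.elim (-∑ l, b l * c l (some k)) fun i => c i (some k) : ℂ)‖ ≤
      2 * (r + 1) * G * Q ^ 2 → |u x| ≤ 2 * (r + 1) * G * Q ^ (r + 4) := fun x h => by
    have e := congrArg norm (q3 x)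
    rw [norm_mul, Complex.norm_intCast, Complex.norm_natCast] at e
    have : |(u x : ℝ)| ≤ 2 * (r + 1) * G * Q ^ (r + 4) :=
      e.trans_le ((mul_le_mul q4 h (norm_nonneg _) (by positivity)).trans_eq (by ring))
    exact_mod_cast this
  have r0 : (0 : ℝ) ≤ r * (G * Q ^ 2) := by positivity
  have nz : ∀ x, u x ≠ 0 → (x.elim (-∑ l, b l * c l (some k)) fun i => c i (some k) : ℂ) ≠ 0 :=
    fun x h e => h (Int.cast_eq_zero.mp ((q3 x).trans (by rw [e, mul_zero])))
  refine ⟨k, u none, fun i => u (some i), fun h => ?_, bd _ (b2.trans (by linarith)), ?_, ?_,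
    fun h => a5 (nz _ h), fun i h => o2 i (nz _ h)⟩
  · have := q3 (some (some k))
    simp only [h, Option.elim, h3 _ hk, if_true, mul_one, Int.cast_zero] at this
    have : q = 0 := by exact_mod_cast this.symm
    omega
  · rintro (_ | i)
    · exact bd _ b3
    · refine bd _ ((b1 i).trans ?_)
      have := le_mul_of_one_le_left (by positivity : (0 : ℝ) ≤ 2 * Q ^ 2) G1
      linarith
  · have : ((u none + ∑ i, u (some i) * b i : ℤ) : ℂ) = 0 := by
      push_cast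
      simp only [q3, Option.elim, mul_neg, mul_sum]
      rw [neg_add_eq_zero]
      exact sum_congr rfl fun _ _ => by ring
    exact_mod_cast this

end Pool.Agent.Lib.MP_4ffbf9_nt.B
end

-- part Pool.Agent.Lib.MP_4ffbf9_nt.B.Pol
section

/-! Removal of the exponentials. -/

set_option autoImplicit false

namespace Pool.Agent.Lib.MP_4ffbf9_nt.B

open Finset

namespace Pol

open MvPolynomial

variable {ι : Type}

/-- the translation by `a` -/
noncomputable abbrev sh (a : ι → ℂ) : MvPolynomial ι ℂ →ₐ[ℂ] MvPolynomial ι ℂ :=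
  aeval fun i => (X i + C (a i) : MvPolynomial ι ℂ)

theorem sh_mon (m : MonomialOrder ι) (a : ι → ℂ) (s : ι →₀ ℕ) :
    m.degree (sh a (monomial s 1)) = s ∧ m.Monic (sh a (monomial s 1)) := by
  have h : ∀ i ∈ s.support, m.Monic ((X i + C (a i) : MvPolynomial ι ℂ) ^ s i) :=
    fun i _ => (m.monic_X_add_C i _).pow
  rw [aeval_monomial, map_one, one_mul, Finsupp.prod]
  refine ⟨?_, MonomialOrder.Monic.prod h⟩
  rw [m.degree_prod fun i hi => (h i hi).ne_zero]
  simp only [m.degree_pow, m.degree_X_add_C, Finsupp.smul_single, smul_eq_mul, mul_one]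
  exact s.sum_single

theorem sh_lead (m : MonomialOrder ι) (a : ι → ℂ) {P : MvPolynomial ι ℂ} (h : P ≠ 0) :
    m.degree (sh a P) = m.degree P ∧ m.leadingCoeff (sh a P) = m.leadingCoeff P := by
  have e : sh a P = ∑ s ∈ P.support, coeff s P • sh a (monomial s 1) := by
    conv_lhs => rw [P.as_sum, map_sum]
    exact sum_congr rfl fun s _ => by rw [← map_smul, smul_monomial, smul_eq_mul, mul_one]
  have h1 : coeff (m.degree P) (sh a P) = m.leadingCoeff P := by
    rw [e, coeff_sum, sum_eq_single_of_mem _ (m.degree_mem_support h) fun s hs k => ?_]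
    · have k := (sh_mon m a (m.degree P)).2.coeff_degree
      rw [(sh_mon m a _).1] at k
      rw [coeff_smul, k, smul_eq_mul, mul_one]
      rfl
    · rw [coeff_smul, m.coeff_eq_zero_of_lt (f := sh a _), smul_zero]
      rw [(sh_mon m a _).1]
      exact (m.le_degree hs).lt_of_ne fun e => k (m.toSyn.injective e)
  have h2 : m.degree (sh a P) = m.degree P := by
    refine m.toSyn.injective (le_antisymm ?_ (m.le_degree ?_))
    · rw [e]
      refine m.degree_sum_le.trans (Finset.sup_le fun s hs => m.degree_smul_le.trans ?_)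
      rw [(sh_mon m a _).1]
      exact m.le_degree hs
    · rw [mem_support_iff, h1]
      exact m.leadingCoeff_ne_zero_iff.2 h
  exact ⟨h2, by rw [← h1, ← h2]; rfl⟩

theorem det_ne {L : ℕ} (Q : Fin L → MvPolynomial ι ℂ) (hQ : ∀ t, Q t ≠ 0) (a : Fin L → ι → ℂ)
    (M : Matrix (Fin L) (Fin L) ℂ) (hM : M.det ≠ 0) (m : MonomialOrder ι) :
    (Matrix.of fun j t => sh (a j) (Q t) * C (M j t)).det ≠ 0 := by
  intro h
  have k := congrArg (coeff (∑ t, m.degree (Q t))) h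
  have e : ∀ σ : Equiv.Perm (Fin L), coeff (∑ t, m.degree (Q t)) (∏ t, sh (a (σ t)) (Q t)) =
      ∏ t, m.leadingCoeff (Q t) := fun σ => by
    have k1 := m.coeff_prod_sum_degree (fun t => sh (a (σ t)) (Q t)) univ
    simpa only [fun t => (sh_lead m (a (σ t)) (hQ t)).1,
      fun t => (sh_lead m (a (σ t)) (hQ t)).2] using k1
  simp only [Matrix.det_apply, Matrix.of_apply, prod_mul_distrib, ← map_prod C, coeff_sum,
    coeff_smul, mul_comm _ (C _), coeff_C_mul, e, coeff_zero] at k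
  simp only [← smul_mul_assoc, ← sum_mul] at k
  rw [← Matrix.det_apply] at k
  exact mul_ne_zero hM (prod_ne_zero_iff.2 fun t _ => m.leadingCoeff_ne_zero_iff.2 (hQ t)) k

/-- the binomial polynomial in one of the variables -/
noncomputable def bp (i : ι) (k : ℕ) : MvPolynomial ι ℂ :=
  (∏ j ∈ range k, (X i - C (j : ℂ))) * C (k.factorial : ℂ)⁻¹

theorem eval_bp (x : ι → ℝ) (i : ι) (k : ℕ) :
    aeval (fun i => (x i : ℂ)) (bp i k) = (bin (x i) k : ℂ) := by
  simp [bp, bin, div_eq_mul_inv]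

theorem bin_lt {n k : ℕ} (h : n < k) : bin n k = 0 := by
  rw [bin, prod_eq_zero (mem_range.2 h) (sub_self _), zero_div]

theorem bin_ne (k : ℕ) : bin k k ≠ 0 :=
  div_ne_zero (prod_ne_zero_iff.2 fun _ hj => sub_ne_zero.2 (Nat.cast_lt.2 (mem_range.1 hj)).ne')
    (Nat.cast_ne_zero.2 k.factorial_ne_zero)

variable [Fintype ι] [DecidableEq ι]

theorem bp_mem (i : ι) (k : ℕ) :
    bp i k ∈ Box ℂ (X : ι → MvPolynomial ι ℂ) (Pi.single i k) := by
  have h := Box.prod_mem (K := ℂ) (x := (X : ι → MvPolynomial ι ℂ)) (range k)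
    (y := fun j => X i - C (j : ℂ)) (e := fun _ => Pi.single i 1) fun j _ =>
      sub_mem (Box.var_mem (by simp)) (Box.algebraMap_mem _)
  rw [bp, mul_comm, C_mul']
  refine Submodule.smul_mem _ _ (Box.mono (fun j => ?_) h)
  by_cases e : j = i <;> simp [e]

/-- the coefficient of one exponential -/
noncomputable def cf {T : ι → ℕ} (p : (∀ i, Fin (T i)) → ℝ) : MvPolynomial ι ℂ :=
  ∑ τ, (p τ : ℂ) • ∏ i, bp i (τ i)

theorem eval_cf {T : ι → ℕ} (p : (∀ i, Fin (T i)) → ℝ) (x : ι → ℝ) :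
    aeval (fun i => (x i : ℂ)) (cf p) = ((∑ τ, p τ * ∏ i, bin (x i) (τ i) : ℝ) : ℂ) := by
  simp only [cf, map_sum, map_smul, map_prod, eval_bp, smul_eq_mul]
  push_cast
  rfl

theorem cf_mem {T : ι → ℕ} (p : (∀ i, Fin (T i)) → ℝ) :
    cf p ∈ Box ℂ (X : ι → MvPolynomial ι ℂ) T := by
  refine sum_mem fun τ _ => Submodule.smul_mem _ _ (Box.mono (fun j => ?_)
    (Box.prod_mem univ fun i _ => bp_mem i (τ i)))
  rw [univ_sum_single fun i => (τ i : ℕ)]
  exact (τ j).2.le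

theorem cf_ne {T : ι → ℕ} {p : (∀ i, Fin (T i)) → ℝ} (h : p ≠ 0) : cf p ≠ 0 := by
  classical
  obtain ⟨τ₀, h0⟩ := Function.ne_iff.1 h
  obtain ⟨τ, h1, h2⟩ := (univ.filter fun τ => p τ ≠ 0).exists_min_image
    (fun τ => ∑ i, (τ i : ℕ)) ⟨τ₀, mem_filter.2 ⟨mem_univ _, h0⟩⟩
  intro e
  have k := eval_cf p fun i => (τ i : ℕ)
  rw [e, map_zero, eq_comm, Complex.ofReal_eq_zero, sum_eq_single τ (fun σ _ k => ?_) (by simp)]
    at k
  · exact mul_ne_zero (mem_filter.1 h1).2 (prod_ne_zero_iff.2 fun i _ => bin_ne _) k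
  · by_contra k1
    have k2 : ∀ i, (σ i : ℕ) ≤ τ i := fun i => not_lt.1 fun k3 =>
      k1 (by rw [prod_eq_zero (mem_univ i) (bin_lt k3), mul_zero])
    obtain ⟨i, hi⟩ := Function.ne_iff.1 k
    exact (h2 σ (mem_filter.2 ⟨mem_univ _, left_ne_zero_of_mul k1⟩)).not_gt
      (sum_lt_sum (fun i _ => k2 i) ⟨i, mem_univ _, (k2 i).lt_of_ne fun e => hi (Fin.ext e)⟩)

end Pol

open Pol MvPolynomial in
theorem stPol : StPol := by
  classical
  intro ι _ _ L T p a v hp hv
  let _ : LinearOrder ι := WellOrderingRel.isWellOrder.linearOrder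
  obtain ⟨Q, hQ⟩ : ∃ Q : Fin L → MvPolynomial ι ℂ,
      Q = fun t => if cf (fun τ => p (t, τ)) = 0 then 1 else cf fun τ => p (t, τ) := ⟨_, rfl⟩
  have h1 : ∀ t, Q t ≠ 0 := fun t => by
    simp only [hQ]
    split_ifs with h
    exacts [one_ne_zero, h]
  have h2 : ∀ t, Q t ∈ Box ℂ (X : ι → MvPolynomial ι ℂ) T := fun t => by
    simp only [hQ]
    split_ifs
    exacts [Box.one_mem, cf_mem _]
  refine ⟨_, det_ne Q h1 (fun j i => a j i) (Matrix.vandermonde fun j => (v j : ℂ))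
    (Matrix.det_vandermonde_ne_zero_iff.2 (Complex.ofReal_injective.comp hv)) MonomialOrder.lex,
    ?_, fun x y hy h => ?_⟩
  · rw [Matrix.det_apply]
    refine sum_mem fun σ _ => ?_
    rw [Units.smul_def]
    refine zsmul_mem (Box.mono (fun i => ?_) (Box.prod_mem univ (e := fun _ => T) fun t _ => ?_)) _
    · simp
    · rw [Matrix.of_apply, mul_comm, C_mul']
      exact Submodule.smul_mem _ _ (Box.shift_mem _ (h2 t))
  · rw [← aeval_eq_eval, AlgHom.map_det, ← Matrix.exists_mulVec_eq_zero_iff]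
    obtain ⟨⟨t₀, τ₀⟩, h0⟩ := Function.ne_iff.1 hp
    refine ⟨fun t => if cf (fun τ => p (t, τ)) = 0 then 0 else (y : ℂ) ^ (t : ℕ),
      Function.ne_iff.2 ⟨t₀, ?_⟩, funext fun j => ?_⟩
    · rw [if_neg (cf_ne (Function.ne_iff.2 ⟨τ₀, h0⟩))]
      exact pow_ne_zero _ (Complex.ofReal_ne_zero.2 hy)
    · have k := congrArg Complex.ofReal (h j)
      rw [Fintype.sum_prod_type, Complex.ofReal_sum] at k
      rw [Matrix.mulVec, dotProduct]
      refine Eq.trans (sum_congr rfl fun t _ => ?_) k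
      have e := eval_cf (fun τ => p (t, τ)) fun i => x i + a j i
      simp only [← mul_assoc, ← sum_mul, Complex.ofReal_mul, ← e]
      simp only [AlgHom.mapMatrix_apply, Matrix.map_apply, Matrix.of_apply, map_mul, aeval_C,
        comp_aeval_apply, map_add, aeval_X, hQ, Matrix.vandermonde_apply]
      split_ifs with k1
      · simp [k1]
      · simp [mul_pow, mul_assoc, mul_comm]

end Pool.Agent.Lib.MP_4ffbf9_nt.B
end

-- part Pool.Agent.Lib.MP_4ffbf9_nt.B.Low
section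

/-! The space of small dimension. -/

set_option autoImplicit false

namespace Pool.Agent.Lib.MP_4ffbf9_nt.B

open Finset

namespace LowAux

variable {ι Ω : Type} [Fintype ι] {x : ι → Ω → ℝ} {e : ι → ℕ} {y : Ω → ℝ}

theorem bin_mem (h : y ∈ Box ℝ x e) (τ : ℕ) : (fun s => bin (y s) τ) ∈ Box ℝ x (τ • e) := by
  have e1 : (fun s => bin (y s) τ) =
      ((τ.factorial : ℝ)⁻¹) • ∏ j ∈ range τ, (y - algebraMap ℝ (Ω → ℝ) (j : ℝ)) := by
    funext s
    simp [bin, div_eq_inv_mul, Finset.prod_apply]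
  rw [e1]
  refine Submodule.smul_mem _ _ ?_
  simpa using Box.prod_mem (range τ) (y := fun j => y - algebraMap ℝ (Ω → ℝ) (j : ℝ))
    (e := fun _ => e) fun j _ => sub_mem h (Box.algebraMap_mem _)

theorem tex_mem (h : y ∈ Box ℝ x e) (k : ℕ) : (fun s => tex k (y s)) ∈ Box ℝ x (k • e) := by
  have e1 : (fun s => tex k (y s)) = ∑ j ∈ range k, ((j.factorial : ℝ)⁻¹) • y ^ j := by
    funext s
    simp [tex, div_eq_inv_mul, Finset.sum_apply]
  rw [e1]
  refine sum_mem fun j hj => Submodule.smul_mem _ _ ?_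
  exact Box.mono (fun i => Nat.mul_le_mul_right _ (mem_range.1 hj).le) (Box.pow_mem h j)

theorem core [DecidableEq ι] (z : ι → Ω → ℝ) (ℓ : ι → ℝ) (C : Finset ι) (T k : ι → ℕ)
    (T₀ k₀ : ℕ) (hT : ∀ i, i ∉ C → T i = T₀) (i₀ : ι) (hi₀ : i₀ ∉ C)
    (hζ : (∑ i ∈ Cᶜ, ℓ i • z i) ∈ Box ℝ x (Pi.single i₀ 1)) (hz : ∀ i, i ≠ i₀ → z i = x i)
    (hz₀ : z i₀ ∈ Box ℝ x fun i => if i ∈ C then 0 else 1) (t : ℝ) (τ : ι → ℕ)
    (hτ : ∀ i, τ i ≤ T i) :
    (fun s => (∏ i, bin (z i s) (τ i)) * (tex k₀ (t * ∑ i ∈ Cᶜ, ℓ i * z i s) *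
      ∏ i ∈ C, tex (k i) (t * (ℓ i * z i s)))) ∈
      Box ℝ x fun i => if i ∈ C then T i + k i else if i = i₀ then T₀ + k₀ else 2 * T₀ := by
  have hx : ∀ i, i ≠ i₀ → z i ∈ Box ℝ x (Pi.single i 1) := fun i hi => by
    rw [hz i hi]; exact Box.var_mem (by simp)
  have h1 : (∏ i ∈ univ.erase i₀, fun s => bin (z i s) (τ i)) ∈
      Box ℝ x (∑ i ∈ univ.erase i₀, τ i • (Pi.single i 1 : ι → ℕ)) :=
    Box.prod_mem _ fun i hi => bin_mem (hx i (ne_of_mem_erase hi)) _
  have h2 := bin_mem hz₀ (τ i₀)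
  have h3 := tex_mem (Submodule.smul_mem _ t hζ) k₀
  have h4 : (∏ i ∈ C, fun s => tex (k i) ((t • ℓ i • z i) s)) ∈
      Box ℝ x (∑ i ∈ C, k i • (Pi.single i 1 : ι → ℕ)) :=
    Box.prod_mem _ fun i hi => tex_mem (Submodule.smul_mem _ t (Submodule.smul_mem _ _
      (hx i fun e => hi₀ (e ▸ hi)))) _
  have h5 := Box.mul_mem (Box.mul_mem h2 h1) (Box.mul_mem h3 h4)
  have e1 : (fun s => (∏ i, bin (z i s) (τ i)) * (tex k₀ (t * ∑ i ∈ Cᶜ, ℓ i * z i s) *
      ∏ i ∈ C, tex (k i) (t * (ℓ i * z i s)))) =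
      ((fun s => bin (z i₀ s) (τ i₀)) * ∏ i ∈ univ.erase i₀, fun s => bin (z i s) (τ i)) *
      ((fun s => tex k₀ ((t • ∑ i ∈ Cᶜ, ℓ i • z i) s)) *
        ∏ i ∈ C, fun s => tex (k i) ((t • ℓ i • z i) s)) := by
    funext s
    rw [← Finset.mul_prod_erase univ _ (mem_univ i₀)]
    simp [Finset.prod_apply, Finset.sum_apply]
  rw [e1]
  refine Box.mono (fun j => ?_) h5
  have s1 : ∀ (A : Finset ι) (f : ι → ℕ),
      (∑ i ∈ A, f i • (Pi.single i 1 : ι → ℕ)) j = if j ∈ A then f j else 0 := by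
    intro A f
    rw [Finset.sum_apply]
    simp [Pi.single_apply]
  have a1 := hτ j
  have a2 := hτ i₀
  rw [hT i₀ hi₀] at a2
  simp only [Pi.add_apply, s1, Pi.smul_apply, smul_eq_mul]
  by_cases hj : j = i₀
  · subst hj
    simp [hi₀, a2]
  · by_cases hC : j ∈ C
    · simp [hj, hC, a1]
    · rw [hT j hC] at a1
      simp [hj, hC]
      omega

end LowAux

theorem stLow : StLow := by
  intro ι Ω _ _ z ℓ C T k T₀ k₀ c γ hC hT1 hT hk hγ hk₀
  have dim : ∀ (x : ι → Ω → ℝ) (i₀ : ι), i₀ ∉ C → Module.finrank ℝ (Box ℝ x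
      fun i => if i ∈ C then T i + k i else if i = i₀ then T₀ + k₀ else 2 * T₀) ≤
      γ * (c + Fintype.card ι + 2) ^ Fintype.card ι * ∏ i, T i := by
    intro x i₀ hi₀
    refine Box.finrank_le.trans ?_
    have hn : 1 ≤ Fintype.card ι := Fintype.card_pos_iff.2 ⟨i₀⟩
    have e1 : γ * (c + Fintype.card ι + 2) ^ Fintype.card ι * ∏ i, T i =
        ∏ i, (if i = i₀ then γ else 1) * ((c + Fintype.card ι + 2) * T i) := by
      rw [prod_mul_distrib, prod_mul_distrib]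
      simp [mul_assoc]
    rw [e1]
    refine prod_le_prod' fun i _ => ?_
    have a1 := hT1 i
    generalize Fintype.card ι = n at hn ⊢
    by_cases hi : i = i₀
    · subst hi
      rw [hT i hi₀] at a1 ⊢
      simp only [hi₀, if_false, if_true]
      have : T₀ ≤ γ * T₀ := Nat.le_mul_of_pos_left _ hγ
      nlinarith [Nat.zero_le (γ * n * T₀)]
    · by_cases hiC : i ∈ C
      · have := hk i hiC
        simp only [hi, hiC, if_false, if_true]
        nlinarith [Nat.zero_le (n * T i)]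
      · rw [hT i hiC] at a1 ⊢
        simp only [hi, hiC, if_false]
        have : T₀ ≤ n * T₀ := Nat.le_mul_of_pos_left _ hn
        nlinarith [Nat.zero_le (c * T₀)]
  by_cases h : ∃ i₀, i₀ ∉ C ∧ ℓ i₀ ≠ 0
  · obtain ⟨i₀, hi₀, hl⟩ := h
    refine ⟨_, dim (Function.update z i₀ (∑ i ∈ Cᶜ, ℓ i • z i)) i₀ hi₀,
      LowAux.core z ℓ C T k T₀ k₀ hT i₀ hi₀ ?_ (fun i hi => by simp [hi]) ?_⟩
    · have := Box.var_mem (K := ℝ) (x := Function.update z i₀ (∑ i ∈ Cᶜ, ℓ i • z i))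
        (d := Pi.single i₀ 1) (i := i₀) (by simp)
      simpa using this
    · have e1 : z i₀ = (ℓ i₀)⁻¹ • ((∑ i ∈ Cᶜ, ℓ i • z i) - ∑ i ∈ Cᶜ.erase i₀, ℓ i • z i) := by
        rw [← Finset.add_sum_erase _ _ (mem_compl.2 hi₀), add_sub_cancel_right, smul_smul,
          inv_mul_cancel₀ hl, one_smul]
      rw [e1]
      refine Submodule.smul_mem _ _ (sub_mem ?_ (sum_mem fun i hi => Submodule.smul_mem _ _ ?_))
      · have := Box.var_mem (K := ℝ) (x := Function.update z i₀ (∑ i ∈ Cᶜ, ℓ i • z i))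
          (d := fun i => if i ∈ C then 0 else 1) (i := i₀) (by simp [hi₀])
        simpa using this
      · have := Box.var_mem (K := ℝ) (x := Function.update z i₀ (∑ i ∈ Cᶜ, ℓ i • z i))
          (d := fun i => if i ∈ C then 0 else 1) (i := i)
          (by simp [mem_compl.1 (mem_of_mem_erase hi)])
        simpa [ne_of_mem_erase hi] using this
  · obtain ⟨i₀, hi₀⟩ : ∃ i₀, i₀ ∉ C := by
      by_contra hh
      exact hC (eq_univ_iff_forall.2 fun i => by_contra fun hi => hh ⟨i, hi⟩)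
    refine ⟨_, dim z i₀ hi₀, LowAux.core z ℓ C T k T₀ k₀ hT i₀ hi₀ ?_ (fun _ _ => rfl)
      (Box.var_mem (by simp [hi₀]))⟩
    rw [Finset.sum_eq_zero fun i hi => ?_]
    · exact zero_mem _
    · have : ℓ i = 0 := by_contra fun hl => h ⟨i, mem_compl.1 hi, hl⟩
      rw [this, zero_smul]

end Pool.Agent.Lib.MP_4ffbf9_nt.B
end

-- part Pool.Agent.Lib.MP_4ffbf9_nt.B.Est
section

/-! Elementary estimates. -/

set_option autoImplicit false

namespace Pool.Agent.Lib.MP_4ffbf9_nt.B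

open Finset

namespace EstAux

theorem int (z : ℤ) (τ : ℕ) : ∃ n : ℤ, bin z τ = n := by
  obtain ⟨n, h⟩ := Nat.factorial_coe_dvd_prod τ (-z)
  refine ⟨(-1) ^ τ * n, ?_⟩
  have h1 : ∏ j ∈ range τ, ((z : ℝ) - j) = (-1) ^ τ * ∏ j ∈ range τ, (-(z : ℝ) + j) := by
    rw [← card_range τ, ← prod_const, card_range, ← prod_mul_distrib]
    exact prod_congr rfl fun _ _ => by ring
  have h2 : ∏ j ∈ range τ, (-(z : ℝ) + j) = τ.factorial * n := by exact_mod_cast h
  rw [bin, h1, h2]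
  push_cast
  field_simp

theorem size (z β : ℝ) (τ T : ℕ) (hτ : τ ≤ T) (hβ : 0 ≤ β) (h : |z| + T ≤ Real.exp β * T) :
    |bin z τ| ≤ Real.exp ((β + 1) * T) := by
  have h1 : |∏ j ∈ range τ, (z - j)| ≤ (Real.exp β * T) ^ τ := by
    rw [abs_prod, ← card_range τ, ← prod_const, card_range]
    refine prod_le_prod (fun _ _ => abs_nonneg _) fun j hj => ((abs_sub _ _).trans ?_).trans h
    rw [Nat.abs_cast]
    exact add_le_add le_rfl (Nat.cast_le.2 ((mem_range.1 hj).le.trans hτ))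
  rw [bin, abs_div, Nat.abs_cast, add_one_mul, Real.exp_add]
  refine (div_le_div_of_nonneg_right h1 (Nat.cast_nonneg _)).trans ?_
  rw [mul_pow, mul_div_assoc, ← Real.exp_nat_mul, mul_comm (τ : ℝ)]
  exact mul_le_mul (Real.exp_le_exp.2 (mul_le_mul_of_nonneg_left (Nat.cast_le.2 hτ) hβ))
    (Real.pow_div_factorial_le_exp _ (Nat.cast_nonneg _) _) (by positivity) (by positivity)

theorem hs (y : ℝ) : HasSum (fun j : ℕ => y ^ j / j.factorial) (Real.exp y) := by
  rw [Real.exp_eq_exp_ℝ]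
  exact NormedSpace.expSeries_div_hasSum_exp y

theorem tail (y μ : ℝ) (k : ℕ) (h : Real.exp 1 * |y| ≤ k * Real.exp (-μ)) :
    |Real.exp y - tex k y| ≤ Real.exp (|y| - μ * k) := by
  have h1 := ((hasSum_nat_add_iff' k).2 (hs y)).norm_le_of_bounded
    ((hs |y|).mul_left (|y| ^ k / k.factorial)) fun j => by
      rw [Real.norm_eq_abs, abs_div, abs_pow, Nat.abs_cast, div_mul_div_comm, ← pow_add,
        add_comm j, ← Nat.cast_mul]
      exact div_le_div_of_nonneg_left (by positivity) (by positivity) (Nat.cast_le.2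
        (Nat.le_of_dvd (Nat.factorial_pos _) (Nat.factorial_mul_factorial_dvd_factorial_add k j)))
  refine h1.trans ?_
  rw [sub_eq_neg_add, Real.exp_add]
  refine mul_le_mul_of_nonneg_right (le_of_mul_le_mul_left ?_ (Real.exp_pos k)) (by positivity)
  have h2 := pow_le_pow_left₀ (by positivity) h k
  rw [mul_pow, mul_pow, ← Real.exp_nat_mul, ← Real.exp_nat_mul, mul_one, mul_neg,
    mul_comm _ μ] at h2
  rw [← mul_div_assoc]
  refine (div_le_div_of_nonneg_right h2 (Nat.cast_nonneg _)).trans ?_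
  rw [mul_div_right_comm]
  exact mul_le_mul_of_nonneg_right (Real.pow_div_factorial_le_exp _ (Nat.cast_nonneg _) _)
    (by positivity)

theorem head (y : ℝ) (k : ℕ) : |tex k y| ≤ Real.exp |y| :=
  (abs_sum_le_sum_abs _ _).trans ((sum_congr rfl fun j _ => by
    rw [abs_div, abs_pow, Nat.abs_cast]).trans_le (Real.sum_le_exp_of_nonneg (abs_nonneg y) k))

theorem prd (ι : Type) (s : Finset ι) (a b M : ι → ℝ) (ε : ℝ) (h0 : 0 ≤ ε)
    (h1 : ∀ i ∈ s, 1 ≤ M i) (h2 : ∀ i ∈ s, |a i| ≤ M i) (h3 : ∀ i ∈ s, |b i| ≤ M i)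
    (h4 : ∀ i ∈ s, |a i - b i| ≤ ε) :
    |∏ i ∈ s, a i - ∏ i ∈ s, b i| ≤ s.card * ε * ∏ i ∈ s, M i := by
  induction s using Finset.cons_induction with
  | empty => simp
  | cons j s hj ih =>
    rw [forall_mem_cons] at h1 h2 h3 h4
    have k1 := mul_le_mul h2.1 (ih h1.2 h2.2 h3.2 h4.2) (abs_nonneg _) (zero_le_one.trans h1.1)
    have k2 : |∏ i ∈ s, b i| ≤ ∏ i ∈ s, M i :=
      (abs_prod _ _).trans_le (prod_le_prod (fun _ _ => abs_nonneg _) h3.2)
    have k3 := mul_le_mul h4.1 (k2.trans (le_mul_of_one_le_left ((abs_nonneg _).trans k2) h1.1))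
      (abs_nonneg _) h0
    rw [prod_cons, prod_cons, prod_cons, card_cons, show a j * ∏ i ∈ s, a i - b j * ∏ i ∈ s, b i =
      a j * (∏ i ∈ s, a i - ∏ i ∈ s, b i) + (a j - b j) * ∏ i ∈ s, b i by ring]
    refine (abs_add_le _ _).trans ?_
    rw [abs_mul, abs_mul]
    exact (add_le_add k1 k3).trans_eq (by push_cast; ring)

end EstAux

theorem stEst : StEst :=
  ⟨EstAux.int, EstAux.size, EstAux.tail, EstAux.head, EstAux.prd⟩

end Pool.Agent.Lib.MP_4ffbf9_nt.B
end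

-- part Pool.Agent.Lib.MP_4ffbf9_nt.B.Ana
section

/-! The analytic part. -/

set_option autoImplicit false

namespace Pool.Agent.Lib.MP_4ffbf9_nt.B

open Finset Real

namespace Ana

theorem ht_prod {ι : Type} (s : Finset ι) {α h : ι → ℝ} (H : ∀ i, Ht (α i) (h i)) :
    Ht (∏ i ∈ s, α i) (∑ i ∈ s, h i) := by
  classical
  induction s using Finset.induction_on with
  | empty => simpa using Ht.one
  | insert i s hi ih => rw [prod_insert hi, sum_insert hi]; exact (H i).mul ih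

theorem key {G η : ℝ} (hG : 16 ≤ G) (hη : G ^ 2 ≤ η) : η * exp (3 * G + 1) ≤ exp (η / 2) := by
  have h1 : 256 ≤ η := by nlinarith
  have h2 : η ≤ exp (η / 4) := by
    have := quadratic_le_exp_of_nonneg (x := η / 4) (by linarith)
    nlinarith
  have h3 : exp (3 * G + 1) ≤ exp (η / 4) := exp_le_exp.2 (by nlinarith)
  calc η * exp (3 * G + 1) ≤ exp (η / 4) * exp (η / 4) := by gcongr
    _ = _ := by rw [← exp_add]; congr 1; ring

variable {r G σ h : ℕ} {α₀ : ℝ} {α : Option (Fin r) → ℝ} {ρ : Option (Fin r) → ℕ}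
  {b : Option (Fin r) → ℤ} {s₀ : ℕ} {s : Option (Fin r) → ℕ}

theorem z_le (H : Hyp G h α₀ α ρ b) (hG : r + 2 ≤ G) (h0 : s₀ < (r + 2) * (σ * h))
    (hs : ∀ i, s i < (r + 2) * (σ * G * ρ i)) (i : Option (Fin r)) :
    |(s i : ℝ) - b i * s₀| ≤ exp (3 * G) * (σ * h) := by
  have a1 : (s i : ℝ) ≤ G * (σ * G * h) := by
    exact_mod_cast (hs i).le.trans (Nat.mul_le_mul hG (Nat.mul_le_mul_left _ (H.rho i).2))
  have a2 : (s₀ : ℝ) ≤ G * (σ * h) := by
    exact_mod_cast h0.le.trans (Nat.mul_le_mul_right _ hG)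
  have a3 : |(b i : ℝ)| ≤ G * exp G := by
    have : |(b i : ℝ)| ≤ G * |(b none : ℝ)| := by exact_mod_cast H.bi i
    exact this.trans (mul_le_mul_of_nonneg_left H.b1 (Nat.cast_nonneg _))
  have a4 : 2 * (G : ℝ) ^ 2 ≤ exp (2 * G) := by
    have := quadratic_le_exp_of_nonneg (x := 2 * (G : ℝ)) (by positivity)
    nlinarith [Nat.cast_nonneg (α := ℝ) G]
  have a5 : 1 ≤ exp (G : ℝ) := one_le_exp (Nat.cast_nonneg _)
  calc |(s i : ℝ) - b i * s₀| ≤ s i + |(b i : ℝ)| * s₀ := by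
        refine (abs_sub _ _).trans_eq ?_
        rw [abs_mul, Nat.abs_cast, Nat.abs_cast]
    _ ≤ G * (σ * G * h) * exp G + G * exp G * (G * (σ * h)) := by
        gcongr
        exact a1.trans (le_mul_of_one_le_right (by positivity) a5)
    _ = 2 * G ^ 2 * exp G * (σ * h) := by ring
    _ ≤ exp (2 * G) * exp G * (σ * h) := by gcongr
    _ = _ := by rw [← exp_add]; congr 2; ring

theorem w_ht (H : Hyp G h α₀ α ρ b) (h0 : s₀ < (r + 2) * (σ * h))
    (hs : ∀ i, s i < (r + 2) * (σ * G * ρ i)) :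
    Ht (α₀ ^ s₀ * ∏ i, α i ^ s i) ((r + 2) ^ 2 * (σ * G * h)) := by
  refine ((H.h0.pow s₀).mul (ht_prod univ fun i => (H.hi i).pow (s i))).mono ?_
  have a2 : (s₀ : ℝ) ≤ (r + 2) * (σ * h) := by exact_mod_cast h0.le
  have a3 : ∀ i, (s i : ℝ) * (h / ρ i) ≤ (r + 2) * (σ * G * h) := fun i => by
    have a1 : (s i : ℝ) ≤ (r + 2) * (σ * G * ρ i) := by exact_mod_cast (hs i).le
    have a4 : (0 : ℝ) < ρ i := by exact_mod_cast (H.rho i).1
    calc (s i : ℝ) * (h / ρ i) ≤ (r + 2) * (σ * G * ρ i) * (h / ρ i) := by gcongr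
      _ = _ := by field_simp
  have a5 := sum_le_card_nsmul univ _ _ fun i _ => a3 i
  rw [card_univ, Fintype.card_option, Fintype.card_fin, nsmul_eq_mul] at a5
  push_cast at a5
  have a6 : (s₀ : ℝ) * G ≤ (r + 2) * (σ * h) * G := by gcongr
  nlinarith

theorem log_w (H : Hyp G h α₀ α ρ b) : log (α₀ ^ s₀ * ∏ i, α i ^ s i) =
    ∑ i, log (α i) * ((s i : ℝ) - b i * s₀) + s₀ * Lam α₀ α b := by
  rw [log_mul (pow_pos H.h0.pos _).ne' (prod_pos fun i _ => pow_pos (H.hi i).pos _).ne',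
    log_prod fun i _ => (pow_pos (H.hi i).pos _).ne', log_pow, Lam, mul_add, mul_sum,
    add_left_comm, ← sum_add_distrib]
  congr 1
  exact sum_congr rfl fun i _ => by rw [log_pow]; ring

theorem T_pos (H : Hyp G h α₀ α ρ b) (hG : 1 ≤ G) (hσ : 1 ≤ σ) (i : Option (Fin r)) :
    1 ≤ Tp G σ h ρ i := by
  have h1 := (H.rho i).1
  have h2 := h1.trans (H.rho i).2
  unfold Tp
  split_ifs <;> exact Nat.succ_le_of_lt (by positivity)

theorem T_le (hG : 1 ≤ G) (i : Option (Fin r)) : Tp G σ h ρ i ≤ G ^ 3 * σ * h := by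
  unfold Tp
  split_ifs with hi
  · have h1 : G * ρ i ≤ h :=
      le_trans (Nat.mul_le_mul_right _ (Nat.le_self_pow (by norm_num) G)) (mem_filter.1 hi).2.2
    calc G ^ 4 * σ * ρ i = G ^ 3 * σ * (G * ρ i) := by ring
      _ ≤ _ := Nat.mul_le_mul_left _ h1
  · exact Nat.mul_le_mul_right _ (Nat.mul_le_mul_right _ (Nat.pow_le_pow_right hG (by norm_num)))

/-- the data of a variable with a small logarithm -/
theorem cheap (H : Hyp G h α₀ α ρ b) (hG : 16 ≤ G) {i : Option (Fin r)} (hi : i ∈ Ch G h ρ) :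
    ∃ η : ℝ, (G : ℝ) ^ 2 ≤ η ∧ η * Tp G σ h ρ i = G ^ 3 * σ * h ∧
      |log (α i)| ≤ G * exp (-η) ∧ (G : ℝ) ^ 3 * (σ * h) = η * Tp G σ h ρ i := by
  obtain ⟨h1, h2⟩ := (mem_filter.1 hi).2
  obtain ⟨j, rfl⟩ := Option.ne_none_iff_exists'.1 h1
  have a4 : (0 : ℝ) < ρ (some j) := by exact_mod_cast (H.rho _).1
  have a5 : (0 : ℝ) < G := by exact_mod_cast (show 0 < G by omega)
  have a6 : (h / (ρ (some j) * G) : ℝ) * Tp G σ h ρ (some j) = G ^ 3 * σ * h := by
    rw [Tp, if_pos hi]; push_cast; field_simp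
  refine ⟨h / (ρ (some j) * G), ?_, a6, H.cheap j, by rw [a6]; ring⟩
  rw [le_div_iff₀ (by positivity)]
  have : (G : ℝ) ^ 3 * ρ (some j) ≤ h := by exact_mod_cast h2
  linarith

theorem bin_le (hE : StEst) (H : Hyp G h α₀ α ρ b) (hG : 16 ≤ G) {z : ℝ}
    (hz : |z| ≤ exp (3 * G) * (σ * h)) {i : Option (Fin r)} {τ : ℕ} (hτ : τ ≤ Tp G σ h ρ i) :
    |bin z τ| ≤ exp (5 * (G ^ 3 * σ * h)) := by
  have g1 : (16 : ℝ) ≤ G := by exact_mod_cast hG
  have g2 : (0 : ℝ) ≤ σ * h := by positivity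
  by_cases hi : i ∈ Ch G h ρ
  · obtain ⟨η, h1, h2, -, h4⟩ := cheap (σ := σ) H hG hi
    set T : ℝ := ((Tp G σ h ρ i : ℕ) : ℝ)
    have hT : 0 ≤ T := Nat.cast_nonneg _
    have h5 : 256 ≤ η := by nlinarith
    have h6 : σ * h ≤ η * T := h4 ▸ le_mul_of_one_le_left g2 (one_le_pow₀ (by linarith))
    have h7 : η * exp (3 * G) ≤ exp (η / 2 - 1) := by
      rw [exp_sub, le_div_iff₀ (exp_pos _), mul_assoc, ← exp_add]
      exact key g1 h1
    have h8 : exp (η / 2 - 1) + 1 ≤ exp (η - 1) := by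
      have e1 : exp (η - 1) = exp (η / 2 - 1) * exp (η / 2) := by rw [← exp_add]; congr 1; ring
      have e2 := add_one_le_exp (η / 2)
      have e3 := one_le_exp (x := η / 2 - 1) (by linarith)
      nlinarith
    refine (hE.2.1 z (η - 1) τ _ hτ (by linarith) ?_).trans (exp_le_exp.2 ?_)
    · calc |z| + T ≤ exp (3 * G) * (η * T) + T := by
            gcongr
            exact hz.trans (by gcongr)
        _ = (η * exp (3 * G) + 1) * T := by ring
        _ ≤ _ := by gcongr; linarith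
    · rw [sub_add_cancel, h2]
      have : (0 : ℝ) ≤ G ^ 3 * σ * h := by positivity
      linarith
  · have e : (Tp G σ h ρ i : ℝ) = G ^ 2 * (σ * h) := by rw [Tp, if_neg hi]; push_cast; ring
    refine (hE.2.1 z (3 * G + 1) τ _ hτ (by linarith) ?_).trans (exp_le_exp.2 ?_)
    · have h6 : (σ * h : ℝ) ≤ Tp G σ h ρ i :=
        e ▸ le_mul_of_one_le_left g2 (one_le_pow₀ (by linarith))
      have e2 := add_one_le_exp 1
      have e3 := one_le_exp (x := 3 * (G : ℝ)) (by linarith)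
      calc |z| + Tp G σ h ρ i ≤ exp (3 * G) * Tp G σ h ρ i + Tp G σ h ρ i := by
            gcongr
            exact hz.trans (by gcongr)
        _ = (exp (3 * G) + 1) * Tp G σ h ρ i := by ring
        _ ≤ _ := by
            gcongr
            rw [exp_add]
            nlinarith
    · rw [e]
      have : (0 : ℝ) ≤ G ^ 2 * (σ * h) := by positivity
      nlinarith

theorem cheap_le (hE : StEst) (H : Hyp G h α₀ α ρ b) (hG : 16 ≤ G) {z t : ℝ} {C : ℕ} (hC : 1 ≤ C)
    (hz : |z| ≤ exp (3 * G) * (σ * h)) (ht : |t| ≤ G ^ 2) {i : Option (Fin r)}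
    (hi : i ∈ Ch G h ρ) : |t * (log (α i) * z)| ≤ G ^ 3 * σ * h ∧
      |exp (t * (log (α i) * z)) - tex (62 * C * Tp G σ h ρ i) (t * (log (α i) * z))| ≤
        exp (-(30 * (C * (G ^ 3 * σ * h)))) := by
  have g1 : (16 : ℝ) ≤ G := by exact_mod_cast hG
  have c1 : (1 : ℝ) ≤ C := by exact_mod_cast hC
  obtain ⟨η, h1, h2, h3, h4⟩ := cheap (σ := σ) H hG hi
  set T : ℝ := ((Tp G σ h ρ i : ℕ) : ℝ) with hTe
  set y := t * (log (α i) * z)
  have hT : 0 ≤ T := Nat.cast_nonneg _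
  have h5 : 256 ≤ η := by nlinarith
  have h6 : exp 1 * |y| ≤ T * exp (-(η / 2)) := by
    calc exp 1 * |y| ≤ exp 1 * (G ^ 2 * (G * exp (-η) * (exp (3 * G) * (σ * h)))) := by
          simp only [y, abs_mul]
          gcongr
      _ = G ^ 3 * (σ * h) * (exp (3 * G) * exp 1) * exp (-η) := by ring
      _ = T * (η * exp (3 * G + 1) * exp (-η)) := by rw [h4, exp_add]; ring
      _ ≤ T * (exp (η / 2) * exp (-η)) := by gcongr; exact key g1 h1
      _ = _ := by rw [← exp_add]; congr 2; ring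
  have h7 : |y| ≤ G ^ 3 * σ * h := by
    have e1 := one_le_exp (x := 1) zero_le_one
    have e2 : exp (-(η / 2)) ≤ 1 := exp_le_one_iff.2 (by linarith)
    have e3 : |y| ≤ exp 1 * |y| := le_mul_of_one_le_left (abs_nonneg _) e1
    have e4 : T * exp (-(η / 2)) ≤ T := mul_le_of_le_one_right hT e2
    have e5 : T ≤ η * T := le_mul_of_one_le_left hT (by linarith)
    linarith
  refine ⟨h7, (hE.2.2.1 y (η / 2) _ (h6.trans ?_)).trans (exp_le_exp.2 ?_)⟩
  · push_cast
    gcongr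
    exact le_mul_of_one_le_left hT (by linarith)
  · have e1 : η / 2 * ((62 * C * Tp G σ h ρ i : ℕ) : ℝ) = 31 * (C * (G ^ 3 * σ * h)) := by
      rw [← h2]; push_cast; ring
    have e2 : (G : ℝ) ^ 3 * σ * h ≤ C * (G ^ 3 * σ * h) :=
      le_mul_of_one_le_left (by positivity) c1
    rw [e1]
    linarith

/-- the approximation at one point -/
theorem approx (hE : StEst) (H : Hyp G h α₀ α ρ b) (hG : 16 ≤ G) (hG' : 32 * (r + 2) ^ 2 ≤ G)
    (hσ : 1 ≤ σ) (hΛ : |Lam α₀ α b| ≤ exp (-(h * (G ^ 4 * σ)))) (h0 : s₀ < (r + 2) * (σ * h))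
    (hs : ∀ i, s i < (r + 2) * (σ * G * ρ i)) {t : ℕ} (ht : t < G ^ 2) :
    |(α₀ ^ s₀ * ∏ i, α i ^ s i) ^ t -
      tex (32 * (r + 2) ^ 2 * G * (G ^ 2 * σ * h))
        (t * ∑ i ∈ (Ch G h ρ)ᶜ, log (α i) * ((s i : ℝ) - b i * s₀)) *
      ∏ i ∈ Ch G h ρ, tex (62 * (r + 2) ^ 2 * Tp G σ h ρ i)
        (t * (log (α i) * ((s i : ℝ) - b i * s₀)))| ≤
      exp (-(26 * ((r + 2) ^ 2 * (G ^ 3 * σ * h)))) := by
  have hr : r + 2 ≤ G := by nlinarith
  have hh : 1 ≤ h := (H.rho none).1.trans (H.rho none).2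
  have hw := w_ht H h0 hs
  set U : ℝ := G ^ 3 * σ * h with hU
  set V : ℝ := (r + 2) ^ 2 * U with hV
  have U1 : 1 ≤ U := by
    have : 1 ≤ G ^ 3 * σ * h := Nat.succ_le_of_lt (by positivity)
    rw [hU]; exact_mod_cast this
  have r0 : (0 : ℝ) ≤ r := Nat.cast_nonneg _
  have V1 : (r + 2) * U ≤ V := by rw [hV]; nlinarith [mul_nonneg r0 r0]
  have V2 : r + 2 ≤ V := le_trans (le_mul_of_one_le_right (by linarith) U1) V1
  have t1 : |(t : ℝ)| ≤ G ^ 2 := by rw [Nat.abs_cast]; exact_mod_cast ht.le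
  have hc := fun i (hi : i ∈ Ch G h ρ) =>
    cheap_le hE H hG (C := (r + 2) ^ 2) (Nat.one_le_pow _ _ (by omega)) (z_le H hr h0 hs i) t1 hi
  set y : Option (Fin r) → ℝ := fun i => t * (log (α i) * ((s i : ℝ) - b i * s₀)) with hy
  set y₀ : ℝ := t * ∑ i ∈ (Ch G h ρ)ᶜ, log (α i) * ((s i : ℝ) - b i * s₀) with hy₀
  set δ : ℝ := t * (s₀ * Lam α₀ α b) with hδ
  have e1 : t * log (α₀ ^ s₀ * ∏ i, α i ^ s i) = δ + (y₀ + ∑ i ∈ Ch G h ρ, y i) := by
    rw [log_w H, ← sum_compl_add_sum (Ch G h ρ), hδ, hy₀, hy, ← mul_sum]; ring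
  have e2 : |t * log (α₀ ^ s₀ * ∏ i, α i ^ s i)| ≤ V := by
    rw [abs_mul]
    refine (mul_le_mul t1 hw.abs_log_le (abs_nonneg _) (by positivity)).trans_eq ?_
    rw [hV, hU]; ring
  have card : ((Ch G h ρ).card : ℝ) ≤ r + 1 := by
    have := card_le_univ (Ch G h ρ)
    rw [Fintype.card_option, Fintype.card_fin] at this
    exact_mod_cast this
  have d1 : |δ| ≤ exp (-(31 * V)) := by
    have a2 : (s₀ : ℝ) ≤ (r + 2) * (σ * h) := by exact_mod_cast h0.le
    have a3 : 32 * ((r : ℝ) + 2) ^ 2 ≤ G := by exact_mod_cast hG'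
    have a4 : (G : ℝ) ^ 2 ≤ G ^ 3 := pow_le_pow_right₀ (by nlinarith) (by norm_num)
    calc |δ| ≤ G ^ 3 * ((r + 2) * (σ * h) * exp (-(32 * V))) := by
          rw [hδ, abs_mul, abs_mul, Nat.abs_cast s₀]
          gcongr
          · exact t1.trans a4
          · refine hΛ.trans (exp_le_exp.2 (neg_le_neg ?_))
            calc 32 * V = 32 * (r + 2) ^ 2 * U := by rw [hV]; ring
              _ ≤ G * U := by gcongr
              _ = _ := by rw [hU]; ring
      _ = (r + 2) * U * exp (-(32 * V)) := by rw [hU]; ring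
      _ ≤ exp V * exp (-(32 * V)) := by
          gcongr
          linarith [add_one_le_exp V]
      _ = _ := by rw [← exp_add]; congr 1; ring
  have d2 : |δ| ≤ 1 := d1.trans (exp_le_one_iff.2 (by linarith))
  have d3 : |exp δ - 1| ≤ exp (-(30 * V)) := by
    calc |exp δ - 1| ≤ 2 * |δ| := abs_exp_sub_one_le d2
      _ ≤ exp V * exp (-(31 * V)) := by
          gcongr
          linarith [add_one_le_exp V]
      _ = _ := by rw [← exp_add]; congr 1; ring
  have y1 : |y₀| ≤ 2 * V := by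
    have a1 : |∑ i ∈ Ch G h ρ, y i| ≤ (r + 1) * U := by
      refine (abs_sum_le_sum_abs _ _).trans ((sum_le_card_nsmul _ _ U fun i hi => (hc i hi).1).trans ?_)
      rw [nsmul_eq_mul]
      gcongr
    have a2 : y₀ = t * log (α₀ ^ s₀ * ∏ i, α i ^ s i) - δ - ∑ i ∈ Ch G h ρ, y i := by
      rw [e1]; ring
    rw [abs_le] at a1 e2 d2 ⊢
    constructor <;> linarith
  have k0 : ((32 * (r + 2) ^ 2 * G * (G ^ 2 * σ * h) : ℕ) : ℝ) = 32 * V := by
    rw [hV, hU]; push_cast; ring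
  have y2 : |exp y₀ - tex (32 * (r + 2) ^ 2 * G * (G ^ 2 * σ * h)) y₀| ≤ exp (-(30 * V)) := by
    refine (hE.2.2.1 y₀ 1 _ ?_).trans (exp_le_exp.2 (by rw [k0]; linarith))
    rw [k0, exp_neg, ← div_eq_mul_inv, le_div_iff₀ (exp_pos _)]
    have a1 : exp 1 ≤ 3 := exp_one_lt_d9.le.trans (by norm_num)
    calc exp 1 * |y₀| * exp 1 ≤ 3 * (2 * V) * 3 := by gcongr
      _ ≤ _ := by linarith
  have p1 : ∏ _i ∈ Ch G h ρ, exp U ≤ exp V := by
    rw [prod_const, ← exp_nat_mul]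
    exact exp_le_exp.2 (by nlinarith)
  have p2 := hE.2.2.2.2 _ (Ch G h ρ) (fun i => exp (y i))
    (fun i => tex (62 * (r + 2) ^ 2 * Tp G σ h ρ i) (y i)) (fun _ => exp U) (exp (-(30 * V)))
    (exp_pos _).le (fun _ _ => one_le_exp (by linarith))
    (fun i hi => by rw [abs_exp]; exact exp_le_exp.2 ((le_abs_self _).trans (hc i hi).1))
    (fun i hi => (hE.2.2.2.1 _ _).trans (exp_le_exp.2 (hc i hi).1))
    (fun i hi => by have := (hc i hi).2; push_cast at this; exact this)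
  have p3 : ∏ i ∈ Ch G h ρ, exp (y i) ≤ exp V :=
    le_trans (prod_le_prod (fun _ _ => (exp_pos _).le) fun i hi =>
      exp_le_exp.2 ((le_abs_self _).trans (hc i hi).1)) p1
  have p4 : exp y₀ ≤ exp (2 * V) := exp_le_exp.2 ((le_abs_self _).trans y1)
  have p5 := (hE.2.2.2.1 y₀ (32 * (r + 2) ^ 2 * G * (G ^ 2 * σ * h))).trans (exp_le_exp.2 y1)
  have e3 : (α₀ ^ s₀ * ∏ i, α i ^ s i) ^ t = exp δ * (exp y₀ * ∏ i ∈ Ch G h ρ, exp (y i)) := by
    rw [← exp_sum, ← exp_add, ← exp_add, ← e1, exp_nat_mul, exp_log hw.pos]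
  rw [e3]
  set A := exp y₀
  set A' := tex (32 * (r + 2) ^ 2 * G * (G ^ 2 * σ * h)) y₀
  set P := ∏ i ∈ Ch G h ρ, exp (y i)
  set P' := ∏ i ∈ Ch G h ρ, tex (62 * (r + 2) ^ 2 * Tp G σ h ρ i) (y i)
  have A0 : 0 ≤ A := (exp_pos _).le
  have P0 : 0 ≤ P := prod_nonneg fun _ _ => (exp_pos _).le
  have q1 : 1 ≤ exp (2 * V) := one_le_exp (by linarith)
  calc |exp δ * (A * P) - A' * P'| = |(exp δ - 1) * (A * P) + (A - A') * P + A' * (P - P')| := by
        congr 1; ring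
    _ ≤ |exp δ - 1| * (A * P) + |A - A'| * P + |A'| * |P - P'| := by
        refine (abs_add_three _ _ _).trans_eq ?_
        rw [abs_mul, abs_mul, abs_mul, abs_mul, abs_of_nonneg A0, abs_of_nonneg P0]
    _ ≤ exp (-(30 * V)) * (exp (2 * V) * exp V) + exp (-(30 * V)) * (exp (2 * V) * exp V) +
          exp (2 * V) * ((r + 1) * exp (-(30 * V)) * exp V) := by
        gcongr
        · exact p3.trans (le_mul_of_one_le_left (exp_pos _).le q1)
        · exact p2.trans (by gcongr)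
    _ = (r + 3) * (exp (-(30 * V)) * exp (2 * V) * exp V) := by ring
    _ ≤ exp V * (exp (-(30 * V)) * exp (2 * V) * exp V) := by
        gcongr
        linarith [add_one_le_exp V]
    _ = _ := by rw [← exp_add, ← exp_add, ← exp_add]; congr 1; ring

end Ana

open Ana in
theorem stAux (hD : StDet) (hL : StLow) (hE : StEst) : StAux := by
  intro r
  refine ⟨16 + 32 * (r + 2) ^ 2 + 2 * (62 * (r + 2) ^ 2 + (r + 1) + 2) ^ (r + 1), ?_⟩
  intro G σ h α₀ α ρ b hG hσ H hΛ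
  have G1 : 16 ≤ G := by omega
  have G2 : 32 * (r + 2) ^ 2 ≤ G := by omega
  have G3 : 2 * (62 * (r + 2) ^ 2 + (r + 1) + 2) ^ (r + 1) ≤ G := by omega
  have hr : r + 2 ≤ G := by nlinarith
  have hh : 1 ≤ h := (H.rho none).1.trans (H.rho none).2
  let Ω := Fin ((r + 2) * (σ * h)) × ∀ i, Fin ((r + 2) * (σ * G * ρ i))
  let R := Fin (G ^ 2) × ∀ i, Fin (Tp G σ h ρ i)
  let z : Option (Fin r) → Ω → ℝ := fun i s => ((s.2 i : ℕ) : ℝ) - b i * (s.1 : ℕ)
  let w : Ω → ℝ := fun s => α₀ ^ (s.1 : ℕ) * ∏ i, α i ^ (s.2 i : ℕ)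
  let f : R → Ω → ℝ := fun m s => (∏ i, bin (z i s) (m.2 i)) * w s ^ (m.1 : ℕ)
  by_cases hf : LinearIndependent ℝ f
  swap
  · obtain ⟨p, h1, m, hm⟩ := Fintype.not_linearIndependent_iff.1 hf
    refine ⟨p, fun e => hm (by rw [e]; rfl), fun s₀ s h0 hs => ?_⟩
    have := congrFun h1 (⟨s₀, h0⟩, fun i => ⟨s i, hs i⟩)
    rwa [Finset.sum_apply] at this
  exfalso
  have hT := T_pos H (σ := σ) (by omega) hσ
  have : Nonempty R := ⟨⟨0, by positivity⟩, fun i => ⟨0, hT i⟩⟩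
  have hw : ∀ s : Ω, Ht (w s) ((r + 2) ^ 2 * (σ * G * h)) := fun s =>
    w_ht H s.1.2 fun i => (s.2 i).2
  have hz : ∀ i (s : Ω), |z i s| ≤ exp (3 * G) * (σ * h) := fun i s =>
    z_le H hr s.1.2 (fun i => (s.2 i).2) i
  choose p q hp hq hp' hq' hpq using hw
  obtain ⟨P, hP, hPm⟩ := hL _ Ω z (fun i => log (α i)) (Ch G h ρ) (Tp G σ h ρ)
    (fun i => 62 * (r + 2) ^ 2 * Tp G σ h ρ i) (G ^ 2 * σ * h)
    (32 * (r + 2) ^ 2 * G * (G ^ 2 * σ * h)) (62 * (r + 2) ^ 2) G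
    (fun e => (mem_filter.1 (e ▸ mem_univ none : none ∈ Ch G h ρ)).2.1 rfl) hT
    (fun i hi => if_neg hi) (fun _ _ => le_rfl) (by omega) (by gcongr; norm_num)
  set U : ℝ := G ^ 3 * σ * h with hU
  set V : ℝ := (r + 2) ^ 2 * U with hV
  have U1 : 1 ≤ U := by
    have : 1 ≤ G ^ 3 * σ * h := Nat.succ_le_of_lt (by positivity)
    rw [hU]; exact_mod_cast this
  have r0 : (0 : ℝ) ≤ r := Nat.cast_nonneg _
  have V1 : (r + 2) * U ≤ V := by rw [hV]; nlinarith [mul_nonneg r0 r0]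
  have V2 : r + 2 ≤ V := le_trans (le_mul_of_one_le_right (by linarith) U1) V1
  have cR : Fintype.card R = G ^ 2 * ∏ i, Tp G σ h ρ i := by simp [R]
  have hb : ∀ (m : R) s, |∏ i, bin (z i s) (m.2 i)| ≤ exp (5 * V) := fun m s => by
    rw [abs_prod]
    refine (prod_le_prod (fun _ _ => abs_nonneg _) fun i _ =>
      bin_le hE H G1 (hz i s) (m.2 i).2.le).trans ?_
    rw [prod_const, ← exp_nat_mul, card_univ, Fintype.card_option, Fintype.card_fin]
    push_cast
    exact exp_le_exp.2 (by nlinarith)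
  have hq2 : ∀ {x : ℝ} {t : ℕ}, 0 ≤ x → x ≤ exp ((r + 2) ^ 2 * (σ * G * h)) → t ≤ G ^ 2 →
      x ^ t ≤ exp V := fun {x t} h0 h1 h2 => by
    refine (pow_le_pow_left₀ h0 h1 t).trans ?_
    rw [← exp_nat_mul]
    refine exp_le_exp.2 ?_
    have : (t : ℝ) ≤ G ^ 2 := by exact_mod_cast h2
    calc (t : ℝ) * ((r + 2) ^ 2 * (σ * G * h)) ≤ G ^ 2 * ((r + 2) ^ 2 * (σ * G * h)) := by gcongr
      _ = _ := by rw [hV, hU]; ring
  have main := hD R Ω f (fun s => (q s : ℝ) ^ (G ^ 2)) P (exp V) (exp (6 * V)) (exp (-(21 * V))) hf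
    (fun s => ⟨pow_pos (by exact_mod_cast hq s) _, hq2 (Nat.cast_nonneg _) (hq' s) le_rfl⟩)
    (fun m s => by
      choose n hn using fun i => hE.1 ((s.2 i : ℕ) - b i * (s.1 : ℕ)) (m.2 i)
      obtain ⟨c, hc⟩ := Nat.exists_eq_add_of_le m.1.2.le
      have q0 : (q s : ℝ) ≠ 0 := by exact_mod_cast (hq s).ne'
      refine ⟨(∏ i, n i) * ((p s : ℤ) ^ (m.1 : ℕ) * (q s : ℤ) ^ c), ?_⟩
      have e1 : (q s : ℝ) ^ (G ^ 2) = (q s : ℝ) ^ (m.1 : ℕ) * (q s : ℝ) ^ c := by
        rw [← pow_add, ← hc]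
      have e2 : ∏ i, bin (z i s) (m.2 i) = ∏ i, (n i : ℝ) := prod_congr rfl fun i _ => by
        rw [← hn i]; push_cast; rfl
      simp only [f]
      rw [e1, e2, hpq s, div_pow]
      push_cast
      field_simp)
    (one_le_exp (by linarith))
    (fun m s => by
      have w0 : 0 ≤ w s := by rw [hpq s]; positivity
      have w1 : w s ≤ exp ((r + 2) ^ 2 * (σ * G * h)) := by
        rw [hpq s]
        exact (div_le_self (Nat.cast_nonneg _) (by exact_mod_cast hq s)).trans (hp' s)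
      simp only [f]
      rw [abs_mul, abs_of_nonneg (pow_nonneg w0 _), show 6 * V = 5 * V + V by ring, exp_add]
      exact mul_le_mul (hb m s) (hq2 w0 w1 m.1.2.le) (pow_nonneg w0 _) (exp_pos _).le)
    (by
      rw [cR]
      rw [Fintype.card_option, Fintype.card_fin] at hP
      calc 2 * Module.finrank ℝ P
          ≤ 2 * (G * (62 * (r + 2) ^ 2 + (r + 1) + 2) ^ (r + 1) * ∏ i, Tp G σ h ρ i) := by gcongr
        _ = G * (2 * (62 * (r + 2) ^ 2 + (r + 1) + 2) ^ (r + 1)) * ∏ i, Tp G σ h ρ i := by ring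
        _ ≤ G * G * ∏ i, Tp G σ h ρ i := by gcongr
        _ = _ := by ring)
    (exp_pos _).le (exp_le_one_iff.2 (by linarith))
    (fun m => ⟨_, hPm (m.1 : ℕ) (fun i => m.2 i) fun i => (m.2 i).2.le, fun s => by
      simp only [f]
      rw [← mul_sub, abs_mul, show -(21 * V) = 5 * V + -(26 * V) by ring, exp_add]
      exact mul_le_mul (hb m s) (approx hE H G1 G2 hσ hΛ s.1.2 (fun i => (s.2 i).2) m.1.2)
        (abs_nonneg _) (exp_pos _).le⟩)
  have c1 : (Fintype.card R : ℝ) ≤ exp V := by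
    have a1 : Fintype.card R ≤ (G ^ 3 * σ * h) ^ (r + 2) := by
      rw [cR, pow_succ' _ (r + 1)]
      refine Nat.mul_le_mul ?_ ((prod_le_pow_card _ _ _ fun i _ => T_le (by omega) i).trans_eq ?_)
      · calc G ^ 2 ≤ G ^ 3 * 1 * 1 := by simpa using Nat.pow_le_pow_right (by omega) (by norm_num)
          _ ≤ _ := by gcongr
      · rw [card_univ, Fintype.card_option, Fintype.card_fin]
    calc (Fintype.card R : ℝ) ≤ U ^ (r + 2) := by rw [hU]; exact_mod_cast a1
      _ ≤ exp U ^ (r + 2) := by gcongr; linarith [add_one_le_exp U]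
      _ ≤ _ := by rw [← exp_nat_mul]; push_cast; exact exp_le_exp.2 V1
  have c2 : 4 ≤ exp (2 * V) := by linarith [add_one_le_exp (2 * V)]
  have c3 : (4 * Fintype.card R * exp V * exp (6 * V)) ^ 2 * exp (-(21 * V)) ≤ exp (-V) :=
    calc _ ≤ (exp (2 * V) * exp V * exp V * exp (6 * V)) ^ 2 * exp (-(21 * V)) := by gcongr
      _ = _ := by
        rw [← exp_add, ← exp_add, ← exp_add, ← exp_nat_mul, ← exp_add]; congr 1; push_cast; ring
  exact absurd (main.trans c3) (not_le.2 (exp_lt_one_iff.2 (by linarith)))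

end Pool.Agent.Lib.MP_4ffbf9_nt.B
end
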