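import Pool.Agent.Lib.MP_4ffbf9_nt.B.Shape

-- part Pool.Agent.Lib.MP_4ffbf9_nt.B.Core
section

/-! The small relation. -/

set_option autoImplicit false

namespace Pool.Agent.Lib.MP_4ffbf9_nt.B

open Finset

namespace Core

theorem shift {r : ℕ} {α₀ : ℝ} {α : Option (Fin r) → ℝ} {b : Option (Fin r) → ℤ}
    (h : Lam α₀ α b ≠ 0) : ∃ (t₀ : ℕ) (t : Option (Fin r) → ℕ), t₀ ≤ 1 ∧ (∀ i, t i ≤ 1) ∧
      α₀ ^ t₀ * ∏ i, α i ^ t i ≠ 1 := by
  by_cases h0 : α₀ = 1
  · obtain ⟨i, hi⟩ : ∃ i, α i ≠ 1 := by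
      by_contra hn
      push Not at hn
      exact h (by simp [Lam, h0, hn])
    refine ⟨0, Pi.single i 1, Nat.zero_le _, fun j => ?_, ?_⟩
    · by_cases e : j = i
      · simp [e]
      · simp [e]
    · rwa [pow_zero, one_mul, prod_eq_single i (fun j _ e => by simp [e]) (by simp),
        Pi.single_eq_same, pow_one]
  · exact ⟨1, 0, le_rfl, fun _ => Nat.zero_le _, by simpa using h0⟩

theorem deg_le {r G σ h : ℕ} {ρ : Option (Fin r) → ℕ} (hG : 1 ≤ G) (j : Option (Fin r)) :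
    G ^ 2 * Tp G σ h ρ j ≤ G ^ 6 * if j = none then σ * h else σ * G * ρ j := by
  unfold Tp
  by_cases e : j = none
  · rw [if_pos e, if_neg (by simp [Ch, e]), ← mul_assoc, ← mul_assoc, ← pow_add, mul_assoc]
    exact Nat.mul_le_mul_right _ (Nat.pow_le_pow_right hG (by norm_num))
  · rw [if_neg e]
    split_ifs with c
    · calc G ^ 2 * (G ^ 4 * σ * ρ j) = G ^ 6 * (σ * 1 * ρ j) := by ring
        _ ≤ _ := by gcongr
    · have : h ≤ G ^ 3 * ρ j := by
        simp only [Ch, mem_filter, mem_univ, true_and, not_and, not_le] at c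
        exact (c e).le
      calc G ^ 2 * (G ^ 2 * σ * h) ≤ G ^ 2 * (G ^ 2 * σ * (G ^ 3 * ρ j)) := by gcongr
        _ = _ := by ring

/-- the polynomial without exponentials vanishes on the closed grid -/
theorem pol (hP : StPol) {r G σ h : ℕ} {α₀ : ℝ} {α : Option (Fin r) → ℝ}
    {ρ : Option (Fin r) → ℕ} {b : Option (Fin r) → ℤ} (h0 : 0 < α₀) (hi : ∀ i, 0 < α i)
    (hL : Lam α₀ α b ≠ 0) (g0 : G ^ 2 ≤ σ * h) (g1 : ∀ i, G ^ 2 ≤ σ * G * ρ i)
    {p : Fin (G ^ 2) × (∀ i, Fin (Tp G σ h ρ i)) → ℝ} (hp : p ≠ 0) (hV : Van G σ h α₀ α ρ b p) :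
    ∃ D : MvPolynomial (Option (Fin r)) ℂ, D ≠ 0 ∧
      D ∈ Box ℂ (MvPolynomial.X : Option (Fin r) → MvPolynomial _ ℂ)
        (fun i => G ^ 2 * Tp G σ h ρ i) ∧
      ∀ (s₀ : ℕ) (s : Option (Fin r) → ℕ), s₀ ≤ (r + 1) * (σ * h) →
        (∀ i, s i ≤ (r + 1) * (σ * G * ρ i)) →
        MvPolynomial.eval (fun i => (s i : ℂ) - b i * s₀) D = 0 := by
  obtain ⟨t₀, t, k0, k1, k2⟩ := shift hL
  have k3 : 0 < α₀ ^ t₀ * ∏ i, α i ^ t i :=
    mul_pos (pow_pos h0 _) (prod_pos fun i _ => pow_pos (hi i) _)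
  obtain ⟨D, d0, d1, d2⟩ := hP (Option (Fin r)) (G ^ 2) (Tp G σ h ρ) p
    (fun j i => ((j : ℕ) * t i : ℕ) - b i * ((j : ℕ) * t₀ : ℕ))
    (fun j => (α₀ ^ t₀ * ∏ i, α i ^ t i) ^ (j : ℕ)) hp
    ((pow_right_injective₀ k3 k2).comp Fin.val_injective)
  refine ⟨D, d0, d1, fun s₀ s m0 m1 => ?_⟩
  have := d2 (fun i => (s i : ℝ) - b i * s₀) (α₀ ^ s₀ * ∏ i, α i ^ s i)
    (mul_pos (pow_pos h0 _) (prod_pos fun i _ => pow_pos (hi i) _)).ne' fun j => by
      have hj := j.2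
      have e := hV (s₀ + j * t₀) (fun i => s i + j * t i)
        (by
          have := Nat.mul_le_mul_left j k0
          rw [show r + 2 = r + 1 + 1 from rfl, Nat.succ_mul]
          omega)
        (fun i => by
          have := Nat.mul_le_mul_left j (k1 i)
          have := m1 i
          have := g1 i
          rw [show r + 2 = r + 1 + 1 from rfl, Nat.succ_mul]
          omega)
      refine (sum_congr rfl fun m _ => ?_).trans e
      congr 3
      · funext i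
        congr 1
        push_cast
        ring
      · simp only [pow_add, prod_mul_distrib, mul_pow, ← prod_pow, ← pow_mul, mul_comm t₀,
          mul_comm (t _)]
        ring
  simpa using this

/-- the zero estimate on the grid -/
theorem ze {ι : Type} [Fintype ι] {c : ℕ}
    (hZ : ∀ (D : ι → ℕ) (P : MvPolynomial ι ℂ) (T : Set (ι → ℂ))
      (E : ℕ → Set (ι → ℂ)), (∀ i, 1 ≤ D i) → P ≠ 0 →
      P ∈ Box ℂ (MvPolynomial.X : ι → MvPolynomial ι ℂ) D → 0 ∈ T → 0 ∈ E 0 →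
      (∀ k, ∀ x ∈ E k, ∀ y ∈ T, x + y ∈ E (k + 1)) →
      (∀ x ∈ E (Fintype.card ι), MvPolynomial.eval x P = 0) →
      ∃ W : Submodule ℂ (ι → ℂ), W ≠ ⊤ ∧ ∀ J : Finset ι, Sp W J → Few W T (c * ∏ j ∈ J, D j))
    {D : ι → ℕ} {P : MvPolynomial ι ℂ} {b : ι → ℤ} {S₀ : ℕ} {S : ι → ℕ} (hD : ∀ i, 1 ≤ D i)
    (h0 : P ≠ 0) (h1 : P ∈ Box ℂ (MvPolynomial.X : ι → MvPolynomial ι ℂ) D) (s0 : 0 < S₀)
    (s1 : ∀ i, 0 < S i)
    (h2 : ∀ (s₀ : ℕ) (s : ι → ℕ), s₀ ≤ Fintype.card ι * S₀ → (∀ i, s i ≤ Fintype.card ι * S i) →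
      MvPolynomial.eval (fun i => (s i : ℂ) - b i * s₀) P = 0) :
    ∃ W : Submodule ℂ (ι → ℂ), W ≠ ⊤ ∧
      ∀ J : Finset ι, Sp W J → Few W (Grid b S₀ S) (c * ∏ j ∈ J, D j) := by
  refine hZ D P _ (fun k => {x | ∃ (s₀ : ℕ) (s : ι → ℕ), s₀ ≤ k * S₀ ∧ (∀ i, s i ≤ k * S i) ∧
    x = fun i => (s i : ℂ) - b i * s₀}) hD h0 h1 ⟨0, 0, s0, s1, by ext; simp⟩
    ⟨0, 0, Nat.zero_le _, fun _ => Nat.zero_le _, by ext; simp⟩ ?_ ?_
  · rintro k _ ⟨s₀, s, a0, a1, rfl⟩ _ ⟨t₀, t, b0, b1, rfl⟩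
    refine ⟨s₀ + t₀, s + t, ?_, fun i => ?_, ?_⟩
    · rw [Nat.succ_mul]
      exact add_le_add a0 b0.le
    · rw [Nat.succ_mul]
      exact add_le_add (a1 i) (b1 i).le
    · ext i
      simp only [Pi.add_apply, Nat.cast_add]
      ring
  · rintro _ ⟨s₀, s, a0, a1, rfl⟩
    exact h2 s₀ s a0 a1

end Core

theorem stCore (hA : StAux) (hP : StPol) (hZ : StZE) (hC : StComb) : StCore := by
  intro r
  obtain ⟨a₁, hA⟩ := hA r
  obtain ⟨c, hZ⟩ := hZ (Option (Fin r))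
  obtain ⟨a, ha1, ha2, ha3, ha4⟩ : ∃ a, a₁ ≤ a ∧ c ≤ a ∧ 2 * (r + 1) ≤ a ∧
      (6 * r + 7) * (r + 4) + 2 ≤ a :=
    ⟨a₁ + c + 2 * (r + 1) + ((6 * r + 7) * (r + 4) + 2), by omega, by omega, by omega, by omega⟩
  have ha5 : 6 * r + 12 ≤ a := by nlinarith
  refine ⟨a, fun G h α₀ α ρ b hG H hb hL hs => ?_⟩
  have G2 : 1 < G := by omega
  have G1 : 1 ≤ G := G2.le
  have h1 : 1 ≤ h := (H.rho none).1.trans (H.rho none).2
  have r1 : ∀ i, 1 ≤ ρ i := fun i => (H.rho i).1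
  have pw : ∀ {m n : ℕ}, m ≤ n → G ^ m ≤ G ^ n := fun e => Nat.pow_le_pow_right G1 e
  obtain ⟨σ, hσ⟩ : ∃ σ, σ = G ^ (6 * r + 8) := ⟨_, rfl⟩
  obtain ⟨Q, hQ⟩ : ∃ Q, Q = G ^ (6 * r + 7) := ⟨_, rfl⟩
  have σ1 : 1 ≤ σ := hσ ▸ Nat.one_le_pow _ _ G1
  have Q1 : 1 ≤ Q := hQ ▸ Nat.one_le_pow _ _ G1
  have Qσ : Q < σ := hσ ▸ hQ ▸ Nat.pow_lt_pow_right G2 (by omega)
  have σ2 : G ^ 2 ≤ σ := hσ ▸ pw (by omega)
  have e0 : σ ≤ σ * h := Nat.le_mul_of_pos_right _ h1
  have e1 : ∀ i, σ ≤ σ * G * ρ i := fun i =>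
    (Nat.le_mul_of_pos_right _ G1).trans (Nat.le_mul_of_pos_right _ (r1 i))
  have QG : Q * G ≤ G ^ a := by
    rw [hQ, ← pow_succ]
    exact pw (by omega)
  have Qa : Q ≤ G ^ a := (Nat.le_mul_of_pos_right _ G1).trans QG
  obtain ⟨p, hp, hV⟩ := hA G σ h α₀ α ρ b (ha1.trans hG) σ1 H (hs.trans (by
    have : G ^ 4 * σ ≤ G ^ a := by
      rw [hσ, ← pow_add]
      exact pw (by omega)
    have : ((G : ℝ) ^ 4 * σ) ≤ G ^ a := by exact_mod_cast this
    gcongr))
  obtain ⟨D, d0, d1, d2⟩ := Core.pol hP H.h0.pos (fun i => (H.hi i).pos) hL (σ2.trans e0)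
    (fun i => σ2.trans (e1 i)) hp hV
  obtain ⟨W, w0, w1⟩ := Core.ze hZ (b := b) (S₀ := σ * h) (S := fun i => σ * G * ρ i)
    (fun i => by
      have := r1 i
      refine Nat.mul_pos (by positivity) ?_
      unfold Tp
      split_ifs <;> positivity) d0 d1 (σ1.trans e0) (fun i => σ1.trans (e1 i))
    (by simpa only [Fintype.card_option, Fintype.card_fin] using d2)
  obtain ⟨k, u₀, u, u1, u2, u3, u4, u5, u6⟩ := hC r G Q (σ * h) (fun i => σ * G * ρ i) b W w0 G1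
    Q1 (Qσ.trans_le e0) (fun i => Qσ.trans_le (e1 i))
    (by
      refine le_trans ?_ hb
      have : σ * G * ρ none ≤ G ^ a := by
        rw [H.one, mul_one, hσ, ← pow_succ]
        exact pw (by omega)
      exact_mod_cast this) H.bi
    (fun i => by
      rw [mul_comm σ G, mul_assoc]
      exact Nat.mul_le_mul_left _ (Nat.mul_le_mul_left _ (H.rho i).2))
    fun J hJ A _ q q1 q2 => (w1 J hJ A q q1 q2).trans (by
      refine (Nat.mul_le_mul_left _ (prod_le_prod' fun j _ => Core.deg_le G1 j)).trans ?_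
      rw [prod_mul_distrib, prod_const, ← mul_assoc, ← pow_mul]
      refine Nat.mul_le_mul_right _ ?_
      have : J.card ≤ r + 1 := by simpa using card_le_univ J
      rw [hQ, show 6 * r + 7 = 6 * (r + 1) + 1 by ring, pow_succ']
      exact Nat.mul_le_mul (ha2.trans hG) (pw (by omega)))
  have bd : 2 * ((r : ℤ) + 1) * G * Q ^ (r + 4) ≤ G ^ a := by
    have : 2 * (r + 1) * G * Q ^ (r + 4) ≤ G ^ a := by
      refine le_trans ?_ (pw ha4)
      rw [pow_add G, pow_mul, ← hQ, mul_comm (Q ^ _), sq]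
      exact Nat.mul_le_mul_right _ (Nat.mul_le_mul_right _ (ha3.trans hG))
    exact_mod_cast this
  have cc : ∀ {x y : ℕ}, σ * G * x ≤ Q * (σ * G * y) → x ≤ G ^ a * y := fun {x y} e => by
    rw [mul_left_comm] at e
    exact (Nat.le_of_mul_le_mul_left e (Nat.mul_pos σ1 G1)).trans (Nat.mul_le_mul_right _ Qa)
  refine ⟨k, u₀, u, u1, u2.trans bd, fun i => (u3 i).trans bd, u4, fun e => ?_,
    fun i e => ⟨cc (u6 i e).1, cc (u6 i e).2⟩⟩
  have := u5 e
  rw [mul_assoc σ, mul_left_comm, ← mul_assoc Q] at this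
  exact (Nat.le_of_mul_le_mul_left this σ1).trans (Nat.mul_le_mul_right _ QG)

end Pool.Agent.Lib.MP_4ffbf9_nt.B
end

-- part Pool.Agent.Lib.MP_4ffbf9_nt.B.Ind
section

/-! Elimination of one logarithm, and the induction. -/

set_option autoImplicit false

namespace Pool.Agent.Lib.MP_4ffbf9_nt.B

open Finset

namespace Ind

theorem log_comb {x y : ℝ} (hx : 0 < x) (hy : 0 < y) (m n : ℤ) :
    Real.log (x ^ m * y ^ (-n)) = m * Real.log x - n * Real.log y := by
  rw [Real.log_mul (zpow_pos hx _).ne' (zpow_pos hy _).ne', Real.log_zpow, Real.log_zpow]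
  push_cast
  ring

theorem ht_comb {x y p q E c : ℝ} (hx : Ht x p) (hy : Ht y q) {m n : ℤ} (hm : |(m : ℝ)| ≤ E)
    (hn : |(n : ℝ)| ≤ E) (hc : 0 ≤ c) (h : n ≠ 0 → q ≤ c) :
    Ht (x ^ m * y ^ (-n)) (E * p + E * c) := by
  refine ((hx.zpow m).mul (hy.zpow (-n))).mono (add_le_add
    (mul_le_mul_of_nonneg_right hm hx.nonneg) ?_)
  have hE : 0 ≤ E := (abs_nonneg _).trans hm
  by_cases h0 : n = 0
  · simp [h0, mul_nonneg hE hc]
  · rw [Int.cast_neg, abs_neg]
    exact mul_le_mul hn (h h0) hy.nonneg hE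

theorem lam_eq {r G h : ℕ} {α₀ : ℝ} {α : Option (Fin (r + 1)) → ℝ} {ρ : Option (Fin (r + 1)) → ℕ}
    {b : Option (Fin (r + 1)) → ℤ} (H : Hyp G h α₀ α ρ b) (k : Fin (r + 1)) (u₀ : ℤ)
    (u : Option (Fin (r + 1)) → ℤ) (hu : u₀ + ∑ i, u i * b i = 0) :
    Lam (α₀ ^ u (some k) * α (some k) ^ (-u₀))
      (fun i => α (i.map k.succAbove) ^ u (some k) * α (some k) ^ (-u (i.map k.succAbove)))
      (fun i => b (i.map k.succAbove)) = u (some k) * Lam α₀ α b := by
  have hu' : (u₀ : ℝ) + ∑ i, (u i : ℝ) * b i = 0 := by exact_mod_cast hu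
  simp only [Lam, log_comb H.h0.pos (H.hi _).pos, log_comb (H.hi _).pos (H.hi _).pos,
    Fintype.sum_option, Option.map_none, Option.map_some, Fin.sum_univ_succAbove _ k] at hu' ⊢
  have e : ∑ i : Fin r, (b (some (k.succAbove i)) : ℝ) *
      (u (some k) * Real.log (α (some (k.succAbove i))) -
        u (some (k.succAbove i)) * Real.log (α (some k))) =
      u (some k) * ∑ i : Fin r, (b (some (k.succAbove i)) : ℝ) *
        Real.log (α (some (k.succAbove i))) -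
      (∑ i : Fin r, (u (some (k.succAbove i)) : ℝ) * b (some (k.succAbove i))) *
        Real.log (α (some k)) := by
    rw [mul_sum, sum_mul, ← sum_sub_distrib]
    exact sum_congr rfl fun i _ => by ring
  rw [e]
  linear_combination (-Real.log (α (some k))) * hu'

theorem hyp_step {r G h a : ℕ} {α₀ : ℝ} {α : Option (Fin (r + 1)) → ℝ}
    {ρ : Option (Fin (r + 1)) → ℕ} {b : Option (Fin (r + 1)) → ℤ} (H : Hyp G h α₀ α ρ b)
    (hG : 2 ≤ G) (k : Fin (r + 1)) (u₀ : ℤ) (u : Option (Fin (r + 1)) → ℤ) (h0 : |u₀| ≤ G ^ a)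
    (h1 : ∀ i, |u i| ≤ G ^ a) (h2 : u₀ ≠ 0 → h ≤ G ^ a * ρ (some k))
    (h3 : ∀ i, u (some i) ≠ 0 → ρ (some i) ≤ G ^ a * ρ (some k) ∧ ρ (some k) ≤ G ^ a * ρ (some i)) :
    Hyp (G ^ (3 * a + 3)) (G ^ (2 * a + 1) * h) (α₀ ^ u (some k) * α (some k) ^ (-u₀))
      (fun i => α (i.map k.succAbove) ^ u (some k) * α (some k) ^ (-u (i.map k.succAbove)))
      (fun i => ρ (i.map k.succAbove)) (fun i => b (i.map k.succAbove)) := by
  have hG0 : 0 < G := by omega
  have hGG : G ≤ G ^ (3 * a + 3) := Nat.le_self_pow (by omega) G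
  obtain ⟨E, hE⟩ : ∃ E : ℝ, E = (G : ℝ) ^ a := ⟨_, rfl⟩
  have g2 : (2 : ℝ) ≤ G := by exact_mod_cast hG
  have hE1 : 1 ≤ E := by rw [hE]; exact one_le_pow₀ (by linarith)
  have e1 : ((G ^ (3 * a + 3) : ℕ) : ℝ) = E ^ 3 * G ^ 3 := by rw [hE]; push_cast; ring
  have e2 : ((G ^ (2 * a + 1) * h : ℕ) : ℝ) = E ^ 2 * G * h := by rw [hE]; push_cast; ring
  have c0 : |(u₀ : ℝ)| ≤ E := by rw [hE]; exact_mod_cast h0
  have c1 : ∀ i, |(u i : ℝ)| ≤ E := fun i => by rw [hE]; exact_mod_cast h1 i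
  have r1 : ∀ i, (1 : ℝ) ≤ ρ i := fun i => by exact_mod_cast (H.rho i).1
  have r0 : ∀ i, (0 : ℝ) < ρ i := fun i => by linarith [r1 i]
  have hh : (0 : ℝ) ≤ h := Nat.cast_nonneg h
  have p1 : E ≤ E ^ 2 := by nlinarith
  have p2 : E ^ 2 ≤ E ^ 3 := pow_le_pow_right₀ hE1 (by norm_num)
  have p3 : 2 * (G : ℝ) ≤ G ^ 3 := by
    have a1 : (G : ℝ) ^ 2 ≤ G ^ 3 := pow_le_pow_right₀ (by linarith) (by norm_num)
    nlinarith
  have p4 : 2 * (E ^ 2 * G) ≤ E ^ 3 * G ^ 3 := by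
    have := mul_le_mul p2 p3 (by positivity) (by positivity)
    linarith
  have p5 : E * G ≤ E ^ 2 * G := by gcongr
  refine ⟨?_, fun i => ?_, H.one, fun i => ⟨(H.rho _).1, (H.rho _).2.trans
    (Nat.le_mul_of_pos_left _ (pow_pos hG0 _))⟩, fun i => ?_, ?_, fun i => ?_⟩
  · refine (ht_comb H.h0 (H.hi (some k)) (c1 _) c0 (c := E) (by linarith) fun hn => ?_).mono ?_
    · rw [div_le_iff₀ (r0 _), hE]
      exact_mod_cast h2 hn
    · rw [e1]
      have : E ^ 2 * 1 ≤ E ^ 2 * G := by gcongr; linarith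
      linarith
  · refine (ht_comb (H.hi _) (H.hi (some k)) (c1 _) (c1 _)
      (c := E * (h / ρ (i.map k.succAbove))) (by have := r0 (i.map k.succAbove); positivity)
      fun hn => ?_).mono ?_
    · have a1 : (ρ (i.map k.succAbove) : ℝ) ≤ E * ρ (some k) := by
        cases i with
        | none =>
          rw [Option.map_none, H.one, Nat.cast_one]
          exact one_le_mul_of_one_le_of_one_le hE1 (r1 _)
        | some i => rw [hE]; exact_mod_cast (h3 _ hn).1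
      rw [← mul_div_assoc, div_le_div_iff₀ (r0 _) (r0 _)]
      have := mul_le_mul_of_nonneg_left a1 hh
      linarith
    · rw [e2, mul_div_assoc]
      have a0 : (0 : ℝ) ≤ h / ρ (i.map k.succAbove) := div_nonneg hh (r0 _).le
      have a1 : E + E ^ 2 ≤ E ^ 2 * G := by
        have : E ^ 2 * 2 ≤ E ^ 2 * G := by gcongr
        linarith
      have := mul_le_mul_of_nonneg_right a1 a0
      linarith
  · simp only [Option.map_some]
    rw [log_comb (H.hi _).pos (H.hi _).pos, e1, e2]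
    obtain ⟨j, hj⟩ : ∃ j, j = k.succAbove i := ⟨_, rfl⟩
    rw [← hj]
    have g0 : (0 : ℝ) < G := by linarith
    have e3 : E ^ 2 * G * h / (ρ (some j) * (E ^ 3 * G ^ 3)) = h / (E * ρ (some j) * G * G) := by
      have := r0 (some j)
      field_simp
    rw [e3]
    have key : ∀ i', (ρ (some i') : ℝ) ≤ E * ρ (some j) → |Real.log (α (some i'))| ≤
        G * Real.exp (-(h / (E * ρ (some j) * G * G))) := fun i' hi' => by
      refine (H.cheap i').trans (mul_le_mul_of_nonneg_left (Real.exp_le_exp.2 (neg_le_neg ?_))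
        g0.le)
      refine div_le_div_of_nonneg_left hh (mul_pos (r0 _) g0) ?_
      have a1 := mul_le_mul_of_nonneg_right hi' g0.le
      have a2 : 0 ≤ E * ρ (some j) * G := by have := r0 (some j); positivity
      exact a1.trans (le_mul_of_one_le_right a2 (by linarith))
    obtain ⟨X, hX⟩ : ∃ X, X = Real.exp (-(h / (E * ρ (some j) * G * G))) := ⟨_, rfl⟩
    rw [← hX] at key ⊢
    have hX0 : 0 ≤ X := by rw [hX]; positivity
    have b1 : |(u (some k) : ℝ) * Real.log (α (some j))| ≤ E * (G * X) := by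
      rw [abs_mul]
      exact mul_le_mul (c1 _) (key j (le_mul_of_one_le_left (r0 _).le hE1)) (abs_nonneg _)
        (by linarith)
    have b2 : |(u (some j) : ℝ) * Real.log (α (some k))| ≤ E * (G * X) := by
      by_cases hn : u (some j) = 0
      · rw [hn, Int.cast_zero, zero_mul, abs_zero]
        positivity
      · rw [abs_mul]
        exact mul_le_mul (c1 _) (key k (by rw [hE]; exact_mod_cast (h3 _ hn).2)) (abs_nonneg _)
          (by linarith)
    have b3 := mul_le_mul_of_nonneg_right (show 2 * (E * G) ≤ E ^ 3 * G ^ 3 by linarith) hX0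
    linarith [abs_sub ((u (some k) : ℝ) * Real.log (α (some j)))
      ((u (some j) : ℝ) * Real.log (α (some k)))]
  · exact H.b1.trans (Real.exp_le_exp.2 (by exact_mod_cast hGG))
  · exact (H.bi _).trans (mul_le_mul_of_nonneg_right (by exact_mod_cast hGG) (abs_nonneg _))

end Ind

theorem stB (hC : StCore) : StB := by
  intro r
  induction r with
  | zero =>
    obtain ⟨a, H⟩ := hC 0
    refine ⟨a, fun G h α₀ α ρ b h1 h2 h3 h4 => ?_⟩
    by_contra h5
    obtain ⟨k, -⟩ := H G h α₀ α ρ b h1 h2 h3 h4 (not_lt.1 h5)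
    exact k.elim0
  | succ r ih =>
    obtain ⟨a, H⟩ := hC (r + 1)
    obtain ⟨c, ih⟩ := ih
    obtain ⟨m, hm⟩ : ∃ m, m = 2 * a + 1 + (3 * a + 3) * c := ⟨_, rfl⟩
    refine ⟨m + 1 + c, fun G h α₀ α ρ b h1 h2 h3 h4 => ?_⟩
    by_contra h5
    have h6 := not_lt.1 h5
    have hG : 2 ≤ G := by omega
    have g1 : (1 : ℝ) ≤ G := by exact_mod_cast (by omega : 1 ≤ G)
    have g2 : (2 : ℝ) ≤ G := by exact_mod_cast hG
    have gz : (1 : ℤ) ≤ G := by exact_mod_cast (by omega : 1 ≤ G)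
    have hh : (1 : ℝ) ≤ h := by exact_mod_cast (h2.rho none).1.trans (h2.rho none).2
    obtain ⟨k, u₀, u, a1, a2, a3, a4, a5, a6⟩ := H G h α₀ α ρ b (by omega) h2
      ((pow_le_pow_right₀ gz (by omega)).trans h3) h4
      (h6.trans (Real.exp_le_exp.2 (neg_le_neg (mul_le_mul_of_nonneg_left
        (pow_le_pow_right₀ g1 (by omega)) (by linarith)))))
    have hL := Ind.lam_eq h2 k u₀ u a4
    have b1 := ih _ _ _ _ _ _ (le_trans (by omega) (Nat.le_self_pow (by omega) G))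
      (Ind.hyp_step h2 hG k u₀ u a2 a3 a5 a6)
      (by
        refine le_trans ?_ h3
        rw [Nat.cast_pow, ← pow_mul]
        exact pow_le_pow_right₀ gz (by omega))
      (by rw [hL]; exact mul_ne_zero (by exact_mod_cast a1) h4)
    have e : ((G ^ (2 * a + 1) * h : ℕ) : ℝ) * ((G ^ (3 * a + 3) : ℕ) : ℝ) ^ c = h * G ^ m := by
      rw [hm]; push_cast; ring
    rw [hL, e, abs_mul] at b1
    have b2 : |(u (some k) : ℝ)| ≤ Real.exp (G ^ m) := by
      have c1 : |(u (some k) : ℝ)| ≤ G ^ a := by exact_mod_cast a3 (some k)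
      have c2 : (G : ℝ) ^ a ≤ G ^ m := pow_le_pow_right₀ g1 (by omega)
      linarith [Real.add_one_le_exp ((G : ℝ) ^ m)]
    have b3 := b1.trans_le (mul_le_mul b2 h6 (abs_nonneg _) (Real.exp_pos _).le)
    rw [← Real.exp_add, Real.exp_lt_exp] at b3
    have b4 : (G : ℝ) ^ m * 2 ≤ G ^ (m + 1 + c) :=
      le_trans (by rw [pow_succ]; gcongr) (pow_le_pow_right₀ g1 (Nat.le_add_right _ c))
    have b5 := mul_le_mul_of_nonneg_left b4 (show (0 : ℝ) ≤ h by linarith)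
    have b6 := mul_le_mul_of_nonneg_right hh (show (0 : ℝ) ≤ G ^ m by positivity)
    linarith

end Pool.Agent.Lib.MP_4ffbf9_nt.B
end

-- part Pool.Agent.Lib.MP_4ffbf9_nt.B.Gap
section

/-! The gap between two products. -/

set_option autoImplicit false

namespace Pool.Agent.Lib.MP_4ffbf9_nt.B

open Finset

namespace Gp

/-- The product is a `g`-th power up to ratios of the factors. -/
theorem dec {R : ℕ} {M θ : ℝ} {g x : ℕ} {v a : Fin R → ℕ} (h : Pr M θ g x v a) :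
    ∃ U : ℕ, 0 < U ∧ 1 ≤ ∏ i, v i ^ a i ∧
      Real.log ((∏ i, v i ^ a i : ℕ) : ℝ) =
        g * Real.log U + ∑ i, ((a i % g : ℕ) : ℝ) * Real.log ((v i : ℝ) / x) ∧
      g * Real.log U ≤ Real.log ((∏ i, v i ^ a i : ℕ) : ℝ) ∧
      g * Real.log x ≤ Real.log ((∏ i, v i ^ a i : ℕ) : ℝ) := by
  obtain ⟨hx, hv, hd⟩ := h
  have hv0 : ∀ i, 0 < v i := fun i => hx.trans_le (hv i).1
  have hx' : (0 : ℝ) < x := by exact_mod_cast hx
  have hv' : ∀ i, (0 : ℝ) < v i := fun i => by exact_mod_cast hv0 i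
  have hlx : 0 ≤ Real.log x := Real.log_natCast_nonneg x
  have hle : ∀ i, Real.log x ≤ Real.log (v i) := fun i =>
    Real.log_le_log hx' (by exact_mod_cast (hv i).1)
  have hX : Real.log ((∏ i, v i ^ a i : ℕ) : ℝ) = ∑ i, (a i : ℝ) * Real.log (v i) := by
    push_cast
    rw [Real.log_prod (fun i _ => (pow_pos (hv' i) _).ne')]
    exact sum_congr rfl fun i _ => Real.log_pow _ _
  obtain ⟨k, hk⟩ : ∃ k : ℕ, (∑ i, ((a i % g : ℕ) : ℝ)) * Real.log x = g * (k * Real.log x) := by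
    rcases hd with h1 | ⟨h1, -⟩
    · exact ⟨0, by simp [h1]⟩
    · have h2 : ∑ i, a i = g * ∑ i, a i / g + ∑ i, a i % g := by
        rw [mul_sum, ← sum_add_distrib]
        exact sum_congr rfl fun i _ => (Nat.div_add_mod _ _).symm
      rw [h2] at h1
      obtain ⟨k, hk⟩ := (Nat.dvd_add_right (dvd_mul_right _ _)).mp h1
      refine ⟨k, ?_⟩
      rw [← Nat.cast_sum, hk]
      push_cast
      ring
  have hU : Real.log ((x ^ k * ∏ i, v i ^ (a i / g) : ℕ) : ℝ) =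
      k * Real.log x + ∑ i, ((a i / g : ℕ) : ℝ) * Real.log (v i) := by
    rw [Nat.cast_mul, Nat.cast_pow, Nat.cast_prod,
      Real.log_mul (pow_pos hx' _).ne' (prod_ne_zero_iff.mpr fun i _ => by
        exact_mod_cast (pow_pos (hv0 i) _).ne'), Real.log_pow,
      Real.log_prod (fun i _ => by exact_mod_cast (pow_pos (hv0 i) _).ne')]
    congr 1
    exact sum_congr rfl fun i _ => by rw [Nat.cast_pow, Real.log_pow]
  have hE : Real.log ((∏ i, v i ^ a i : ℕ) : ℝ) =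
      g * Real.log ((x ^ k * ∏ i, v i ^ (a i / g) : ℕ) : ℝ) +
        ∑ i, ((a i % g : ℕ) : ℝ) * Real.log ((v i : ℝ) / x) := by
    have e1 : ∑ i, ((a i % g : ℕ) : ℝ) * Real.log ((v i : ℝ) / x) =
        ∑ i, ((a i % g : ℕ) : ℝ) * Real.log (v i) - (∑ i, ((a i % g : ℕ) : ℝ)) * Real.log x := by
      rw [sum_mul, ← sum_sub_distrib]
      exact sum_congr rfl fun i _ => by rw [Real.log_div (hv' i).ne' hx'.ne', mul_sub]
    have e2 : ∑ i, (a i : ℝ) * Real.log (v i) = g * ∑ i, ((a i / g : ℕ) : ℝ) * Real.log (v i) +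
        ∑ i, ((a i % g : ℕ) : ℝ) * Real.log (v i) := by
      rw [mul_sum, ← sum_add_distrib]
      refine sum_congr rfl fun i _ => ?_
      have : (a i : ℝ) = g * ((a i / g : ℕ) : ℝ) + ((a i % g : ℕ) : ℝ) := by
        exact_mod_cast (Nat.div_add_mod _ _).symm
      rw [← mul_assoc, ← add_mul, ← this]
    rw [hX, hU, e1, e2, hk]
    ring
  refine ⟨x ^ k * ∏ i, v i ^ (a i / g), Nat.mul_pos (pow_pos hx _) (prod_pos fun i _ =>
    pow_pos (hv0 i) _), prod_pos fun i _ => pow_pos (hv0 i) _, hE, ?_, ?_⟩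
  · rw [hE]
    refine le_add_of_nonneg_right (sum_nonneg fun i _ => mul_nonneg (Nat.cast_nonneg _) ?_)
    rw [Real.log_div (hv' i).ne' hx'.ne']
    exact sub_nonneg.mpr (hle i)
  · rcases hd with h1 | ⟨h1, h2⟩
    · rw [h1, Nat.cast_one, Real.log_one, mul_zero]
      exact Real.log_natCast_nonneg _
    · have h3 : (g : ℝ) ≤ ∑ i, (a i : ℝ) := by exact_mod_cast Nat.le_of_dvd h2 h1
      rw [hX]
      refine (mul_le_mul_of_nonneg_right h3 hlx).trans ?_
      rw [sum_mul]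
      exact sum_le_sum fun i _ => mul_le_mul_of_nonneg_left (hle i) (Nat.cast_nonneg _)

/-- The ratio of two close integers has a small logarithm. -/
theorem side {M θ c : ℝ} {x y h G : ℕ} (hθ : θ < 1) (hx : 0 < x) (hxy : x ≤ y)
    (hy : (y : ℝ) ≤ x + M * (x : ℝ) ^ θ) (hc : c = 1 + Real.log (1 + |M|))
    (hh : c + Real.log x ≤ h) (g1 : 2 ≤ (1 - θ) * G) (g2 : 2 * c ≤ G) (g3 : 3 * |M| ≤ G) :
    Ht ((y : ℝ) / x) (h / ⌊(h : ℝ) / (c + Real.log x)⌋₊) ∧
      (1 ≤ ⌊(h : ℝ) / (c + Real.log x)⌋₊ ∧ ⌊(h : ℝ) / (c + Real.log x)⌋₊ ≤ h) ∧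
      |Real.log ((y : ℝ) / x)| ≤
        G * Real.exp (-(h / (⌊(h : ℝ) / (c + Real.log x)⌋₊ * G))) := by
  have hx' : (1 : ℝ) ≤ x := by exact_mod_cast hx
  have hxy' : (x : ℝ) ≤ y := by exact_mod_cast hxy
  have hM := abs_nonneg M
  have hlx : 0 ≤ Real.log x := Real.log_natCast_nonneg x
  have hlM : 0 ≤ Real.log (1 + |M|) := Real.log_nonneg (by linarith)
  have hH : 1 ≤ c + Real.log x := by linarith
  set H := c + Real.log x with hHd
  have h1 : 1 ≤ (h : ℝ) / H := (one_le_div (by linarith)).mpr hh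
  have hh0 : (0 : ℝ) ≤ h := Nat.cast_nonneg _
  set ρ := ⌊(h : ℝ) / H⌋₊ with hρ
  have r1 : 1 ≤ ρ := Nat.le_floor (by exact_mod_cast h1)
  have r1' : (1 : ℝ) ≤ ρ := by exact_mod_cast r1
  have r2 : (ρ : ℝ) ≤ h / H := Nat.floor_le (by linarith)
  have r3 : (h : ℝ) / H < ρ + 1 := Nat.lt_floor_add_one _
  have r4 : H ≤ h / ρ := by
    rw [le_div_iff₀ (by linarith)]
    rw [le_div_iff₀ (by linarith)] at r2
    linarith
  have r5 : (h : ℝ) / ρ ≤ 2 * H := by
    rw [div_le_iff₀ (by linarith)]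
    rw [div_lt_iff₀ (by linarith)] at r3
    nlinarith
  have hp : (x : ℝ) ^ θ ≤ x := by
    simpa using Real.rpow_le_rpow_of_exponent_le hx' hθ.le
  have hp0 : 0 ≤ (x : ℝ) ^ θ := by positivity
  have hy1 : (y : ℝ) ≤ x + |M| * (x : ℝ) ^ θ :=
    hy.trans (add_le_add_right (mul_le_mul_of_nonneg_right (le_abs_self M) hp0) _)
  have hy2 : (y : ℝ) ≤ Real.exp (h / ρ) := by
    refine le_trans ?_ (Real.exp_le_exp.mpr (r4.trans' (by linarith :
      Real.log (1 + |M|) + Real.log x ≤ H)))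
    rw [Real.exp_add, Real.exp_log (by linarith), Real.exp_log (by linarith)]
    nlinarith [mul_le_mul_of_nonneg_left hp hM]
  refine ⟨⟨y, x, hx.trans_le hxy, hx, hy2, hxy'.trans hy2, rfl⟩, ⟨r1, ?_⟩, ?_⟩
  · exact_mod_cast r2.trans (div_le_self hh0 hH)
  · have hG : (0 : ℝ) < G := by linarith
    have l0 : 0 ≤ Real.log ((y : ℝ) / x) := Real.log_nonneg ((one_le_div (by linarith)).mpr hxy')
    have l1 : Real.log ((y : ℝ) / x) ≤ |M| * Real.exp (-((1 - θ) * Real.log x)) := by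
      refine (Real.log_le_sub_one_of_pos (div_pos (by linarith) (by linarith))).trans ?_
      have e : Real.exp (-((1 - θ) * Real.log x)) = (x : ℝ) ^ θ / x := by
        rw [Real.rpow_def_of_pos (by linarith), eq_div_iff (by linarith)]
        conv_lhs => rw [← Real.exp_log (by linarith : (0 : ℝ) < x)]
        rw [← Real.exp_add, Real.log_exp]
        congr 1
        ring
      rw [e, ← mul_div_assoc, sub_le_iff_le_add, div_add_one (by linarith)]
      exact div_le_div_of_nonneg_right (by linarith) (by linarith)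
    have l2 : (h : ℝ) / (ρ * G) ≤ 1 + (1 - θ) * Real.log x := by
      rw [← div_div, div_le_iff₀ hG]
      nlinarith [mul_le_mul_of_nonneg_right g1 hlx]
    have l3 : Real.exp (-1) * Real.exp (-((1 - θ) * Real.log x)) ≤ Real.exp (-(h / (ρ * G))) := by
      rw [← Real.exp_add]
      exact Real.exp_le_exp.mpr (by linarith)
    have l4 : |M| ≤ G * Real.exp (-1) := by
      have := Real.exp_neg_one_gt_d9
      nlinarith
    rw [abs_of_nonneg l0]
    refine l1.trans ((mul_le_mul_of_nonneg_right l4 (Real.exp_pos _).le).trans ?_)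
    rw [mul_assoc]
    exact mul_le_mul_of_nonneg_left l3 hG.le

theorem abs_log_le {t : ℝ} (h : |t - 1| ≤ 1 / 2) : |Real.log t| ≤ 2 * |t - 1| := by
  have h1 := abs_le.mp h
  have ht : 0 < t := by linarith
  have h2 := Real.log_le_sub_one_of_pos ht
  have h3 := Real.one_sub_inv_le_log_of_pos ht
  have h4 : -(2 * |t - 1|) ≤ 1 - t⁻¹ := by
    have e : 1 - t⁻¹ = (t - 1) / t := by field_simp
    rw [e, le_div_iff₀ ht]
    nlinarith [neg_abs_le (t - 1), abs_nonneg (t - 1)]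
  exact abs_le.mpr ⟨by linarith, by linarith [le_abs_self (t - 1), abs_nonneg (t - 1)]⟩

end Gp

theorem stGap (hB : StB) : StGap := by
  intro R M θ hθ
  obtain ⟨e, he⟩ := hB (R + R)
  obtain ⟨cM, hc⟩ : ∃ c : ℝ, c = 1 + Real.log (1 + |M|) := ⟨_, rfl⟩
  have hM := abs_nonneg M
  have hc1 : 1 ≤ cM := by linarith [Real.log_nonneg (by linarith : 1 ≤ 1 + |M|)]
  have hθ' : 0 < 1 - θ := by linarith
  obtain ⟨K, hK⟩ := exists_nat_ge (e + 2 / (1 - θ) + 2 * cM + 3 * |M|)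
  have hq : 0 ≤ 2 / (1 - θ) := by positivity
  have he0 : (0 : ℝ) ≤ e := Nat.cast_nonneg _
  obtain ⟨κ, hκ⟩ := exists_nat_ge ((cM + 2) * ((K : ℝ) + 2) ^ e + 1 + (e + 1))
  have hKe : (1 : ℝ) ≤ ((K : ℝ) + 2) ^ e := one_le_pow₀ (by linarith)
  have hκ1 : e + 1 ≤ κ := by
    have : ((e + 1 : ℕ) : ℝ) ≤ κ := by
      have := mul_nonneg (by linarith : 0 ≤ cM + 2) (by linarith : 0 ≤ ((K : ℝ) + 2) ^ e)
      push_cast
      linarith
    exact_mod_cast this
  refine ⟨κ, fun A C g x z X Z v a w c hA hC hg px pz hX hZ hne => ?_⟩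
  obtain ⟨U, hU, hX1, eX, hUX, hxX⟩ := Gp.dec px
  obtain ⟨V, hV, hZ1, eZ, hVZ, hzZ⟩ := Gp.dec pz
  rw [← hX] at hX1 eX hUX hxX
  rw [← hZ] at hZ1 eZ hVZ hzZ
  have hA' : (1 : ℝ) ≤ A := by exact_mod_cast hA
  have hC' : (1 : ℝ) ≤ C := by exact_mod_cast hC
  have hg' : (3 : ℝ) ≤ g := by exact_mod_cast hg
  have hX' : (1 : ℝ) ≤ X := by exact_mod_cast hX1
  have hZ' : (1 : ℝ) ≤ Z := by exact_mod_cast hZ1
  have hAC : (1 : ℝ) ≤ A * C := one_le_mul_of_one_le_of_one_le hA' hC'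
  have hP : (g : ℝ) ≤ g * A * C ∧ (A : ℝ) ≤ g * A * C ∧ 2 * (C : ℝ) ≤ g * A * C := by
    have k1 := mul_le_mul_of_nonneg_left hAC (by linarith : (0 : ℝ) ≤ g)
    have k2 := mul_le_mul_of_nonneg_left
      (one_le_mul_of_one_le_of_one_le (by linarith : (1 : ℝ) ≤ g) hC') (by linarith : (0 : ℝ) ≤ A)
    have k3 := mul_le_mul_of_nonneg_left hA' (by linarith : (0 : ℝ) ≤ g)
    exact ⟨by linarith, by linarith, mul_le_mul_of_nonneg_right (by linarith) (by linarith)⟩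
  set l := Real.log ((g : ℝ) * A * C) with hl
  have hel : Real.exp l = g * A * C := Real.exp_log (by linarith [hP.1])
  have hl1 : 1 ≤ l := by
    rw [hl, Real.le_log_iff_exp_le (by linarith [hP.1])]
    linarith [Real.exp_one_lt_d9, hP.1]
  have hlZ : 0 ≤ Real.log Z := Real.log_natCast_nonneg Z
  have hs : 0 ≤ Real.log Z / g := by positivity
  set G := ⌈l⌉₊ + K with hG
  have hG1 : l + K ≤ G := by
    rw [hG, Nat.cast_add]
    linarith [Nat.le_ceil l]
  have hK0 : (0 : ℝ) ≤ K := Nat.cast_nonneg _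
  have hG2 : (G : ℝ) ≤ (K + 2) * l := by
    rw [hG, Nat.cast_add]
    linarith [Nat.ceil_lt_add_one (by linarith : 0 ≤ l), mul_le_mul_of_nonneg_left hl1 hK0]
  have hG3 : (G : ℝ) ^ e ≤ (K + 2) ^ e * l ^ e := by
    rw [← mul_pow]
    exact pow_le_pow_left₀ (Nat.cast_nonneg _) hG2 e
  have hlk : l ^ (e + 1) ≤ l ^ κ := pow_le_pow_right₀ hl1 hκ1
  have hle : 1 ≤ l ^ e := one_le_pow₀ hl1
  have hmain : (cM + 2) * l * (G : ℝ) ^ e + 1 ≤ κ * l ^ κ := by
    have k1 := mul_le_mul_of_nonneg_left hG3 (by positivity : 0 ≤ (cM + 2) * l)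
    have k2 : 1 ≤ l ^ (e + 1) := one_le_pow₀ hl1
    have k3 : ((cM + 2) * ((K : ℝ) + 2) ^ e + 1) * l ^ (e + 1) ≤ κ * l ^ κ :=
      mul_le_mul (by linarith) hlk (by linarith) (Nat.cast_nonneg _)
    rw [pow_succ] at k2 k3
    linarith
  have hGe : (0 : ℝ) ≤ (G : ℝ) ^ e := by positivity
  have hcl : 1 ≤ (cM + 2) * l := one_le_mul_of_one_le_of_one_le (by linarith) hl1
  have hcG := mul_le_mul_of_nonneg_right hcl hGe
  by_cases t1 : (C : ℝ) * Z / 2 ≤ |(A : ℝ) * X - C * Z|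
  · refine le_trans ?_ t1
    have k1 : Real.exp (-(κ * l ^ κ * (1 + Real.log Z / g))) ≤ Real.exp (-1) :=
      Real.exp_le_exp.mpr (neg_le_neg (one_le_mul_of_one_le_of_one_le (by linarith) (by linarith)))
    have k2 := Real.exp_neg_one_lt_d9
    have k3 := mul_le_mul_of_nonneg_left (k1.trans (by linarith : Real.exp (-1) ≤ 1 / 2))
      (by linarith : (0 : ℝ) ≤ Z)
    linarith [mul_le_mul_of_nonneg_right hC' (by linarith : (0 : ℝ) ≤ Z)]
  by_cases t2 : g < G ^ e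
  · have k1 : (1 : ℝ) ≤ |(A : ℝ) * X - C * Z| := by
      have : (1 : ℤ) ≤ |(A : ℤ) * X - C * Z| :=
        Int.one_le_abs (sub_ne_zero.mpr (by exact_mod_cast hne))
      exact_mod_cast this
    refine le_trans ?_ k1
    have k2 : (g : ℝ) ≤ (G : ℝ) ^ e := by exact_mod_cast t2.le
    have k3 : Real.log Z ≤ κ * l ^ κ * (1 + Real.log Z / g) := by
      have k4 : Real.log Z = g * (Real.log Z / g) := by field_simp
      have k5 := mul_le_mul_of_nonneg_right (by linarith : (g : ℝ) ≤ κ * l ^ κ) hs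
      linarith
    rw [Real.exp_neg, mul_inv_le_iff₀ (Real.exp_pos _), one_mul]
    exact (Real.log_le_iff_le_exp (by linarith)).mp k3
  rw [not_le] at t1
  rw [not_lt] at t2
  have hCZ : (0 : ℝ) < C * Z := by positivity
  have hXZ : Real.log X ≤ Real.log Z + l := by
    have k1 : (X : ℝ) ≤ Z * (g * A * C) := by
      have k2 := (abs_lt.mp t1).2
      linarith [mul_le_mul_of_nonneg_left hP.2.2 (by linarith : (0 : ℝ) ≤ Z),
        mul_le_mul_of_nonneg_right hA' (by linarith : (0 : ℝ) ≤ X)]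
    rw [hl, ← Real.log_mul (by linarith) (by linarith [hP.1])]
    exact Real.log_le_log (by linarith) k1
  set h := ⌈cM + (Real.log Z + l) / g⌉₊ with hh
  have hg0 : (0 : ℝ) < g := by linarith
  have hdiv : ∀ y : ℝ, g * y ≤ Real.log Z + l → cM + y ≤ h := fun y hy =>
    le_trans (add_le_add_right ((le_div_iff₀' hg0).mpr hy) _) (Nat.le_ceil _)
  have h2 : (h : ℝ) ≤ (cM + 2) * l * (1 + Real.log Z / g) := by
    have k1 := Nat.ceil_lt_add_one (by positivity : 0 ≤ cM + (Real.log Z + l) / g)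
    have k2 : l / g ≤ l := div_le_self (by linarith) (by linarith)
    have k3 := mul_le_mul_of_nonneg_right hcl hs
    rw [← hh, add_div] at k1
    linarith [mul_le_mul_of_nonneg_left hl1 (by linarith : 0 ≤ cM + 1)]
  have g1 : 2 ≤ (1 - θ) * G := (div_le_iff₀' hθ').mp (by linarith)
  have sx := fun i => Gp.side (G := G) hθ px.1 (px.2.1 i).1 (px.2.1 i).2 hc
    (hdiv _ (hxX.trans hXZ)) g1 (by linarith) (by linarith)
  have sz := fun i => Gp.side (G := G) hθ pz.1 (pz.2.1 i).1 (pz.2.1 i).2 hc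
    (hdiv _ (by linarith)) g1 (by linarith) (by linarith)
  have hU' : (0 : ℝ) < U := by exact_mod_cast hU
  have hV' : (0 : ℝ) < V := by exact_mod_cast hV
  have hG0 : 1 ≤ G := by
    have : (1 : ℝ) ≤ G := by linarith
    exact_mod_cast this
  have hexp : (g : ℝ) * A * C ≤ Real.exp G := hel ▸ Real.exp_le_exp.mpr (by linarith)
  have hmod : ∀ n : ℕ, |((n % g : ℕ) : ℤ)| ≤ G * |(g : ℤ)| := fun n => by
    rw [Nat.abs_cast, Nat.abs_cast]
    exact_mod_cast (Nat.mod_lt n (by omega)).le.trans (Nat.le_mul_of_pos_left g hG0)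
  let α : Option (Fin (R + R)) → ℝ := fun o => o.elim ((U : ℝ) / V)
    (Fin.addCases (fun i => (v i : ℝ) / x) fun i => (w i : ℝ) / z)
  let ρ : Option (Fin (R + R)) → ℕ := fun o => o.elim 1
    (Fin.addCases (fun _ => ⌊(h : ℝ) / (cM + Real.log x)⌋₊) fun _ => ⌊(h : ℝ) / (cM + Real.log z)⌋₊)
  let b : Option (Fin (R + R)) → ℤ := fun o => o.elim (g : ℤ)
    (Fin.addCases (fun i => ((a i % g : ℕ) : ℤ)) fun i => -((c i % g : ℕ) : ℤ))
  have hall : ∀ p : Option (Fin (R + R)) → Prop, p none → (∀ i, p (some (Fin.castAdd R i))) →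
      (∀ i, p (some (Fin.natAdd R i))) → ∀ o, p o := by
    intro p h0 k1 k2 o
    cases o with
    | none => exact h0
    | some i => exact Fin.addCases k1 k2 i
  have hyp : Hyp G h ((A : ℝ) / C) α ρ b := by
    refine ⟨⟨A, C, hA, hC, hP.2.1.trans hexp, by linarith [hP.2.2], rfl⟩, hall _ ?_ ?_ ?_, rfl,
      hall _ ?_ ?_ ?_, ?_, ?_, hall _ ?_ ?_ ?_⟩
    · refine ⟨U, V, hU, hV, ?_, ?_, rfl⟩
      · refine (Real.log_le_iff_le_exp hU').mp ?_
        have := hdiv _ (hUX.trans hXZ)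
        simp only [ρ, Option.elim, Nat.cast_one, div_one]
        linarith
      · refine (Real.log_le_iff_le_exp hV').mp ?_
        have := hdiv (Real.log V) (by linarith)
        simp only [ρ, Option.elim, Nat.cast_one, div_one]
        linarith
    · intro i
      simpa only [α, ρ, Option.elim, Fin.addCases_left] using (sx i).1
    · intro i
      simpa only [α, ρ, Option.elim, Fin.addCases_right] using (sz i).1
    · have : (1 : ℝ) ≤ h := by linarith [hdiv 0 (by linarith)]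
      exact ⟨le_rfl, by exact_mod_cast this⟩
    · intro i
      simpa only [ρ, Option.elim, Fin.addCases_left] using (sx i).2.1
    · intro i
      simpa only [ρ, Option.elim, Fin.addCases_right] using (sz i).2.1
    · refine Fin.addCases (fun i => ?_) fun i => ?_
      · simpa only [α, ρ, Option.elim, Fin.addCases_left] using (sx i).2.2
      · simpa only [α, ρ, Option.elim, Fin.addCases_right] using (sz i).2.2
    · simp only [b, Option.elim, Int.cast_natCast, Nat.abs_cast]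
      exact hP.1.trans hexp
    · exact le_mul_of_one_le_left (abs_nonneg _) (by exact_mod_cast hG0)
    · intro i
      simpa only [b, Option.elim, Fin.addCases_left] using hmod (a i)
    · intro i
      simpa only [b, Option.elim, Fin.addCases_right, abs_neg] using hmod (c i)
  have hL : Lam ((A : ℝ) / C) α b = Real.log ((A : ℝ) * X / (C * Z)) := by
    rw [Real.log_div (by positivity) hCZ.ne', Real.log_mul (by positivity) (by positivity),
      Real.log_mul (by positivity) (by positivity), eX, eZ]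
    simp only [Lam, Fintype.sum_option, Fin.sum_univ_add, α, b, Option.elim, Fin.addCases_left,
      Fin.addCases_right, Int.cast_natCast, Int.cast_neg, neg_mul, sum_neg_distrib]
    rw [Real.log_div (by positivity) (by positivity), Real.log_div hU'.ne' hV'.ne']
    ring
  have hL0 : Lam ((A : ℝ) / C) α b ≠ 0 := by
    rw [hL]
    refine Real.log_ne_zero_of_pos_of_ne_one (by positivity) fun k => hne ?_
    exact_mod_cast (div_eq_one_iff_eq hCZ.ne').mp k
  have heG : e ≤ G := by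
    have : (e : ℝ) ≤ G := by linarith
    exact_mod_cast this
  have key := he G h _ α ρ b heG hyp (by
    simp only [b, Option.elim, Nat.abs_cast]
    exact_mod_cast t2) hL0
  have e1 : |(A : ℝ) * X / (C * Z) - 1| = |(A : ℝ) * X - C * Z| / (C * Z) := by
    rw [div_sub_one hCZ.ne', abs_div, abs_of_pos hCZ]
  have k1 := Gp.abs_log_le (t := (A : ℝ) * X / (C * Z)) (by
    rw [e1, div_le_iff₀ hCZ]
    linarith)
  rw [← hL, e1] at k1
  have k2 : Real.exp (-(h * (G : ℝ) ^ e)) * (C * Z) ≤ 2 * |(A : ℝ) * X - C * Z| := by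
    rw [← le_div_iff₀ hCZ, mul_div_assoc]
    exact key.le.trans k1
  have k3 : Real.exp (-(κ * l ^ κ * (1 + Real.log Z / g))) ≤
      Real.exp (-1) * Real.exp (-(h * (G : ℝ) ^ e)) := by
    rw [← Real.exp_add]
    refine Real.exp_le_exp.mpr ?_
    have m1 := mul_le_mul_of_nonneg_right h2 hGe
    have m2 := mul_le_mul_of_nonneg_right hmain (by linarith : 0 ≤ 1 + Real.log Z / g)
    linarith
  have k4 := Real.exp_neg_one_lt_d9
  have k5 := Real.exp_pos (-(h * (G : ℝ) ^ e))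
  have k6 : Real.exp (-1) * Real.exp (-(h * (G : ℝ) ^ e)) ≤ 1 / 2 * Real.exp (-(h * (G : ℝ) ^ e)) :=
    mul_le_mul_of_nonneg_right (by linarith) k5.le
  have k7 := mul_le_mul_of_nonneg_left (k3.trans k6) (by linarith : (0 : ℝ) ≤ Z)
  have k8 := mul_le_mul_of_nonneg_left (mul_le_mul_of_nonneg_right hC' (by linarith : (0 : ℝ) ≤ Z))
    k5.le
  linarith

end Pool.Agent.Lib.MP_4ffbf9_nt.B
end
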