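import Pool.Agent.Lib.MP_4ffbf9_nt.B.Shape

import Pool.Agent.Lib.MP_4ffbf9_nt.B.Ana





import Pool.Agent.Lib.MP_4ffbf9_nt.B.Gap




/-! Assembly. -/

set_option autoImplicit false

namespace Pool.Agent.Lib.MP_4ffbf9_nt.B

theorem baker : StB := stB (stCore (stAux stDet stLow stEst) stPol (stZE stBez) stComb)

theorem gap : StGap := stGap baker

end Pool.Agent.Lib.MP_4ffbf9_nt.B
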