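import Mathlib
import Pool.Agent.Lib.MP_4ffbf9_nt.Conic
import Pool.Agent.Lib.MP_4ffbf9_nt.Shape

set_option autoImplicit false

namespace Pool.Agent.Lib.MP_4ffbf9_nt.B.Eq

open Filter Finset Pool.Agent.Lib.MP_4ffbf9_nt

theorem scale_prod {n : ℕ} (o : Fin n → ℕ) (x : ℕ) :
    ∏ i, (((n * x + ∑ j, o j : ℕ) : ℤ) + ((n : ℤ) * o i - ∑ j, (o j : ℤ))) =
      (n : ℤ) ^ n * (∏ i, (x + o i) : ℕ) := by
  rw [Nat.cast_prod, show (n : ℤ) ^ n = ∏ _i : Fin n, (n : ℤ) by simp, ← prod_mul_distrib]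
  exact prod_congr rfl fun i _ => by push_cast; ring

theorem scale_card {n : ℕ} (hn : 0 < n) (o : Fin n → ℕ) :
    (univ.image fun i => (n : ℤ) * o i - ∑ j, (o j : ℤ)).card = (univ.image o).card := by
  rw [← card_image_of_injective (univ.image o) (f := fun a : ℕ => (n : ℤ) * a - ∑ j, (o j : ℤ)),
    image_image]
  · rfl
  · intro a b h
    have h1 : (n : ℤ) * a = n * b := by simpa using h
    exact_mod_cast mul_left_cancel₀ (by exact_mod_cast hn.ne' : (n : ℤ) ≠ 0) h1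

theorem shape_finite {A D n : ℕ} (hA : 0 < A) (hD : 0 < D) (hn : 0 < n) {ε : ℝ} (hε : 0 < ε)
    (o o' : Fin n → ℕ) :
    {q : ℕ × ℕ | A * ∏ i, (q.1 + o i) ≠ D * ∏ i, (q.2 + o' i) ∧ 0 < q.2 ∧
      |(A : ℝ) * (∏ i, (q.1 + o i) : ℕ) - D * (∏ i, (q.2 + o' i) : ℕ)| ≤
        ((∏ i, (q.2 + o' i) : ℕ) : ℝ) ^
          (1 - (((univ.image o).card : ℝ) + (univ.image o').card) / n - ε)}.Finite := by
  have hn' : (0 : ℝ) < n := by exact_mod_cast hn
  refine finite_of_eventually_false (fun b => (fibre_finite (D := D) hA hn o o' (θ := 1 -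
    (((univ.image o).card : ℝ) + (univ.image o').card) / n - ε) ?_ b).subset
      fun q hq => ⟨hq.1.2, hq.2⟩) fun l hl ht => ?_
  · have : 0 ≤ (((univ.image o).card : ℝ) + (univ.image o').card) / n := by positivity
    linarith
  have hw : ∀ z : ℕ, z ≤ n * z + ∑ j, o' j := fun z =>
    (Nat.le_mul_of_pos_left z hn).trans (Nat.le_add_right _ _)
  refine equal_core (u := fun q => ((n * q.1 + ∑ j, o j : ℕ) : ℤ))
    (w := fun q => ((n * q.2 + ∑ j, o' j : ℕ) : ℤ))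
    (tendsto_atTop_mono (fun q => by exact_mod_cast hw q.2) ht)
    (Eventually.of_forall fun q => Int.natCast_nonneg _) hn
    (fun i => (n : ℤ) * o i - ∑ j, (o j : ℤ)) (fun i => (n : ℤ) * o' i - ∑ j, (o' j : ℤ))
    (by simp [mul_sum]) (by simp [mul_sum]) (A := A) (B := D) (by exact_mod_cast hA)
    (by exact_mod_cast hD) (K := (n : ℝ) ^ n) (η := min 1 (n * ε)) (by positivity)
    (min_le_left _ _) ?_
  filter_upwards [hl, ht.eventually_gt_atTop 1] with q ⟨h1, _, h2⟩ h3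
  rw [scale_prod, scale_prod, scale_card hn, scale_card hn]
  have h4 : 1 < q.2 := by exact_mod_cast h3
  constructor
  · intro h
    rw [mul_left_comm, mul_left_comm (D : ℤ)] at h
    exact h1 (by exact_mod_cast mul_left_cancel₀ (by positivity) h)
  set W : ℝ := (((n * q.2 + ∑ j, o' j : ℕ) : ℤ) : ℝ) with hW
  have hW1 : 1 < W := by rw [hW]; exact_mod_cast h4.trans_le (hw q.2)
  have h5 : ((∏ i, (q.2 + o' i) : ℕ) : ℝ) ≤ W ^ n := by
    have : ∏ i, (q.2 + o' i) ≤ (n * q.2 + ∑ j, o' j) ^ n := by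
      refine (prod_le_pow_card _ _ (n * q.2 + ∑ j, o' j) fun i _ => ?_).trans_eq (by simp)
      exact add_le_add (Nat.le_mul_of_pos_left _ hn)
        (single_le_sum (f := o') (fun _ _ => Nat.zero_le _) (mem_univ i))
    rw [hW]; exact_mod_cast this
  have h6 := h2.trans (rpow_le_of_one_le (by exact_mod_cast h4.trans_le (le_prod_add hn _ o')) h5
    (le_trans (by exact_mod_cast one_le_abs_sub h1) h2))
  have h0 : 0 < W := by linarith
  have h7 : ((A * ((n : ℤ) ^ n * (∏ i, (q.1 + o i) : ℕ)) -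
      D * ((n : ℤ) ^ n * (∏ i, (q.2 + o' i) : ℕ)) : ℤ) : ℝ) =
      (n : ℝ) ^ n * ((A : ℝ) * (∏ i, (q.1 + o i) : ℕ) - D * (∏ i, (q.2 + o' i) : ℕ)) := by
    simp only [Int.cast_sub, Int.cast_mul, Int.cast_pow, Int.cast_natCast]; ring
  rw [h7, abs_mul, abs_of_pos (pow_pos hn' n), mul_assoc, mul_assoc]
  refine mul_le_mul_of_nonneg_left ?_ (by positivity)
  refine (mul_le_mul h6 (mul_le_mul_of_nonneg_left (Real.rpow_le_rpow_of_exponent_le hW1.le
    (min_le_right _ _)) (by positivity)) (by positivity) (by positivity)).trans_eq ?_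
  rw [← Real.rpow_natCast W n, ← Real.rpow_mul h0.le, ← Real.rpow_natCast W, ← Real.rpow_add h0,
    ← Real.rpow_add h0]
  congr 1
  push_cast
  field_simp
  ring

/-- Roth-type gap theorem for two products of the same degree and bounded spread; the exponent
involves the numbers of distinct factors. -/
theorem gapEqual :
    ∀ (A C n S : ℕ) (ε : ℝ), 0 < A → 0 < C → 0 < n → 0 < ε →
      {t : ℕ × ℕ | A * t.1 ≠ C * t.2 ∧
        ∃ x z : Fin n → ℕ, (∀ i, 0 < x i) ∧ (∀ i, 0 < z i) ∧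
          (∀ i j, x i ≤ x j + S) ∧ (∀ i j, z i ≤ z j + S) ∧
          (∏ i, x i) = t.1 ∧ (∏ i, z i) = t.2 ∧
          |(A : ℝ) * t.1 - C * t.2| ≤ (t.2 : ℝ) ^
            (1 - (((Finset.univ.image x).card : ℝ) + (Finset.univ.image z).card) / n - ε)}.Finite := by
  intro A D n S ε hA hD hn hε
  refine (Set.finite_iUnion fun o : (Fin n → Fin (S + 1)) × (Fin n → Fin (S + 1)) =>
    (shape_finite hA hD hn hε (fun i => o.1 i) (fun i => o.2 i)).image
      fun q : ℕ × ℕ => (∏ i, (q.1 + (o.1 i : ℕ)), ∏ i, (q.2 + (o.2 i : ℕ)))).subset ?_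
  rintro ⟨X, Z⟩ ⟨hne, x, z, hx, hz, hxS, hzS, hX, hZ, h⟩
  obtain ⟨b, o, -, hxo, hc⟩ := exists_shape hn x hx hxS
  obtain ⟨b', o', hb', hzo, hc'⟩ := exists_shape hn z hz hzS
  have e1 : ∏ i, (b + o i) = X := (prod_congr rfl fun i _ => (hxo i).symm).trans hX
  have e2 : ∏ i, (b' + o' i) = Z := (prod_congr rfl fun i _ => (hzo i).symm).trans hZ
  refine Set.mem_iUnion.2 ⟨(o, o'), (b, b'), ?_, Prod.ext e1 e2⟩
  simp only [Set.mem_ofPred_eq, e1, e2, ← hc, ← hc']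
  exact ⟨hne, hb', h⟩

end Pool.Agent.Lib.MP_4ffbf9_nt.B.Eq
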