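import Mathlib

-- part Pool.Agent.Lib.MP_4ffbf9_nt.B.Defs
section

/-!
Definitions and statements for a lower bound for linear forms in logarithms of rational numbers
with several scales.
-/

set_option autoImplicit false

namespace Pool.Agent.Lib.MP_4ffbf9_nt.B

open Finset

/-- a positive rational number of logarithmic height at most `h` -/
def Ht (α h : ℝ) : Prop :=
  ∃ p q : ℕ, 0 < p ∧ 0 < q ∧ (p : ℝ) ≤ Real.exp h ∧ (q : ℝ) ≤ Real.exp h ∧ α = p / q

/-- the span of the monomials in `x` with exponents at most `d` -/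
def Box (K : Type) {S ι : Type} [Field K] [CommRing S] [Algebra K S] [Fintype ι] (x : ι → S)
    (d : ι → ℕ) : Submodule K S :=
  Submodule.span K {y | ∃ a : ι → ℕ, (∀ i, a i ≤ d i) ∧ y = ∏ i, x i ^ a i}

/-- the binomial polynomial -/
noncomputable def bin (z : ℝ) (τ : ℕ) : ℝ := (∏ j ∈ range τ, (z - j)) / τ.factorial

/-- the truncated exponential series -/
noncomputable def tex (k : ℕ) (y : ℝ) : ℝ := ∑ j ∈ range k, y ^ j / j.factorial

/-- the hypotheses on the numbers: `α₀` has height `G`, `α i` has height `h / ρ i`, the logarithms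
with index `some i` are small -/
structure Hyp {r : ℕ} (G h : ℕ) (α₀ : ℝ) (α : Option (Fin r) → ℝ) (ρ : Option (Fin r) → ℕ)
    (b : Option (Fin r) → ℤ) : Prop where
  h0 : Ht α₀ G
  hi : ∀ i, Ht (α i) (h / ρ i)
  one : ρ none = 1
  rho : ∀ i, 1 ≤ ρ i ∧ ρ i ≤ h
  cheap : ∀ i, |Real.log (α (some i))| ≤ G * Real.exp (-(h / (ρ (some i) * G)))
  b1 : (|b none| : ℝ) ≤ Real.exp G
  bi : ∀ i, |b i| ≤ G * |b none|

/-- the linear form -/
noncomputable def Lam {r : ℕ} (α₀ : ℝ) (α : Option (Fin r) → ℝ) (b : Option (Fin r) → ℤ) : ℝ :=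
  Real.log α₀ + ∑ i, b i * Real.log (α i)

/-- the variables with a small logarithm at the scale of the construction -/
def Ch {r : ℕ} (G h : ℕ) (ρ : Option (Fin r) → ℕ) : Finset (Option (Fin r)) :=
  univ.filter fun i => i ≠ none ∧ G ^ 3 * ρ i ≤ h

/-- the degrees of the binomial polynomials -/
def Tp {r : ℕ} (G σ h : ℕ) (ρ : Option (Fin r) → ℕ) (i : Option (Fin r)) : ℕ :=
  if i ∈ Ch G h ρ then G ^ 4 * σ * ρ i else G ^ 2 * σ * h

/-- the points -/
def Grid {ι : Type} (b : ι → ℤ) (S₀ : ℕ) (S : ι → ℕ) : Set (ι → ℂ) :=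
  {x | ∃ (s₀ : ℕ) (s : ι → ℕ), s₀ < S₀ ∧ (∀ i, s i < S i) ∧ x = fun i => (s i : ℂ) - b i * s₀}

/-- the coordinates in `J` span the quotient by `W` -/
def Sp {ι : Type} (W : Submodule ℂ (ι → ℂ)) (J : Finset ι) : Prop :=
  ∀ v : ι → ℂ, ∃ w ∈ W, ∀ i, i ∉ J → w i = v i

/-- at most `N` points of `T` are pairwise distinct modulo `W` -/
def Few {ι : Type} (W : Submodule ℂ (ι → ℂ)) (T : Set (ι → ℂ)) (N : ℕ) : Prop :=
  ∀ (A : Type) [Fintype A] (p : A → ι → ℂ), (∀ a, p a ∈ T) → (∀ a a', p a - p a' ∈ W → a = a') →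
    Fintype.card A ≤ N

/-! ### Statements -/

/-- weighted Bezout bound -/
def StBez : Prop :=
  ∀ (ι : Type) [Fintype ι], ∃ c : ℕ, ∀ (D : ι → ℕ) (F : Set (MvPolynomial ι ℂ)) (J : Finset ι)
    (s : Finset (Ideal (MvPolynomial ι ℂ))), (∀ i, 1 ≤ D i) →
    F ⊆ Box ℂ (MvPolynomial.X : ι → MvPolynomial ι ℂ) D →
    (∀ q ∈ s, q ∈ (Ideal.span F).minimalPrimes ∧
      AlgebraicIndependent ℂ fun i : {i // i ∉ J} => Ideal.Quotient.mk q (MvPolynomial.X i.1)) →
    s.card ≤ c * ∏ j ∈ J, D j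

/-- the zero estimate on a power of the additive group -/
def StZE : Prop :=
  ∀ (ι : Type) [Fintype ι], ∃ c : ℕ, ∀ (D : ι → ℕ) (P : MvPolynomial ι ℂ) (T : Set (ι → ℂ))
    (E : ℕ → Set (ι → ℂ)), (∀ i, 1 ≤ D i) → P ≠ 0 →
    P ∈ Box ℂ (MvPolynomial.X : ι → MvPolynomial ι ℂ) D → 0 ∈ T → 0 ∈ E 0 →
    (∀ k, ∀ x ∈ E k, ∀ y ∈ T, x + y ∈ E (k + 1)) →
    (∀ x ∈ E (Fintype.card ι), MvPolynomial.eval x P = 0) →
    ∃ W : Submodule ℂ (ι → ℂ), W ≠ ⊤ ∧ ∀ J : Finset ι, Sp W J → Few W T (c * ∏ j ∈ J, D j)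

/-- few points modulo a proper subspace give a small integral relation -/
def StComb : Prop :=
  ∀ (r G Q S₀ : ℕ) (S : Option (Fin r) → ℕ) (b : Option (Fin r) → ℤ)
    (W : Submodule ℂ (Option (Fin r) → ℂ)), W ≠ ⊤ → 1 ≤ G → 1 ≤ Q → Q < S₀ → (∀ i, Q < S i) →
    (S none : ℤ) ≤ |b none| → (∀ i, |b i| ≤ G * |b none|) → (∀ i, S i ≤ G * S₀) →
    (∀ J : Finset (Option (Fin r)), Sp W J →
      Few W (Grid b S₀ S) (Q * ∏ j ∈ J, if j = none then S₀ else S j)) →
    ∃ (k : Fin r) (u₀ : ℤ) (u : Option (Fin r) → ℤ), u (some k) ≠ 0 ∧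
      |u₀| ≤ 2 * (r + 1) * G * Q ^ (r + 4) ∧ (∀ i, |u i| ≤ 2 * (r + 1) * G * Q ^ (r + 4)) ∧
      u₀ + ∑ i, u i * b i = 0 ∧ (u₀ ≠ 0 → S₀ ≤ Q * S (some k)) ∧
      ∀ i, u (some i) ≠ 0 → S (some i) ≤ Q * S (some k) ∧ S (some k) ≤ Q * S (some i)

/-- an interpolation determinant close to low rank -/
def StDet : Prop :=
  ∀ (R Ω : Type) [Fintype R] [Fintype Ω] [Nonempty R] (f : R → Ω → ℝ) (d : Ω → ℝ)
    (P : Submodule ℝ (Ω → ℝ)) (X Y ε : ℝ), LinearIndependent ℝ f →
    (∀ s, 0 < d s ∧ d s ≤ X) → (∀ i s, ∃ n : ℤ, f i s * d s = n) → 1 ≤ Y → (∀ i s, |f i s| ≤ Y) →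
    2 * Module.finrank ℝ P ≤ Fintype.card R → 0 ≤ ε → ε ≤ 1 →
    (∀ i, ∃ g ∈ P, ∀ s, |f i s - g s| ≤ ε) → 1 ≤ (4 * Fintype.card R * X * Y) ^ 2 * ε

/-- removal of the exponentials -/
def StPol : Prop :=
  ∀ (ι : Type) [Fintype ι] [DecidableEq ι] (L : ℕ) (T : ι → ℕ)
    (p : Fin L × (∀ i, Fin (T i)) → ℝ) (a : Fin L → ι → ℝ) (v : Fin L → ℝ), p ≠ 0 →
    Function.Injective v → ∃ D : MvPolynomial ι ℂ, D ≠ 0 ∧
      D ∈ Box ℂ (MvPolynomial.X : ι → MvPolynomial ι ℂ) (fun i => L * T i) ∧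
      ∀ (x : ι → ℝ) (y : ℝ), y ≠ 0 →
        (∀ j, ∑ m, p m * ((∏ i, bin (x i + a j i) (m.2 i)) * (y * v j) ^ (m.1 : ℕ)) = 0) →
        MvPolynomial.eval (fun i => (x i : ℂ)) D = 0

/-- the space of small dimension that holds the approximations -/
def StLow : Prop :=
  ∀ (ι Ω : Type) [Fintype ι] [DecidableEq ι] (z : ι → Ω → ℝ) (ℓ : ι → ℝ) (C : Finset ι)
    (T k : ι → ℕ) (T₀ k₀ c γ : ℕ), C ≠ univ → (∀ i, 1 ≤ T i) → (∀ i, i ∉ C → T i = T₀) →
    (∀ i ∈ C, k i ≤ c * T i) → 1 ≤ γ → k₀ ≤ c * γ * T₀ →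
    ∃ P : Submodule ℝ (Ω → ℝ),
      Module.finrank ℝ P ≤ γ * (c + Fintype.card ι + 2) ^ Fintype.card ι * ∏ i, T i ∧
      ∀ (t : ℝ) (τ : ι → ℕ), (∀ i, τ i ≤ T i) →
        (fun s => (∏ i, bin (z i s) (τ i)) * (tex k₀ (t * ∑ i ∈ Cᶜ, ℓ i * z i s) *
          ∏ i ∈ C, tex (k i) (t * (ℓ i * z i s)))) ∈ P

/-- elementary estimates -/
def StEst : Prop :=
  (∀ (z : ℤ) (τ : ℕ), ∃ n : ℤ, bin z τ = n) ∧
  (∀ (z β : ℝ) (τ T : ℕ), τ ≤ T → 0 ≤ β → |z| + T ≤ Real.exp β * T →
    |bin z τ| ≤ Real.exp ((β + 1) * T)) ∧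
  (∀ (y μ : ℝ) (k : ℕ), Real.exp 1 * |y| ≤ k * Real.exp (-μ) →
    |Real.exp y - tex k y| ≤ Real.exp (|y| - μ * k)) ∧
  (∀ (y : ℝ) (k : ℕ), |tex k y| ≤ Real.exp |y|) ∧
  (∀ (ι : Type) (s : Finset ι) (a b M : ι → ℝ) (ε : ℝ), 0 ≤ ε → (∀ i ∈ s, 1 ≤ M i) →
    (∀ i ∈ s, |a i| ≤ M i) → (∀ i ∈ s, |b i| ≤ M i) → (∀ i ∈ s, |a i - b i| ≤ ε) →
    |∏ i ∈ s, a i - ∏ i ∈ s, b i| ≤ s.card * ε * ∏ i ∈ s, M i)

/-- the vanishing of the auxiliary function on the large grid -/
def Van {r : ℕ} (G σ h : ℕ) (α₀ : ℝ) (α : Option (Fin r) → ℝ) (ρ : Option (Fin r) → ℕ)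
    (b : Option (Fin r) → ℤ) (p : Fin (G ^ 2) × (∀ i, Fin (Tp G σ h ρ i)) → ℝ) : Prop :=
  ∀ (s₀ : ℕ) (s : Option (Fin r) → ℕ), s₀ < (r + 2) * (σ * h) →
    (∀ i, s i < (r + 2) * (σ * G * ρ i)) →
    ∑ m, p m * ((∏ i, bin ((s i : ℝ) - b i * s₀) (m.2 i)) *
      (α₀ ^ s₀ * ∏ i, α i ^ s i) ^ (m.1 : ℕ)) = 0

/-- the analytic part -/
def StAux : Prop :=
  ∀ r : ℕ, ∃ a : ℕ, ∀ (G σ h : ℕ) (α₀ : ℝ) (α : Option (Fin r) → ℝ) (ρ : Option (Fin r) → ℕ)
    (b : Option (Fin r) → ℤ), a ≤ G → 1 ≤ σ → Hyp G h α₀ α ρ b →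
    |Lam α₀ α b| ≤ Real.exp (-(h * (G ^ 4 * σ))) → ∃ p, p ≠ 0 ∧ Van G σ h α₀ α ρ b p

/-- a very small linear form gives a small relation between the coefficients -/
def StCore : Prop :=
  ∀ r : ℕ, ∃ a : ℕ, ∀ (G h : ℕ) (α₀ : ℝ) (α : Option (Fin r) → ℝ) (ρ : Option (Fin r) → ℕ)
    (b : Option (Fin r) → ℤ), a ≤ G → Hyp G h α₀ α ρ b → (G : ℤ) ^ a ≤ |b none| →
    Lam α₀ α b ≠ 0 → |Lam α₀ α b| ≤ Real.exp (-(h * G ^ a)) →
    ∃ (k : Fin r) (u₀ : ℤ) (u : Option (Fin r) → ℤ), u (some k) ≠ 0 ∧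
      |u₀| ≤ G ^ a ∧ (∀ i, |u i| ≤ G ^ a) ∧ u₀ + ∑ i, u i * b i = 0 ∧
      (u₀ ≠ 0 → h ≤ G ^ a * ρ (some k)) ∧
      ∀ i, u (some i) ≠ 0 → ρ (some i) ≤ G ^ a * ρ (some k) ∧ ρ (some k) ≤ G ^ a * ρ (some i)

/-- the lower bound for the linear form -/
def StB : Prop :=
  ∀ r : ℕ, ∃ a : ℕ, ∀ (G h : ℕ) (α₀ : ℝ) (α : Option (Fin r) → ℝ) (ρ : Option (Fin r) → ℕ)
    (b : Option (Fin r) → ℤ), a ≤ G → Hyp G h α₀ α ρ b → (G : ℤ) ^ a ≤ |b none| →
    Lam α₀ α b ≠ 0 → Real.exp (-(h * G ^ a)) < |Lam α₀ α b|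

/-- a product given by values and multiplicities, prepared for the divisor `g` -/
def Pr {R : ℕ} (M θ : ℝ) (g x : ℕ) (v a : Fin R → ℕ) : Prop :=
  0 < x ∧ (∀ i, x ≤ v i ∧ (v i : ℝ) ≤ x + M * (x : ℝ) ^ θ) ∧
    (x = 1 ∨ (g ∣ ∑ i, a i ∧ 0 < ∑ i, a i))

/-- the gap between two products -/
def StGap : Prop :=
  ∀ (R : ℕ) (M θ : ℝ), θ < 1 → ∃ κ : ℕ, ∀ (A C g x z X Z : ℕ) (v a w c : Fin R → ℕ), 0 < A →
    0 < C → 3 ≤ g → Pr M θ g x v a → Pr M θ g z w c → X = ∏ i, v i ^ a i → Z = ∏ i, w i ^ c i →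
    A * X ≠ C * Z →
    Z * Real.exp (-(κ * Real.log (g * A * C) ^ κ * (1 + Real.log Z / g))) ≤
      |(A : ℝ) * X - C * Z|

/-- values and multiplicities of a product -/
def StShape : Prop :=
  ∀ (R n : ℕ) (M θ : ℝ) (x : Fin n → ℕ), 0 < n → (univ.image x).card ≤ R →
    (∀ i j, (x i : ℝ) ≤ x j + M * (x j : ℝ) ^ θ) → ∃ (i₀ : Fin n) (v a : Fin R → ℕ),
      (∀ j, x i₀ ≤ x j) ∧ (∀ i, x i₀ ≤ v i ∧ (v i : ℝ) ≤ x i₀ + M * (x i₀ : ℝ) ^ θ) ∧
      ∑ i, a i = n ∧ ∏ i, v i ^ a i = ∏ i, x i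

end Pool.Agent.Lib.MP_4ffbf9_nt.B
end

-- part Pool.Agent.Lib.MP_4ffbf9_nt.B.Box
section

/-! Spans of monomials in a box, and heights. -/

set_option autoImplicit false

namespace Pool.Agent.Lib.MP_4ffbf9_nt.B

open Finset

namespace Box

variable {K S ι : Type} [Field K] [CommRing S] [Algebra K S] [Fintype ι] {x : ι → S}
  {d d' : ι → ℕ}

theorem mono (h : ∀ i, d i ≤ d' i) : Box K x d ≤ Box K x d' :=
  Submodule.span_mono fun _ ⟨a, ha, e⟩ => ⟨a, fun i => (ha i).trans (h i), e⟩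

theorem mon_mem {a : ι → ℕ} (h : ∀ i, a i ≤ d i) : ∏ i, x i ^ a i ∈ Box K x d :=
  Submodule.subset_span ⟨a, h, rfl⟩

theorem one_mem : (1 : S) ∈ Box K x d := by
  simpa using mon_mem (K := K) (x := x) (d := d) (a := fun _ => 0) fun i => Nat.zero_le _

theorem algebraMap_mem (c : K) : algebraMap K S c ∈ Box K x d := by
  rw [Algebra.algebraMap_eq_smul_one]
  exact Submodule.smul_mem _ _ one_mem

theorem var_mem {i : ι} (h : 1 ≤ d i) : x i ∈ Box K x d := by
  classical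
  have := mon_mem (K := K) (x := x) (d := d) (a := Pi.single i 1) fun j => by
    by_cases e : j = i
    · subst e; simpa using h
    · simp [e]
  rwa [Finset.prod_eq_single i (fun j _ e => by simp [e]) (by simp), Pi.single_eq_same,
    pow_one] at this

theorem mul_le : Box K x d * Box K x d' ≤ Box K x (d + d') := by
  rw [Box, Box, Submodule.span_mul_span]
  refine Submodule.span_mono ?_
  rintro _ ⟨_, ⟨a, ha, rfl⟩, _, ⟨a', ha', rfl⟩, rfl⟩
  exact ⟨a + a', fun i => add_le_add (ha i) (ha' i), by simp [pow_add, prod_mul_distrib]⟩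

theorem mul_mem {y y' : S} (h : y ∈ Box K x d) (h' : y' ∈ Box K x d') :
    y * y' ∈ Box K x (d + d') := mul_le (Submodule.mul_mem_mul h h')

theorem prod_mem {α : Type*} (s : Finset α) {y : α → S} {e : α → ι → ℕ}
    (h : ∀ j ∈ s, y j ∈ Box K x (e j)) : ∏ j ∈ s, y j ∈ Box K x (∑ j ∈ s, e j) := by
  classical
  induction s using Finset.induction_on with
  | empty => simpa using one_mem
  | insert j s hj ih =>
    rw [prod_insert hj, sum_insert hj]
    exact mul_mem (h j (mem_insert_self _ _)) (ih fun i hi => h i (mem_insert_of_mem hi))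

theorem pow_mem {y : S} (h : y ∈ Box K x d) (n : ℕ) : y ^ n ∈ Box K x (n • d) := by
  simpa using prod_mem (range n) (y := fun _ => y) (e := fun _ => d) fun _ _ => h

theorem pow_le (n : ℕ) : Box K x d ^ n ≤ Box K x (n • d) := by
  induction n with
  | zero => rw [pow_zero, Submodule.one_le]; exact one_mem
  | succ n ih => rw [pow_succ, succ_nsmul]; exact (mul_le_mul_left ih _).trans mul_le

theorem mon_mem_pow (n : ℕ) : ∀ {a : ι → ℕ}, (∀ i, a i ≤ n * d i) →
    ∏ i, x i ^ a i ∈ Box K x d ^ n := by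
  induction n with
  | zero =>
    intro a h
    rw [prod_eq_one fun i _ => by rw [show a i = 0 by simpa using h i, pow_zero], pow_zero]
    exact Submodule.one_le.1 le_rfl
  | succ n ih =>
    intro a h
    have e : ∏ i, x i ^ a i = (∏ i, x i ^ (a i - d i)) * ∏ i, x i ^ min (a i) (d i) := by
      rw [← prod_mul_distrib]
      exact prod_congr rfl fun i _ => by rw [← pow_add]; congr 1; omega
    rw [e, pow_succ]
    refine Submodule.mul_mem_mul (ih fun i => ?_) (mon_mem fun i => min_le_right _ _)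
    have := h i
    rw [Nat.succ_mul] at this
    omega

theorem eq_span [DecidableEq ι] : Box K x d =
    Submodule.span K (Set.range fun a : ∀ i, Fin (d i + 1) => ∏ i, x i ^ (a i : ℕ)) := by
  rw [Box]
  congr 1
  ext y
  exact ⟨fun ⟨a, ha, e⟩ => ⟨fun i => ⟨a i, Nat.lt_succ_of_le (ha i)⟩, e.symm⟩,
    fun ⟨a, e⟩ => ⟨fun i => a i, fun i => Nat.le_of_lt_succ (a i).2, e.symm⟩⟩

theorem fg : (Box K x d).FG := by
  classical
  rw [eq_span]
  exact Submodule.fg_span (Set.finite_range _)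

theorem finrank_le : Module.finrank K (Box K x d) ≤ ∏ i, (d i + 1) := by
  classical
  rw [eq_span]
  exact (finrank_range_le_card _).trans (by simp)

/-- images under a homomorphism -/
theorem map_mem {S' κ : Type} [CommRing S'] [Algebra K S'] [Fintype κ] {y : κ → S'}
    (φ : S →ₐ[K] S') {e : ι → κ → ℕ} (h : ∀ i, φ (x i) ∈ Box K y (e i)) {p : S}
    (hp : p ∈ Box K x d) : φ p ∈ Box K y (∑ i, d i • e i) := by
  induction hp using Submodule.span_induction with
  | mem p hp =>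
    obtain ⟨a, ha, rfl⟩ := hp
    rw [map_prod]
    refine prod_mem _ fun i _ => ?_
    rw [map_pow]
    exact mono (fun j => Nat.mul_le_mul_right _ (ha i)) (pow_mem (h i) _)
  | zero => rw [map_zero]; exact zero_mem _
  | add p q _ _ hp hq => rw [map_add]; exact add_mem hp hq
  | smul c p _ hp => rw [map_smul]; exact Submodule.smul_mem _ _ hp

/-- translations preserve a box -/
theorem shift_mem (a : ι → K) {p : MvPolynomial ι K}
    (hp : p ∈ Box K (MvPolynomial.X : ι → MvPolynomial ι K) d) :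
    MvPolynomial.aeval (fun i => (MvPolynomial.X i + MvPolynomial.C (a i) : MvPolynomial ι K)) p ∈
      Box K (MvPolynomial.X : ι → MvPolynomial ι K) d := by
  classical
  have := map_mem (MvPolynomial.aeval
    fun i => (MvPolynomial.X i + MvPolynomial.C (a i) : MvPolynomial ι K))
    (y := MvPolynomial.X) (e := fun i => Pi.single i 1) (fun i => by
      rw [MvPolynomial.aeval_X]
      exact add_mem (var_mem (by simp)) (algebraMap_mem _)) hp
  refine mono (fun j => ?_) this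
  rw [Finset.sum_apply, Finset.sum_eq_single j (fun i _ e => by simp [Ne.symm e]) (by simp)]
  simp

end Box

namespace Ht

variable {α β h h' : ℝ}

theorem pos (H : Ht α h) : 0 < α := by
  obtain ⟨p, q, hp, hq, -, -, rfl⟩ := H
  positivity

theorem nonneg (H : Ht α h) : 0 ≤ h := by
  obtain ⟨p, q, hp, -, h1, -, -⟩ := H
  exact Real.one_le_exp_iff.1 (le_trans (by exact_mod_cast hp) h1)

theorem mono (H : Ht α h) (hh : h ≤ h') : Ht α h' := by
  obtain ⟨p, q, hp, hq, h1, h2, e⟩ := H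
  exact ⟨p, q, hp, hq, h1.trans (Real.exp_le_exp.2 hh), h2.trans (Real.exp_le_exp.2 hh), e⟩

theorem one : Ht 1 0 := ⟨1, 1, one_pos, one_pos, by simp, by simp, by simp⟩

theorem mul (H : Ht α h) (H' : Ht β h') : Ht (α * β) (h + h') := by
  obtain ⟨p, q, hp, hq, h1, h2, rfl⟩ := H
  obtain ⟨p', q', hp', hq', h1', h2', rfl⟩ := H'
  refine ⟨p * p', q * q', by positivity, by positivity, ?_, ?_, ?_⟩
  · rw [Real.exp_add, Nat.cast_mul]; gcongr
  · rw [Real.exp_add, Nat.cast_mul]; gcongr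
  · push_cast; rw [div_mul_div_comm]

theorem inv (H : Ht α h) : Ht α⁻¹ h := by
  obtain ⟨p, q, hp, hq, h1, h2, rfl⟩ := H
  exact ⟨q, p, hq, hp, h2, h1, inv_div _ _⟩

theorem pow (H : Ht α h) (n : ℕ) : Ht (α ^ n) (n * h) := by
  induction n with
  | zero => simpa using one
  | succ n ih => rw [pow_succ, Nat.cast_succ, add_mul, one_mul]; exact ih.mul H

theorem zpow (H : Ht α h) (n : ℤ) : Ht (α ^ n) (|(n : ℝ)| * h) := by
  obtain ⟨m, rfl | rfl⟩ := n.eq_nat_or_neg
  · simpa using H.pow m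
  · simpa using (H.pow m).inv

theorem abs_log_le (H : Ht α h) : |Real.log α| ≤ h := by
  obtain ⟨p, q, hp, hq, h1, h2, rfl⟩ := H
  have hp' : (0 : ℝ) < p := by exact_mod_cast hp
  have hq' : (0 : ℝ) < q := by exact_mod_cast hq
  have a1 := (Real.log_le_iff_le_exp hp').2 h1
  have a2 := (Real.log_le_iff_le_exp hq').2 h2
  have a3 := Real.log_natCast_nonneg p
  have a4 := Real.log_natCast_nonneg q
  rw [Real.log_div hp'.ne' hq'.ne', abs_le]
  constructor <;> linarith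

end Ht

end Pool.Agent.Lib.MP_4ffbf9_nt.B
end

-- part Pool.Agent.Lib.MP_4ffbf9_nt.B.Bz0
section

/-! Hilbert functions of families of primes (copied from the library of MP_12eca1_ag). -/

set_option autoImplicit false

namespace Pool.Agent.Lib.MP_4ffbf9_nt.B

open MvPolynomial Filter Module

section

open Cardinal

namespace JE

variable {k D : Type} [Field k] [CommRing D] [Algebra k D]

/-- If the kernel of a map from a polynomial ring is generated by a prime element, then all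
variables but one stay independent. -/
lemma principal {s : ℕ} (φ : MvPolynomial (Fin s) k →ₐ[k] D) {π : MvPolynomial (Fin s) k}
    (hπ : Prime π) (h : ∀ p, φ p = 0 → π ∣ p) : (s : Cardinal) ≤ Algebra.trdeg k D + 1 := by
  obtain ⟨i, hi⟩ : π.vars.Nonempty := by
    rw [Finset.nonempty_iff_ne_empty]
    intro e
    have e1 := vars_eq_empty_iff_eq_C.1 e
    have e2 : π.coeff 0 ≠ 0 := fun z => hπ.ne_zero (by rw [e1, z, map_zero])
    exact hπ.not_isUnit (e1 ▸ (isUnit_iff_ne_zero.2 e2).map C)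
  obtain ⟨t, rfl⟩ : ∃ t, s = t + 1 := Nat.exists_eq_succ_of_ne_zero i.pos.ne'
  have ind : AlgebraicIndependent k fun j : Fin t => φ (X (i.succAbove j)) := by
    rw [algebraicIndependent_iff]
    intro p hp
    by_contra p0
    have e : φ (rename i.succAbove p) = 0 := by
      rw [← hp]
      have : φ.comp (rename i.succAbove) = aeval fun j : Fin t => φ (X (i.succAbove j)) :=
        algHom_ext fun j => by simp
      exact DFunLike.congr_fun this p
    obtain ⟨c, hc⟩ := h _ e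
    have r0 : rename i.succAbove p ≠ 0 := fun z =>
      p0 (rename_injective _ Fin.succAbove_right_injective (by rw [z, map_zero]))
    have c0 : c ≠ 0 := fun z => r0 (by rw [hc, z, mul_zero])
    have d0 : degreeOf i (rename i.succAbove p) = 0 := by
      by_contra hn
      obtain ⟨j, -, hj⟩ := mem_vars_rename _ _ (mem_vars_iff_degreeOf_ne_zero.2 hn)
      exact Fin.succAbove_ne i j hj
    rw [hc, degreeOf_mul_eq hπ.ne_zero c0] at d0
    exact mem_vars_iff_degreeOf_ne_zero.1 hi (by omega)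
  have := ind.cardinalMk_le_trdeg
  rw [Cardinal.mk_fin] at this
  rw [Nat.cast_succ]
  exact add_le_add_left this 1

end JE

theorem stE (k A : Type) [Field k] [CommRing A] [IsDomain A] [Algebra k A]
    [Algebra.FiniteType k A] (f : A) (q : Ideal A) (hq : q ∈ (Ideal.span {f}).minimalPrimes) :
    Algebra.trdeg k A ≤ Algebra.trdeg k (A ⧸ q) + 1 := by
  have qp : q.IsPrime := hq.isPrime
  have : IsNoetherianRing A := Algebra.FiniteType.isNoetherianRing k A
  have ht := Ideal.height_le_one_of_isPrincipal_of_mem_minimalPrimes _ q hq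
  obtain ⟨s, g, ginj, gfin⟩ := exists_finite_inj_algHom_of_fg k A
  algebraize [g.toRingHom]
  have : IsScalarTower k (MvPolynomial (Fin s) k) A := IsScalarTower.of_algHom g
  have : FaithfulSMul (MvPolynomial (Fin s) k) A :=
    (faithfulSMul_iff_algebraMap_injective _ _).2 ginj
  have : Module.Finite (MvPolynomial (Fin s) k) A := gfin
  have tA : Algebra.trdeg k A = s := by
    rw [← trdeg_add_eq k (MvPolynomial (Fin s) k) (A := A), trdeg_eq_zero (A := A), add_zero,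
      trdeg_of_isDomain]
    simp
  rw [tA]
  let φ : MvPolynomial (Fin s) k →ₐ[k] A ⧸ q := (Ideal.Quotient.mkₐ k q).comp g
  have hφ : ∀ p, φ p = 0 → p ∈ q.under (MvPolynomial (Fin s) k) := fun p hp =>
    (Ideal.Quotient.eq_zero_iff_mem (I := q) (a := g p)).1 hp
  by_cases h0 : q.under (MvPolynomial (Fin s) k) = ⊥
  · have inj : Function.Injective φ := (injective_iff_map_eq_zero φ).2 fun p hp => by
      have := hφ p hp
      rwa [h0] at this
    have := trdeg_le_of_injective φ inj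
    rw [trdeg_of_isDomain] at this
    exact le_trans (by simpa using this) le_self_add
  obtain ⟨π, π1, π2⟩ :=
    (Ideal.IsPrime.under (MvPolynomial (Fin s) k) q).exists_mem_prime_of_ne_bot h0
  have πp : (Ideal.span {π}).IsPrime := (Ideal.span_singleton_prime π2.ne_zero).2 π2
  have e : Ideal.span {π} = q.under (MvPolynomial (Fin s) k) := by
    by_contra hne
    obtain ⟨q1, h1, h2, h3⟩ := Ideal.exists_ideal_lt_liesOver_of_lt q
      (lt_of_le_of_ne ((Ideal.span_singleton_le_iff_mem _).2 π1) hne)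
    have b1 : (⊥ : Ideal A) < q1 := bot_lt_iff_ne_bot.2 fun z => by
      have m : π ∈ q1.under (MvPolynomial (Fin s) k) := h3.over ▸ Ideal.mem_span_singleton_self π
      rw [z] at m
      exact π2.ne_zero (ginj ((Ideal.mem_bot.1 m).trans (map_zero g).symm))
    have l1 := Ideal.height_strict_mono_of_isPrime b1
    have l2 := (Ideal.height_strict_mono_of_isPrime h1).trans_le ht
    rw [Order.lt_one_iff] at l2
    rw [l2] at l1
    exact not_lt_zero l1
  exact JE.principal φ π2 fun p hp => Ideal.mem_span_singleton.1 (e ▸ hφ p hp)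

end

theorem stLt (k A : Type) [Field k] [CommRing A] [IsDomain A] [Algebra k A] (q : Ideal A) (n : ℕ)
    (hq : q.IsPrime) (hq0 : q ≠ ⊥) (hn : (n : Cardinal) ≤ Algebra.trdeg k (A ⧸ q)) :
    ((n + 1 : ℕ) : Cardinal) ≤ Algebra.trdeg k A := by
  have := hq
  obtain ⟨s, hs⟩ := exists_isTranscendenceBasis k (A ⧸ q)
  rw [← hs.cardinalMk_eq_trdeg, ← Cardinal.mk_fin n] at hn
  obtain ⟨e⟩ := (Cardinal.le_def _ _).1 hn
  have hu : AlgebraicIndependent k fun i : Fin n => (e i : A ⧸ q) := hs.1.comp e e.injective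
  choose v hv using fun i : Fin n => Ideal.Quotient.mk_surjective (e i : A ⧸ q)
  have huv : (fun i : Fin n => (e i : A ⧸ q)) = Ideal.Quotient.mkₐ k q ∘ v :=
    funext fun i => (hv i).symm
  rw [huv] at hu
  have hvi : AlgebraicIndependent k v := hu.of_comp _
  obtain ⟨f, hf, hf0⟩ := Submodule.exists_mem_ne_zero_of_ne_bot hq0
  have ht : Transcendental (Algebra.adjoin k (Set.range v)) f := by
    intro halg
    obtain ⟨⟨c, hc⟩, hcq, hc0⟩ := Submodule.exists_mem_ne_zero_of_ne_bot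
      (Ideal.comap_ne_bot_of_algebraic_mem hf0 hf halg)
    rw [Algebra.adjoin_range_eq_range_aeval] at hc
    obtain ⟨p, rfl⟩ := hc
    have h1 : aeval (Ideal.Quotient.mkₐ k q ∘ v) p = 0 := by
      have h2 : aeval (Ideal.Quotient.mkₐ k q ∘ v) p = Ideal.Quotient.mkₐ k q (aeval v p) :=
        (comp_aeval_apply v (Ideal.Quotient.mkₐ k q) p).symm
      rw [h2]
      exact Ideal.Quotient.eq_zero_iff_mem.2 hcq
    have h3 : p = 0 := hu.eq_zero_of_aeval_eq_zero p h1
    exact hc0 (Subtype.ext (by simp [h3]))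
  have h4 := (AlgebraicIndependent.option_iff.2 ⟨hvi, ht⟩).cardinalMk_le_trdeg
  simpa using h4

namespace JF1

theorem sum_biUnion_le {α β : Type*} [DecidableEq β] (P : Finset α) (M : α → Finset β)
    (g : β → ℕ) : ∑ b ∈ P.biUnion M, g b ≤ ∑ a ∈ P, ∑ b ∈ M a, g b := by
  classical
  induction P using Finset.induction_on with
  | empty => simp
  | insert a P ha ih =>
    rw [Finset.biUnion_insert, Finset.sum_insert ha]
    have := Finset.sum_union_inter (s₁ := M a) (s₂ := P.biUnion M) (f := g)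
    omega

/-- summation of the differences -/
theorem tele (G G' : ℕ → ℕ) (c D : ℕ) (hG : Monotone G) (hD : 1 ≤ D)
    (h : ∀ R R', R + c ≤ R' → G' R + G R' ≤ G (R' + D)) {R : ℕ} (hR : c + D ≤ R) :
    R * G' R ≤ D * G (3 * R) := by
  have h1 : ∀ n, n * G' R ≤ G (R + c + n * D) := by
    intro n
    induction n with
    | zero => simp
    | succ n ih =>
      have := h R (R + c + n * D) (Nat.le_add_right _ _)
      rw [Nat.succ_mul, Nat.succ_mul, ← add_assoc]
      omega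
  have h2 := Nat.div_add_mod R D
  have h3 := Nat.mod_lt R hD
  have h4 : R ≤ D * (R / D + 1) := by rw [mul_add]; omega
  have h5 : R + c + (R / D + 1) * D ≤ 3 * R := by rw [add_mul, mul_comm (R / D)]; omega
  calc R * G' R ≤ D * (R / D + 1) * G' R := Nat.mul_le_mul_right _ h4
    _ = D * ((R / D + 1) * G' R) := mul_assoc _ _ _
    _ ≤ D * G (3 * R) := Nat.mul_le_mul_left _ ((h1 _).trans (hG h5))

end JF1

namespace KBz

variable {S : Type} [CommRing S] [Algebra ℂ S]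

/-- a finite dimensional generating subspace that contains the unit -/
structure Ok (W : Submodule ℂ S) : Prop where
  fg : W.FG
  one : 1 ∈ W
  top : Algebra.adjoin ℂ (W : Set S) = ⊤

/-- the affine Hilbert function -/
noncomputable def H (W : Submodule ℂ S) (I : Ideal S) (R : ℕ) : ℕ :=
  finrank ℂ ((W ^ R).map (Ideal.Quotient.mkₐ ℂ I).toLinearMap)

/-- the dimension of the part of degree at most `R` of an ideal -/
noncomputable def K (W : Submodule ℂ S) (I : Ideal S) (R : ℕ) : ℕ :=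
  finrank ℂ ↥(W ^ R ⊓ I.restrictScalars ℂ)

variable {W : Submodule ℂ S}

theorem Ok.fin (h : Ok W) (R : ℕ) : Module.Finite ℂ ↥(W ^ R) := Module.Finite.of_fg (h.fg.pow R)

theorem Ok.mono (h : Ok W) {R R' : ℕ} (hR : R ≤ R') : W ^ R ≤ W ^ R' :=
  pow_le_pow_right' (Submodule.one_le.2 h.one) hR

theorem Ok.mem (h : Ok W) (x : S) : ∃ c, x ∈ W ^ c := by
  have hx : x ∈ Algebra.adjoin ℂ (W : Set S) := h.top ▸ Algebra.mem_top
  induction hx using Algebra.adjoin_induction with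
  | mem x hx => exact ⟨1, by rwa [pow_one]⟩
  | algebraMap r => exact ⟨0, by rw [pow_zero]; exact Submodule.algebraMap_mem r⟩
  | add x y _ _ hx hy =>
    obtain ⟨a, ha⟩ := hx
    obtain ⟨b, hb⟩ := hy
    exact ⟨a + b, add_mem (h.mono (Nat.le_add_right a b) ha) (h.mono (Nat.le_add_left b a) hb)⟩
  | mul x y _ _ hx hy =>
    obtain ⟨a, ha⟩ := hx
    obtain ⟨b, hb⟩ := hy
    exact ⟨a + b, by rw [pow_add]; exact Submodule.mul_mem_mul ha hb⟩

theorem Ok.finiteType (h : Ok W) : Algebra.FiniteType ℂ S := by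
  obtain ⟨s, hs⟩ := h.fg
  exact ⟨s, by rw [← h.top, ← hs, Algebra.adjoin_span]⟩

theorem Ok.H_add_K (hW : Ok W) (I : Ideal S) (R : ℕ) :
    H W I R + K W I R = finrank ℂ ↥(W ^ R) := by
  have := hW.fin R
  have h := LinearMap.finrank_range_add_finrank_ker
    ((Ideal.Quotient.mkₐ ℂ I).toLinearMap.domRestrict (W ^ R))
  rw [LinearMap.range_domRestrict, LinearMap.ker_domRestrict] at h
  have e : LinearMap.ker (Ideal.Quotient.mkₐ ℂ I).toLinearMap = I.restrictScalars ℂ := by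
    ext p
    simp [Ideal.Quotient.eq_zero_iff_mem]
  rw [← h, H, K, ← Submodule.finrank_map_subtype_eq (W ^ R), Submodule.map_comap_subtype, e]

theorem Ok.H_mono (hW : Ok W) (I : Ideal S) {R R' : ℕ} (h : R ≤ R') : H W I R ≤ H W I R' := by
  have := hW.fin R'
  exact Submodule.finrank_mono (Submodule.map_mono (hW.mono h))

theorem Ok.H_anti (hW : Ok W) {I J : Ideal S} (h : I ≤ J) (R : ℕ) : H W J R ≤ H W I R := by
  have := hW.fin R
  have h1 : K W I R ≤ K W J R := Submodule.finrank_mono (inf_le_inf_left _ fun p hp => h hp)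
  have h2 := hW.H_add_K I R
  have h3 := hW.H_add_K J R
  omega

/-- the lower bound for a prime -/
theorem Ok.le_H (hW : Ok W) {q : Ideal S} (hq : q.IsPrime) {d : ℕ}
    (ht : (d : Cardinal) ≤ Algebra.trdeg ℂ (S ⧸ q)) (r : ℕ) : (r + 1) ^ d ≤ H W q (d * r) := by
  classical
  have := hW.fin (d * r)
  have htop : Algebra.adjoin ℂ (Ideal.Quotient.mkₐ ℂ q '' W) = ⊤ := by
    rw [← AlgHom.map_adjoin, hW.top, Algebra.map_top,
      (AlgHom.range_eq_top _).2 (Ideal.Quotient.mkₐ_surjective ℂ q)]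
  have : Algebra.IsAlgebraic (Algebra.adjoin ℂ (Ideal.Quotient.mkₐ ℂ q '' W)) (S ⧸ q) :=
    ⟨fun a => isAlgebraic_algebraMap
      (⟨a, htop ▸ Algebra.mem_top⟩ : Algebra.adjoin ℂ (Ideal.Quotient.mkₐ ℂ q '' W))⟩
  obtain ⟨t, hts, htb⟩ := exists_isTranscendenceBasis_subset (R := ℂ) (Ideal.Quotient.mkₐ ℂ q '' W)
  rw [← htb.cardinalMk_eq_trdeg, ← Cardinal.mk_fin, Cardinal.le_def] at ht
  obtain ⟨e⟩ := ht
  have hind := htb.1.comp e e.injective
  choose w hw hwe using fun i : Fin d => hts (e i).2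
  let n : (Fin d → Fin (r + 1)) → (Fin d →₀ ℕ) := fun a =>
    Finsupp.equivFunOnFinite.symm fun i => (a i : ℕ)
  have hn : Function.Injective n := fun a b h => funext fun i => Fin.ext (by
    simpa [n] using DFunLike.congr_fun h i)
  have hli : LinearIndependent ℂ fun a =>
      aeval (R := ℂ) (((↑) : t → S ⧸ q) ∘ e) (monomial (n a) 1) :=
    (((basisMonomials (Fin d) ℂ).linearIndependent.comp n hn).map'
      (aeval (((↑) : t → S ⧸ q) ∘ e)).toLinearMap (LinearMap.ker_eq_bot.2 hind))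
  have hmem : ∀ a, aeval (R := ℂ) (((↑) : t → S ⧸ q) ∘ e) (monomial (n a) 1) ∈
      (W ^ (d * r)).map (Ideal.Quotient.mkₐ ℂ q).toLinearMap := by
    intro a
    refine ⟨∏ i, w i ^ (a i : ℕ), ?_, ?_⟩
    · have h1 : ∀ s : Finset (Fin d), ∏ i ∈ s, w i ^ (a i : ℕ) ∈ W ^ (s.card * r) := fun s => by
        induction s using Finset.induction_on with
        | empty => simpa using hW.mono (Nat.zero_le 0) (Submodule.one_le.1 le_rfl)
        | insert i s hi ih =>
          rw [Finset.prod_insert hi, Finset.card_insert_of_notMem hi, Nat.succ_mul, add_comm,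
            pow_add]
          exact Submodule.mul_mem_mul
            (hW.mono (Nat.le_of_lt_succ (a i).2) (Submodule.pow_mem_pow W (hw i) _)) ih
      simpa using h1 Finset.univ
    · rw [aeval_monomial, map_one, one_mul, Finsupp.prod_fintype _ _ (by simp),
        AlgHom.toLinearMap_apply, map_prod]
      exact Finset.prod_congr rfl fun i _ => by rw [map_pow, hwe]; simp [n]
  have hli' : LinearIndependent ℂ fun a => (⟨_, hmem a⟩ :
      (W ^ (d * r)).map (Ideal.Quotient.mkₐ ℂ q).toLinearMap) :=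
    LinearIndependent.of_comp (Submodule.subtype _) hli
  have h := hli'.fintype_card_le_finrank
  rwa [Fintype.card_fun, Fintype.card_fin, Fintype.card_fin] at h

theorem trdeg_step [Algebra.FiniteType ℂ S] {q q' : Ideal S} (hq : q.IsPrime) {f : S}
    (h : q' ∈ (q ⊔ Ideal.span {f}).minimalPrimes) :
    Algebra.trdeg ℂ (S ⧸ q) ≤ Algebra.trdeg ℂ (S ⧸ q') + 1 := by
  have hle : q ≤ q' := le_sup_left.trans h.1.2
  have h1 : q'.map (Ideal.Quotient.mk q) ∈
      (Ideal.span {Ideal.Quotient.mk q f}).minimalPrimes := by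
    rw [← Set.image_singleton, ← Ideal.map_span,
      Ideal.minimalPrimes_map_of_surjective Ideal.Quotient.mk_surjective, Ideal.mk_ker, sup_comm]
    exact ⟨q', h, rfl⟩
  have h2 := stE ℂ (S ⧸ q) (Ideal.Quotient.mk q f) _ h1
  exact h2.trans_eq (congrArg (· + 1) (DoubleQuot.quotQuotEquivQuotOfLEₐ ℂ hle).trdeg_eq)

/-- the invariant of a family of primes at step `j` -/
def Inv (W : Submodule ℂ S) (ρ j : ℕ) (a : ℝ) (P : Finset (Ideal S)) : Prop :=
  (∀ q ∈ P, q.IsPrime ∧ (ρ : Cardinal) ≤ Algebra.trdeg ℂ (S ⧸ q) + j) ∧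
    ∀ᶠ R : ℕ in atTop, ((∑ q ∈ P, H W q R : ℕ) : ℝ) * R ^ j ≤ a * R ^ ρ

variable {ρ j : ℕ} {a : ℝ} {P : Finset (Ideal S)}

theorem Inv.card_mul (hW : Ok W) (h : Inv W ρ j a P) (r R : ℕ) (hR : ρ * r ≤ R) :
    P.card * (r + 1) ^ (ρ - j) ≤ ∑ q ∈ P, H W q R := by
  rw [← smul_eq_mul]
  refine Finset.card_nsmul_le_sum _ _ _ fun q hq => (hW.le_H (h.1 q hq).1 ?_ r).trans
    (hW.H_mono q ((Nat.mul_le_mul_right r (Nat.sub_le ρ j)).trans hR))
  rcases le_total ρ j with h1 | h1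
  · simp [Nat.sub_eq_zero_of_le h1]
  · have h2 := (h.1 q hq).2
    rwa [← Nat.sub_add_cancel h1, Nat.cast_add, Cardinal.add_nat_le_add_nat_iff] at h2

theorem Inv.eq_empty (hW : Ok W) (h : Inv W ρ (ρ + 1) a P) : P = ∅ := by
  obtain ⟨R, h1, h0, ha⟩ := (h.2.and ((eventually_gt_atTop 0).and
    (tendsto_natCast_atTop_atTop.eventually_gt_atTop a))).exists
  have h2 := h.card_mul hW 0 R (by simp)
  rw [zero_add, one_pow, mul_one] at h2
  rw [← Finset.card_eq_zero]
  by_contra hne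
  have h3 : (1 : ℝ) ≤ (∑ q ∈ P, H W q R : ℕ) := by exact_mod_cast (show 1 ≤ _ by omega)
  have h4 : (0 : ℝ) < R ^ ρ := by positivity
  have h5 : (R : ℝ) * R ^ ρ ≤ a * R ^ ρ := by
    refine le_trans ?_ h1
    rw [← pow_succ']
    exact le_mul_of_one_le_left (by positivity) h3
  exact absurd (le_of_mul_le_mul_right h5 h4) (not_le.2 ha)

variable [IsDomain S]

theorem Ok.inv_zero (hW : Ok W) {N : ℝ}
    (hN : ∀ᶠ R : ℕ in atTop, (finrank ℂ ↥(W ^ R) : ℝ) ≤ N * R ^ ρ)
    (ht : (ρ : Cardinal) ≤ Algebra.trdeg ℂ S) : Inv W ρ 0 N {⊥} := by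
  refine ⟨fun q hq => ?_, hN.mono fun R hR => ?_⟩
  · rw [Finset.mem_singleton.1 hq]
    refine ⟨Ideal.isPrime_bot, ?_⟩
    rwa [(AlgEquiv.quotientBot ℂ S).trdeg_eq, Nat.cast_zero, add_zero]
  · have h1 := hW.H_add_K ⊥ R
    rw [Finset.sum_singleton, pow_zero, mul_one]
    exact (Nat.cast_le.2 (by omega)).trans hR

/-- the basic inequality for multiplication by `f` -/
theorem Ok.H_step (hW : Ok W) {I J q : Ideal S} {f : S} {D : ℕ} (hJ : J ≤ I) (hf : f ∈ I)
    (hf0 : f ≠ 0) (hq : ∀ u, f * u ∈ J → u ∈ q) (hD : f ∈ W ^ D) (R : ℕ) :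
    H W I (R + D) + H W q R ≤ H W J (R + D) := by
  have := hW.fin R
  have := hW.fin (R + D)
  let φ : S →ₗ[ℂ] S := LinearMap.mulLeft ℂ f
  have hφ : Function.Injective φ := fun a b h => mul_left_cancel₀ hf0 h
  let A : Submodule ℂ S := W ^ (R + D) ⊓ J.restrictScalars ℂ
  let V : Submodule ℂ S := (W ^ R).map φ
  have hV : finrank ℂ V = finrank ℂ ↥(W ^ R) :=
    (Submodule.equivMapOfInjective φ hφ (W ^ R)).finrank_eq.symm
  have : Module.Finite ℂ A := Submodule.finiteDimensional_inf_left _ _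
  have h1 := Submodule.finrank_sup_add_finrank_inf_eq A V
  have h2 : finrank ℂ ↥(A ⊔ V) ≤ K W I (R + D) := by
    refine Submodule.finrank_mono (sup_le (inf_le_inf_left _ fun p hp => hJ hp) ?_)
    rintro _ ⟨u, hu, rfl⟩
    refine ⟨?_, I.mul_mem_right u hf⟩
    rw [add_comm, pow_add]
    exact Submodule.mul_mem_mul hD hu
  have h3 : finrank ℂ ↥(A ⊓ V) ≤ K W q R := by
    have : Module.Finite ℂ ↥(W ^ R ⊓ q.restrictScalars ℂ) :=
      Submodule.finiteDimensional_inf_left _ _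
    refine le_trans (Submodule.finrank_mono ?_) (Submodule.finrank_map_le φ _)
    rintro _ ⟨hA, u, hu, rfl⟩
    exact ⟨u, ⟨hu, hq u hA.2⟩, rfl⟩
  have h4 := hW.H_add_K I (R + D)
  have h5 := hW.H_add_K J (R + D)
  have h6 := hW.H_add_K q R
  have h7 : finrank ℂ A = K W J (R + D) := rfl
  omega

/-- pairwise incomparable primes -/
theorem Ok.sum_H_le (hW : Ok W) (P : Finset (Ideal S)) (hP : ∀ q ∈ P, q.IsPrime)
    (hI : ∀ q ∈ P, ∀ q' ∈ P, q ≤ q' → q = q') :
    ∃ c, ∀ R, ∑ q ∈ P, H W q R ≤ H W (P.inf id) (R + c) := by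
  classical
  induction P using Finset.induction_on with
  | empty => exact ⟨0, fun R => by simp⟩
  | insert q P hq ih =>
    obtain ⟨c, hc⟩ := ih (fun q' h => hP q' (Finset.mem_insert_of_mem h)) fun a ha b hb =>
      hI a (Finset.mem_insert_of_mem ha) b (Finset.mem_insert_of_mem hb)
    have hqp := hP q (Finset.mem_insert_self _ _)
    have hn : ¬P.inf id ≤ q := by
      rw [hqp.inf_le']
      rintro ⟨q', hq', hle⟩
      exact hq (hI q' (Finset.mem_insert_of_mem hq') q (Finset.mem_insert_self _ _) hle ▸ hq')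
    obtain ⟨h, hh, hhq⟩ := SetLike.not_le_iff_exists.1 hn
    obtain ⟨D, hD⟩ := hW.mem h
    refine ⟨c + D, fun R => ?_⟩
    have h1 := hW.H_step (I := P.inf id) (J := q ⊓ P.inf id) (q := q) inf_le_right hh
      (fun e => hhq (e ▸ q.zero_mem)) (fun u hu => (hqp.mem_or_mem hu.1).resolve_left hhq) hD
      (R + c)
    have h2 := hW.H_mono (P.inf id) (Nat.le_add_right (R + c) D)
    have h3 := hW.H_mono q (Nat.le_add_right R c)
    have h4 := hc R
    rw [Finset.sum_insert hq, Finset.inf_insert, ← add_assoc, id]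
    omega

theorem Inv.step (hW : Ok W) (h : Inv W ρ j a P) (F : Set S) (hF : F ⊆ W) :
    ∃ P' : Finset (Ideal S), Inv W ρ (j + 1) (3 ^ ρ * a) P' ∧
      ∀ q ∈ P, ∀ Q : Ideal S, Q.IsPrime → Ideal.span F ≤ Q → q ≤ Q →
        Ideal.span F ≤ q ∨ ∃ q' ∈ P', q' ≤ Q := by
  classical
  have := hW.finiteType
  have : IsNoetherianRing S := Algebra.FiniteType.isNoetherianRing ℂ S
  have hM : ∀ q ∈ P, ∃ (M : Finset (Ideal S)) (c : ℕ),
      (∀ q' ∈ M, q'.IsPrime ∧ (ρ : Cardinal) ≤ Algebra.trdeg ℂ (S ⧸ q') + (j + 1 : ℕ)) ∧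
      (∀ R R', R + c ≤ R' → ∑ q' ∈ M, H W q' R + H W q R' ≤ H W q (R' + 1)) ∧
      ∀ Q : Ideal S, Q.IsPrime → Ideal.span F ≤ Q → q ≤ Q →
        Ideal.span F ≤ q ∨ ∃ q' ∈ M, q' ≤ Q := by
    intro q hq
    obtain ⟨hqp, hqt⟩ := h.1 q hq
    by_cases hFq : Ideal.span F ≤ q
    · exact ⟨∅, 0, by simp, fun R R' _ => by simpa using hW.H_mono q (Nat.le_add_right R' 1),
        fun Q _ _ _ => Or.inl hFq⟩
    obtain ⟨f, hfF, hfq⟩ : ∃ f ∈ F, f ∉ q := by
      rw [Ideal.span_le] at hFq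
      exact Set.not_subset.1 hFq
    have hfin := (q ⊔ Ideal.span {f}).finite_minimalPrimes_of_isNoetherianRing
    obtain ⟨c, hc⟩ := hW.sum_H_le hfin.toFinset (fun q' hq' => (hfin.mem_toFinset.1 hq').1.1)
      fun a ha b hb hab => le_antisymm hab
        ((hfin.mem_toFinset.1 hb).2 (hfin.mem_toFinset.1 ha).1 hab)
    refine ⟨hfin.toFinset, c, fun q' hq' => ⟨(hfin.mem_toFinset.1 hq').1.1, ?_⟩,
      fun R R' hR => ?_, fun Q hQ hFQ hqQ => Or.inr ?_⟩
    · refine hqt.trans ((add_le_add_left (trdeg_step hqp (hfin.mem_toFinset.1 hq')) _).trans_eq ?_)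
      push_cast
      rw [add_assoc, add_comm 1]
    · have h1 := hW.H_step (I := q ⊔ Ideal.span {f}) (J := q) (q := q) (D := 1) le_sup_left
        (Ideal.mem_sup_right (Ideal.mem_span_singleton_self f)) (fun e => hfq (e ▸ q.zero_mem))
        (fun u hu => (hqp.mem_or_mem hu).resolve_left hfq) (by rw [pow_one]; exact hF hfF) R'
      have h2 : H W (hfin.toFinset.inf id) (R + c) ≤ H W (q ⊔ Ideal.span {f}) (R + c) :=
        hW.H_anti (Finset.le_inf fun q' hq' => (hfin.mem_toFinset.1 hq').1.2) _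
      have h3 := hW.H_mono (q ⊔ Ideal.span {f}) (hR.trans (Nat.le_add_right R' 1))
      have h4 := hc R
      omega
    · obtain ⟨q', hq', hle⟩ := Ideal.exists_minimalPrimes_le (I := q ⊔ Ideal.span {f}) (J := Q)
        (sup_le hqQ ((Ideal.span_singleton_le_iff_mem _).2 (hFQ (Ideal.subset_span hfF))))
      exact ⟨q', hfin.mem_toFinset.2 hq', hle⟩
  choose! M c hM1 hM2 hM3 using hM
  refine ⟨P.biUnion M, ⟨fun q' hq' => ?_, ?_⟩, fun q hq Q hQ hFQ hqQ => ?_⟩
  · obtain ⟨q, hq, hq'⟩ := Finset.mem_biUnion.1 hq'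
    exact hM1 q hq q' hq'
  · obtain ⟨R₀, hR₀⟩ := eventually_atTop.1 h.2
    refine eventually_atTop.2 ⟨R₀ + (P.sup c + 1), fun R hR => ?_⟩
    have h1 := JF1.tele (fun R => ∑ q ∈ P, H W q R) (fun R => ∑ q' ∈ P.biUnion M, H W q' R)
      (P.sup c) 1 (fun R R' hRR => Finset.sum_le_sum fun q _ => hW.H_mono q hRR) le_rfl
      (fun R R' hRR => by
        refine (Nat.add_le_add_right (JF1.sum_biUnion_le _ _ _) _).trans ?_
        rw [← Finset.sum_add_distrib]
        exact Finset.sum_le_sum fun q hq =>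
          hM2 q hq R R' ((Nat.add_le_add_left (Finset.le_sup hq) R).trans hRR))
      (R := R) (by omega)
    have h2 := hR₀ (3 * R) (by omega)
    have h3 : (∑ q' ∈ P.biUnion M, H W q' R) * R ^ (j + 1) ≤
        (∑ q ∈ P, H W q (3 * R)) * (3 * R) ^ j :=
      calc (∑ q' ∈ P.biUnion M, H W q' R) * R ^ (j + 1)
          = R * (∑ q' ∈ P.biUnion M, H W q' R) * R ^ j := by ring
        _ ≤ 1 * (∑ q ∈ P, H W q (3 * R)) * (3 * R) ^ j := by gcongr; omega
        _ = _ := by rw [one_mul]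
    calc ((∑ q' ∈ P.biUnion M, H W q' R : ℕ) : ℝ) * R ^ (j + 1)
        = ((∑ q' ∈ P.biUnion M, H W q' R) * R ^ (j + 1) : ℕ) := by rw [Nat.cast_mul, Nat.cast_pow]
      _ ≤ _ := Nat.cast_le.2 h3
      _ ≤ a * ((3 * R : ℕ) : ℝ) ^ ρ := by rwa [Nat.cast_mul, Nat.cast_pow]
      _ = _ := by push_cast; ring
  · exact (hM3 q hq Q hQ hFQ hqQ).imp id fun ⟨q', hq', hle⟩ =>
      ⟨q', Finset.mem_biUnion.2 ⟨q, hq, hq'⟩, hle⟩

end KBz

namespace KZa

variable {S G : Type} [CommRing S] [Algebra ℂ S] [AddCommGroup G]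

/-- the transcendence degree drops strictly along a strict inclusion of primes -/
theorem lt_of_lt {q Q : Ideal S} (hq : q.IsPrime) (hQ : Q.IsPrime) (h : q ≤ Q)
    (hn : ¬ Q ≤ q) {n : ℕ} (ht : (n : Cardinal) ≤ Algebra.trdeg ℂ (S ⧸ Q)) :
    ((n + 1 : ℕ) : Cardinal) ≤ Algebra.trdeg ℂ (S ⧸ q) := by
  refine stLt ℂ (S ⧸ q) (Q.map (Ideal.Quotient.mkₐ ℂ q)) n ?_ ?_ ?_
  · exact Ideal.map_isPrime_of_surjective (f := Ideal.Quotient.mk q) Ideal.Quotient.mk_surjective
      (by rwa [Ideal.mk_ker])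
  · intro e
    refine hn fun r hr => Ideal.Quotient.eq_zero_iff_mem.1 ?_
    have : Ideal.Quotient.mkₐ ℂ q r ∈ Q.map (Ideal.Quotient.mkₐ ℂ q) := Ideal.mem_map_of_mem _ hr
    rwa [e] at this
  · rwa [(DoubleQuot.quotQuotEquivQuotOfLEₐ ℂ h).trdeg_eq]

/-- translating a prime does not decrease the transcendence degree -/
theorem trdeg_comap {τ : G → S →ₐ[ℂ] S} (h0 : ∀ r, τ 0 r = r)
    (hadd : ∀ g h r, τ g (τ h r) = τ (g + h) r) (Q : Ideal S) (g : G) :
    Algebra.trdeg ℂ (S ⧸ Q) ≤ Algebra.trdeg ℂ (S ⧸ Q.comap (τ g)) := by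
  have hle : Q ≤ (Q.comap (τ g)).comap (τ (-g)) := fun r hr => by
    rwa [Ideal.mem_comap, Ideal.mem_comap, hadd, add_neg_cancel, h0]
  refine trdeg_le_of_injective (Ideal.quotientMapₐ (Q.comap (τ g)) (τ (-g)) hle) ?_
  refine (injective_iff_map_eq_zero _).2 fun r hr => ?_
  obtain ⟨r, rfl⟩ := Ideal.Quotient.mk_surjective r
  rw [Ideal.quotient_map_mkₐ, Ideal.Quotient.mkₐ_eq_mk, Ideal.Quotient.eq_zero_iff_mem,
    Ideal.mem_comap, hadd, add_neg_cancel, h0] at hr
  exact Ideal.Quotient.eq_zero_iff_mem.2 hr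

theorem exists_step {D : ℕ → ℕ → Prop} {ρ : ℕ} (h1 : D ρ 0) (h2 : ¬ D 0 ρ) :
    ∃ k n, D (k + 1) n ∧ ¬ D k (n + 1) := by
  by_contra hc
  simp only [not_exists, not_and, not_not] at hc
  have : ∀ n k, D (k + n) 0 → D k n := by
    intro n
    induction n with
    | zero => exact fun k h => h
    | succ n ih => exact fun k h => hc k n (ih (k + 1) (by rwa [add_right_comm]))
  exact h2 (this ρ 0 (by rwa [zero_add]))

end KZa

end Pool.Agent.Lib.MP_4ffbf9_nt.B
end

-- part Pool.Agent.Lib.MP_4ffbf9_nt.B.Bez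
section

/-! The weighted Bezout bound. -/

set_option autoImplicit false

namespace Pool.Agent.Lib.MP_4ffbf9_nt.B

open Finset

namespace Bez

open MvPolynomial Module Filter KBz
open scoped Classical

variable {ι : Type} [Fintype ι] {D : ι → ℕ} {J U : Finset ι} {q : Ideal (MvPolynomial ι ℂ)}

/-- A transcendence basis made of variables. -/
theorem basis (hq : q.IsPrime)
    (h : AlgebraicIndependent ℂ fun i : {i // i ∉ J} => Ideal.Quotient.mk q (X i.1)) :
    ∃ U : Finset ι, (∀ i, i ∉ J → i ∈ U) ∧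
      (AlgebraicIndependent ℂ fun i : U => Ideal.Quotient.mk q (X i.1)) ∧
      Algebra.trdeg ℂ (MvPolynomial ι ℂ ⧸ q) ≤ U.card := by
  let x : ι → MvPolynomial ι ℂ ⧸ q := fun i => Ideal.Quotient.mk q (X i)
  have htop : Algebra.adjoin ℂ (Set.range x) = ⊤ := by
    have : Set.range x = Ideal.Quotient.mkₐ ℂ q '' Set.range X := (Set.range_comp _ _)
    rw [this, ← AlgHom.map_adjoin, adjoin_range_X, Algebra.map_top,
      (AlgHom.range_eq_top _).2 (Ideal.Quotient.mkₐ_surjective ℂ q)]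
  have : Algebra.IsAlgebraic (Algebra.adjoin ℂ (Set.range x)) (MvPolynomial ι ℂ ⧸ q) :=
    ⟨fun a => isAlgebraic_algebraMap (⟨a, htop ▸ Algebra.mem_top⟩ : Algebra.adjoin ℂ (Set.range x))⟩
  obtain ⟨u, h1, h2, h3⟩ := exists_isTranscendenceBasis_between (R := ℂ)
    (Set.range fun i : {i // i ∉ J} => x i.1) (Set.range x)
    (by rintro _ ⟨i, rfl⟩; exact ⟨i, rfl⟩) h.coe_range
  have key : ∀ y : u, ∃ i, x i = y ∧ ∀ k, k ∉ J → x k = y → i = k := fun y => by
    by_cases c : ∃ k, k ∉ J ∧ x k = y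
    · obtain ⟨k, hk, e⟩ := c
      exact ⟨k, e, fun k' hk' e' =>
        congrArg Subtype.val (h.injective (a₁ := ⟨k, hk⟩) (a₂ := ⟨k', hk'⟩) (e.trans e'.symm))⟩
    · obtain ⟨i, hi⟩ := h2 y.2
      exact ⟨i, hi, fun k hk e => absurd ⟨k, hk, e⟩ c⟩
  choose e e1 e2 using key
  have m : ∀ i, i ∈ univ.filter (· ∈ Set.range e) ↔ i ∈ Set.range e := fun i => by simp
  refine ⟨univ.filter (· ∈ Set.range e), fun i hi =>
    (m i).2 ⟨⟨x i, h1 ⟨⟨i, hi⟩, rfl⟩⟩, e2 _ i hi rfl⟩, ?_, ?_⟩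
  · choose f hf using fun i : univ.filter (· ∈ Set.range e) => (m i).1 i.2
    have := h3.1.comp f fun i j k => Subtype.ext (by rw [← hf i, ← hf j, k])
    convert this using 1
    exact funext fun i => by rw [Function.comp, ← e1, hf]
  · rw [← h3.cardinalMk_eq_trdeg, ← Cardinal.mk_coe_finset]
    exact Cardinal.mk_le_of_injective (f := fun y => ⟨e y, (m _).2 ⟨y, rfl⟩⟩) fun y z k =>
      Subtype.ext (by rw [← e1, ← e1, show e y = e z from congrArg Subtype.val k])

theorem ok (hD : ∀ i, 1 ≤ D i) : Ok (Box ℂ (X : ι → MvPolynomial ι ℂ) D) :=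
  ⟨Box.fg, Box.one_mem, top_le_iff.1 (adjoin_range_X.ge.trans (Algebra.adjoin_mono (by
    rintro _ ⟨i, rfl⟩
    exact Box.var_mem (hD i))))⟩

/-- The weighted lower bound for the Hilbert function. -/
theorem le_H (hD : ∀ i, 1 ≤ D i)
    (h : AlgebraicIndependent ℂ fun i : U => Ideal.Quotient.mk q (X i.1)) (R : ℕ) :
    ∏ i ∈ U, (R * D i + 1) ≤ H (Box ℂ (X : ι → MvPolynomial ι ℂ) D) q R := by
  have := (ok hD).fin R
  let n : (∀ i : U, Fin (R * D i + 1)) → (U →₀ ℕ) := fun a =>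
    Finsupp.equivFunOnFinite.symm fun i => (a i : ℕ)
  have hn : Function.Injective n := fun a b h => funext fun i => Fin.ext (by
    simpa [n] using DFunLike.congr_fun h i)
  have hli : LinearIndependent ℂ fun a =>
      aeval (R := ℂ) (fun i : U => Ideal.Quotient.mk q (X i.1)) (monomial (n a) 1) :=
    (((basisMonomials U ℂ).linearIndependent.comp n hn).map'
      (aeval fun i : U => Ideal.Quotient.mk q (X i.1)).toLinearMap (LinearMap.ker_eq_bot.2 h))
  have hmem : ∀ a, aeval (R := ℂ) (fun i : U => Ideal.Quotient.mk q (X i.1)) (monomial (n a) 1) ∈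
      (Box ℂ (X : ι → MvPolynomial ι ℂ) D ^ R).map (Ideal.Quotient.mkₐ ℂ q).toLinearMap := by
    intro a
    refine ⟨∏ i, X i ^ (if k : i ∈ U then (a ⟨i, k⟩ : ℕ) else 0),
      Box.mon_mem_pow R fun i => ?_, ?_⟩
    · split_ifs with k
      exacts [Nat.le_of_lt_succ (a ⟨i, k⟩).2, Nat.zero_le _]
    · rw [aeval_monomial, map_one, one_mul, Finsupp.prod_fintype _ _ (by simp),
        AlgHom.toLinearMap_apply, ← prod_subset (subset_univ U) fun i _ k => by simp [k],
        ← prod_coe_sort, map_prod]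
      exact prod_congr rfl fun i _ => by simp [n]
  have hli' : LinearIndependent ℂ fun a => (⟨_, hmem a⟩ :
      (Box ℂ (X : ι → MvPolynomial ι ℂ) D ^ R).map (Ideal.Quotient.mkₐ ℂ q).toLinearMap) :=
    LinearIndependent.of_comp (Submodule.subtype _) hli
  have h := hli'.fintype_card_le_finrank
  rwa [Fintype.card_pi, prod_congr rfl fun i _ => Fintype.card_fin _,
    prod_coe_sort U fun i => R * D i + 1] at h

theorem count (hD : ∀ i, 1 ≤ D i) {ρ j : ℕ} {a : ℝ} {P s : Finset (Ideal (MvPolynomial ι ℂ))}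
    (hP : Inv (Box ℂ (X : ι → MvPolynomial ι ℂ) D) ρ j a P) (hj : j ≤ ρ) (hs : s ⊆ P)
    (h : ∀ q ∈ s, AlgebraicIndependent ℂ fun i : {i // i ∉ J} => Ideal.Quotient.mk q (X i.1)) :
    (s.card : ℝ) * (∏ i ∈ Jᶜ, D i : ℕ) ≤ a := by
  obtain ⟨R, h1, h0⟩ := (hP.2.and (eventually_gt_atTop 0)).exists
  have h2 : s.card * ((∏ i ∈ Jᶜ, D i) * R ^ (ρ - j)) ≤
      ∑ q ∈ P, H (Box ℂ (X : ι → MvPolynomial ι ℂ) D) q R := by
    refine le_trans ?_ (sum_le_sum_of_subset hs)
    rw [← smul_eq_mul]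
    refine card_nsmul_le_sum _ _ _ fun q hq => ?_
    obtain ⟨p1, p2⟩ := hP.1 q (hs hq)
    obtain ⟨U, u1, u2, u3⟩ := basis p1 (h q hq)
    have u4 : ρ ≤ U.card + j := by exact_mod_cast p2.trans (add_le_add_left u3 _)
    calc (∏ i ∈ Jᶜ, D i) * R ^ (ρ - j) ≤ (∏ i ∈ U, D i) * R ^ U.card :=
          Nat.mul_le_mul (prod_le_prod_of_subset_of_one_le' (fun i hi => u1 i (mem_compl.1 hi))
            fun i _ _ => hD i) (Nat.pow_le_pow_right h0 (by omega))
      _ = ∏ i ∈ U, R * D i := by rw [prod_mul_distrib, prod_const, mul_comm]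
      _ ≤ _ := (prod_le_prod' fun i _ => Nat.le_succ _).trans (le_H hD u2 R)
  have h4 : (0 : ℝ) < R ^ ρ := by positivity
  refine le_of_mul_le_mul_right (le_trans ?_ h1) h4
  have h3 : (R : ℝ) ^ ρ = R ^ (ρ - j) * R ^ j := by rw [← pow_add, Nat.sub_add_cancel hj]
  rw [h3, ← mul_assoc]
  refine mul_le_mul_of_nonneg_right ?_ (by positivity)
  rw [mul_assoc]
  exact_mod_cast h2

theorem families {S : Type} [CommRing S] [Algebra ℂ S] [IsDomain S] {W : Submodule ℂ S}
    (hW : Ok W) {ρ : ℕ} {N w : ℝ} (h0 : Inv W ρ 0 N {⊥}) (F : Set S) (hF : F ⊆ W)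
    (s : Finset (Ideal S)) (w0 : 0 ≤ w)
    (hw : ∀ j ≤ ρ, ∀ a P, Inv W ρ j a P → ((s ∩ P).card : ℝ) * w ≤ a) (j : ℕ) (hj : j ≤ ρ + 1) :
    ∃ P Z : Finset (Ideal S), Inv W ρ j ((3 ^ ρ) ^ j * N) P ∧
      ((s ∩ Z).card : ℝ) * w ≤ (∑ i ∈ range j, (3 ^ ρ) ^ i) * N ∧
      ∀ Q ∈ (Ideal.span F).minimalPrimes, Q ∈ Z ∨ ∃ q ∈ P, q ≤ Q := by
  induction j with
  | zero =>
    exact ⟨{⊥}, ∅, by simpa using h0, by simp,
      fun Q _ => Or.inr ⟨⊥, mem_singleton_self _, bot_le⟩⟩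
  | succ j ih =>
    obtain ⟨P, Z, hP, hZ, hQ⟩ := ih (by omega)
    obtain ⟨P', hP', hQ'⟩ := hP.step hW F hF
    refine ⟨P', Z ∪ P, ?_, ?_, fun Q hQm => ?_⟩
    · rwa [pow_succ', mul_assoc]
    · have h1 := hw j (by omega) _ _ hP
      have h2 : ((s ∩ (Z ∪ P)).card : ℝ) ≤ (s ∩ Z).card + (s ∩ P).card := by
        rw [inter_union_distrib_left]
        exact_mod_cast card_union_le _ _
      rw [sum_range_succ, add_mul]
      nlinarith
    · rcases hQ Q hQm with h | ⟨q, hq, hle⟩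
      · exact Or.inl (mem_union_left _ h)
      · rcases hQ' q hq Q hQm.1.1 hQm.1.2 hle with h | h
        · exact Or.inl (mem_union_right _
            (le_antisymm hle (hQm.2 ⟨(hP.1 q hq).1, h⟩ hle) ▸ hq))
        · exact Or.inr h

theorem inv0 (hD : ∀ i, 1 ≤ D i) : Inv (Box ℂ (X : ι → MvPolynomial ι ℂ) D) (Fintype.card ι) 0
    ((2 ^ Fintype.card ι * ∏ i, D i : ℕ) : ℝ) {⊥} := by
  refine (ok hD).inv_zero ((eventually_gt_atTop 0).mono fun R hR => ?_) (by
    rw [trdeg_of_isDomain]; simp)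
  have := Module.Finite.of_fg (Box.fg (K := ℂ) (x := (X : ι → MvPolynomial ι ℂ)) (d := R • D))
  have h1 := (Submodule.finrank_mono (Box.pow_le (K := ℂ) (x := (X : ι → MvPolynomial ι ℂ))
    (d := D) R)).trans Box.finrank_le
  have h2 : ∏ i, ((R • D) i + 1) ≤ ∏ i, 2 * D i * R := prod_le_prod' fun i _ => by
    have := Nat.mul_pos hR (hD i)
    rw [Pi.smul_apply, smul_eq_mul, mul_assoc, mul_comm (D i)]
    omega
  rw [prod_mul_distrib, prod_mul_distrib, prod_const, prod_const, card_univ] at h2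
  exact_mod_cast h1.trans h2

end Bez

theorem stBez : StBez := by
  classical
  intro ι _
  refine ⟨(∑ i ∈ range (Fintype.card ι + 1), (3 ^ Fintype.card ι) ^ i) * 2 ^ Fintype.card ι,
    fun D F J s hD hF hs => ?_⟩
  obtain ⟨P, Z, hP, hZ, hQ⟩ := Bez.families (Bez.ok hD) (Bez.inv0 hD) F hF s
    (w := (∏ i ∈ Jᶜ, D i : ℕ)) (Nat.cast_nonneg _) (fun j hj a P hP => by
      convert Bez.count (J := J) hD hP hj (s := s ∩ P) (by convert inter_subset_right)
        fun q hq => (hs q (mem_inter.1 hq).1).2) _ le_rfl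
  have h1 : s ⊆ Z := fun Q hQs => (hQ Q (hs Q hQs).1).elim id fun ⟨q, hq, _⟩ => by
    simp [hP.eq_empty (Bez.ok hD)] at hq
  rw [inter_eq_left.2 h1, ← prod_mul_prod_compl J D] at hZ
  refine Nat.le_of_mul_le_mul_right ?_ (prod_pos (s := Jᶜ) fun i _ => hD i)
  rw [mul_assoc, mul_assoc]
  exact_mod_cast hZ

end Pool.Agent.Lib.MP_4ffbf9_nt.B
end

-- part Pool.Agent.Lib.MP_4ffbf9_nt.B.ZE
section

/-! The zero estimate on a power of the additive group. -/

set_option autoImplicit false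

namespace Pool.Agent.Lib.MP_4ffbf9_nt.B

open Finset

namespace ZE

open MvPolynomial

variable {ι : Type}

/-- translation -/
noncomputable def tau (v : ι → ℂ) : MvPolynomial ι ℂ →ₐ[ℂ] MvPolynomial ι ℂ :=
  aeval fun i => X i + C (v i)

theorem tau_zero (r : MvPolynomial ι ℂ) : tau 0 r = r := by
  have : tau (0 : ι → ℂ) = AlgHom.id ℂ _ := algHom_ext fun i => by simp [tau]
  rw [this]; rfl

theorem tau_tau (g h : ι → ℂ) (r : MvPolynomial ι ℂ) : tau g (tau h r) = tau (g + h) r := by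
  have : (tau g).comp (tau h) = tau (g + h) := algHom_ext fun i => by simp [tau, add_assoc]
  exact DFunLike.congr_fun this r

theorem eval_tau (x v : ι → ℂ) (r : MvPolynomial ι ℂ) : eval x (tau v r) = eval (x + v) r := by
  induction r using MvPolynomial.induction_on with
  | C a => simp [tau]
  | add p q hp hq => rw [map_add, map_add, map_add, hp, hq]
  | mul_X p i hp => rw [map_mul, map_mul, map_mul, hp]; simp [tau]

theorem smul_mem {Q : Ideal (MvPolynomial ι ℂ)} (hQ : Q.IsPrime) {v : ι → ℂ}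
    (hv : ∀ r ∈ Q, tau v r ∈ Q) (c : ℂ) {r : MvPolynomial ι ℂ} (hr : r ∈ Q) :
    tau (c • v) r ∈ Q := by
  let ψ : MvPolynomial ι ℂ →ₐ[ℂ] Polynomial (MvPolynomial ι ℂ ⧸ Q) := aeval fun i =>
    Polynomial.C (Ideal.Quotient.mk Q (X i)) +
      Polynomial.C (Ideal.Quotient.mk Q (C (v i))) * Polynomial.X
  have key : ∀ (a : ℂ) (p : MvPolynomial ι ℂ), (ψ p).eval (Ideal.Quotient.mk Q (C a)) =
      Ideal.Quotient.mk Q (tau (a • v) p) := by
    intro a p
    induction p using MvPolynomial.induction_on with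
    | C b =>
      rw [show (C b : MvPolynomial ι ℂ) = algebraMap ℂ _ b from rfl, AlgHom.commutes,
        AlgHom.commutes, Polynomial.algebraMap_apply, Polynomial.eval_C]
      rfl
    | add p q hp hq => rw [map_add, Polynomial.eval_add, hp, hq, map_add, map_add]
    | mul_X p i hp =>
      rw [map_mul, Polynomial.eval_mul, hp, map_mul, map_mul]
      congr 1
      simp only [ψ, tau, aeval_X, Polynomial.eval_add, Polynomial.eval_mul, Polynomial.eval_C,
        Polynomial.eval_X, Pi.smul_apply, smul_eq_mul, map_add, map_mul, mul_comm]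
  have hn : ∀ n : ℕ, tau ((n : ℂ) • v) r ∈ Q := by
    intro n
    induction n with
    | zero => rwa [Nat.cast_zero, zero_smul, tau_zero]
    | succ n ih =>
      rw [Nat.cast_succ, add_smul, one_smul, add_comm, ← tau_tau]
      exact hv _ ih
  have h0 : ψ r = 0 := by
    refine Polynomial.eq_zero_of_infinite_isRoot _ (Set.infinite_of_injective_forall_mem
      (f := fun n : ℕ => algebraMap ℂ (MvPolynomial ι ℂ ⧸ Q) n)
      ((algebraMap ℂ (MvPolynomial ι ℂ ⧸ Q)).injective.comp Nat.cast_injective) fun n => ?_)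
    exact (key n r).trans (Ideal.Quotient.eq_zero_iff_mem.2 (hn n))
  rw [← Ideal.Quotient.eq_zero_iff_mem, ← key, h0, Polynomial.eval_zero]

/-- the stabiliser of a prime -/
def stab (Q : Ideal (MvPolynomial ι ℂ)) (hQ : Q.IsPrime) : Submodule ℂ (ι → ℂ) where
  carrier := {v | ∀ r ∈ Q, tau v r ∈ Q}
  add_mem' := fun {u v} hu hv r hr => by rw [← tau_tau]; exact hu _ (hv r hr)
  zero_mem' := fun r hr => by rwa [tau_zero]
  smul_mem' := fun c _ hv _ hr => smul_mem hQ hv c hr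

theorem exists_point [Finite ι] {Q : Ideal (MvPolynomial ι ℂ)} (hQ : Q.IsPrime) :
    ∃ x : ι → ℂ, ∀ r ∈ Q, eval x r = 0 := by
  obtain ⟨m, hm, hle⟩ := Ideal.exists_le_maximal Q hQ.ne_top
  obtain ⟨x, rfl⟩ := isMaximal_iff_eq_vanishingIdeal_singleton.1 hm
  exact ⟨x, fun r hr => (mem_vanishingIdeal_singleton_iff x r).1 (hle hr)⟩

theorem indep [Finite ι] {Q : Ideal (MvPolynomial ι ℂ)} (hQ : Q.IsPrime) {J : Finset ι}
    (hJ : Sp (stab Q hQ) J) (y : ι → ℂ) : AlgebraicIndependent ℂ fun i : {i // i ∉ J} =>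
      Ideal.Quotient.mk (Q.comap (tau y)) (X i.1) := by
  classical
  obtain ⟨x, hx⟩ := exists_point hQ
  refine algebraicIndependent_iff.2 fun p hp => ?_
  have e : aeval (fun i : {i // i ∉ J} => Ideal.Quotient.mk (Q.comap (tau y)) (X i.1)) =
      (Ideal.Quotient.mkₐ ℂ (Q.comap (tau y))).comp (rename Subtype.val) :=
    algHom_ext fun i => by simp
  rw [e, AlgHom.comp_apply, Ideal.Quotient.mkₐ_eq_mk, Ideal.Quotient.eq_zero_iff_mem,
    Ideal.mem_comap] at hp
  refine MvPolynomial.funext fun z => ?_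
  obtain ⟨w, hw, hw'⟩ := hJ fun i => if h : i ∉ J then z ⟨i, h⟩ - x i - y i else 0
  have h1 := hx _ (hw _ hp)
  rw [eval_tau, eval_tau, eval_rename] at h1
  rw [map_zero, ← h1]
  congr 2
  funext i
  simp only [Function.comp_apply, Pi.add_apply, hw' i.1 i.2, dif_pos i.2]
  ring

end ZE

open ZE KZa in
theorem stZE (hB : StBez) : StZE := by
  classical
  intro ι _
  obtain ⟨c, hc⟩ := hB ι
  refine ⟨c, fun D P T E hD hP hPD hT hE hstep hz => ?_⟩
  let F : ℕ → Set (MvPolynomial ι ℂ) := fun k => {f | ∃ x ∈ E k, f = tau x P}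
  let G : ℕ → ℕ → Prop := fun k n => ∃ Q : Ideal (MvPolynomial ι ℂ), Q.IsPrime ∧ F k ⊆ Q ∧
    (n : Cardinal) ≤ Algebra.trdeg ℂ (MvPolynomial ι ℂ ⧸ Q)
  have E0 : ∀ k, 0 ∈ E k := by
    intro k
    induction k with
    | zero => exact hE
    | succ k ih => simpa using hstep k 0 ih 0 hT
  have PF : ∀ k, P ∈ F k := fun k => ⟨0, E0 k, (tau_zero P).symm⟩
  obtain ⟨k, n, ⟨Q, hQ, hF, hn⟩, hk⟩ := exists_step (D := G) (ρ := Fintype.card ι)
    ⟨RingHom.ker (MvPolynomial.eval (0 : ι → ℂ)), RingHom.ker_isPrime _, by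
      rintro _ ⟨x, hx, rfl⟩
      refine RingHom.mem_ker.2 ?_
      rw [eval_tau, zero_add]
      exact hz x hx, by simp⟩ (by
      rintro ⟨Q, hQ, hF, hn⟩
      have h1 := stLt ℂ _ Q _ hQ (fun e => hP (by have := hF (PF 0); rwa [e] at this)) hn
      rw [MvPolynomial.trdeg_of_isDomain, Cardinal.mk_fintype, Cardinal.lift_natCast] at h1
      have h2 : Fintype.card ι + 1 ≤ Fintype.card ι := by exact_mod_cast h1
      omega)
  refine ⟨stab Q hQ, fun e => hP ?_, fun J hJ A _ p hp hinj => ?_⟩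
  · obtain ⟨x, hx⟩ := exists_point hQ
    refine MvPolynomial.funext fun z => ?_
    have hw : z - x ∈ stab Q hQ := e ▸ Submodule.mem_top
    have h1 := hx _ (hw _ (hF (PF _)))
    rwa [eval_tau, add_sub_cancel, ← map_zero (MvPolynomial.eval z)] at h1
  let C : A → Ideal (MvPolynomial ι ℂ) := fun a => Q.comap (tau (p a))
  have inj : Function.Injective C := fun a a' e => hinj a a' fun r hr => by
    rw [sub_eq_add_neg, ← tau_tau, ← Ideal.mem_comap]
    show _ ∈ C a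
    rw [e]
    exact Ideal.mem_comap.2 (by rwa [tau_tau, add_neg_cancel, tau_zero])
  rw [← Finset.card_univ, ← Finset.card_image_of_injective _ inj]
  refine hc D (F k) J _ hD ?_ fun q hq => ?_
  · rintro _ ⟨x, -, rfl⟩
    exact Box.shift_mem x hPD
  obtain ⟨a, -, rfl⟩ := Finset.mem_image.1 hq
  refine ⟨?_, indep hQ hJ (p a)⟩
  have t1 : (C a).IsPrime := Ideal.comap_isPrime _ _
  have t2 : F k ⊆ C a := by
    rintro _ ⟨x, hx, rfl⟩
    exact Ideal.mem_comap.2 (hF ⟨x + p a, hstep k x hx _ (hp a), by rw [tau_tau, add_comm]⟩)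
  refine ⟨⟨t1, Ideal.span_le.2 t2⟩, fun q hq hle => ?_⟩
  by_contra hnot
  exact hk ⟨q, hq.1, Ideal.span_le.1 hq.2,
    lt_of_lt hq.1 t1 hle hnot (hn.trans (trdeg_comap tau_zero tau_tau Q _))⟩

end Pool.Agent.Lib.MP_4ffbf9_nt.B
end

-- part Pool.Agent.Lib.MP_4ffbf9_nt.B.Det
section

/-! Interpolation determinants close to low rank. -/

set_option autoImplicit false

namespace Pool.Agent.Lib.MP_4ffbf9_nt.B

open Finset

namespace Det

variable {R Ω : Type} [Fintype R] [DecidableEq R]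

theorem exists_cols [Fintype Ω] {f : R → Ω → ℝ} (h : LinearIndependent ℝ f) :
    ∃ e : R → Ω, (Matrix.of fun i j => f i (e j)).det ≠ 0 := by
  obtain ⟨κ, a, h1, h2, h3⟩ := exists_linearIndependent' ℝ (Matrix.of f).col
  have := Fintype.ofInjective a h1
  have h4 : Fintype.card R = Fintype.card κ := by
    rw [← finrank_span_eq_card h3, h2, ← Matrix.rank_eq_finrank_span_cols]
    exact (LinearIndependent.rank_matrix (M := Matrix.of f) h).symm
  let e := Fintype.equivOfCardEq h4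
  exact ⟨a ∘ e, ((Matrix.isUnit_iff_isUnit_det _).1
    (Matrix.linearIndependent_cols_iff_isUnit.1 (h3.comp e e.injective))).ne_zero⟩

theorem det_le (A : Matrix R R ℝ) (b : R → ℝ) (h : ∀ i j, |A i j| ≤ b i) :
    |A.det| ≤ (Fintype.card R).factorial * ∏ i, b i := by
  rw [Matrix.det_apply']
  refine (abs_sum_le_sum_abs _ _).trans ((sum_le_card_nsmul _ _ (∏ i, b i) fun σ _ => ?_).trans_eq
    (by rw [card_univ, Fintype.card_perm, nsmul_eq_mul]))
  have e : |((Equiv.Perm.sign σ : ℤ) : ℝ)| = 1 := by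
    rcases Int.units_eq_one_or (Equiv.Perm.sign σ) with k | k <;> simp [k]
  rw [abs_mul, e, one_mul, abs_prod, ← Equiv.prod_comp σ b]
  exact prod_le_prod (fun _ _ => abs_nonneg _) fun i _ => h _ _

theorem det_low (A : Matrix R R ℝ) (P : Submodule ℝ (R → ℝ)) (s : Finset R) (h : ∀ i ∈ s, A i ∈ P)
    (k : A.det ≠ 0) : s.card ≤ Module.finrank ℝ P := by
  have h1 := (Matrix.linearIndependent_rows_of_det_ne_zero k).comp ((↑) : s → R)
    Subtype.val_injective
  rw [← Fintype.card_coe, ← finrank_span_eq_card h1]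
  exact Submodule.finrank_mono (Submodule.span_le.2 (Set.range_subset_iff.2 fun i => h i i.2))

end Det

theorem stDet : StDet := by
  classical
  intro R Ω _ _ _ f d P X Y ε hf hd hz hY hb hP e0 e1 hg
  obtain ⟨e, he⟩ := Det.exists_cols hf
  choose n hn using hz
  choose g g1 g2 using hg
  have hX : 0 ≤ X := by
    obtain ⟨i⟩ := ‹Nonempty R›
    exact (hd (e i)).1.le.trans (hd (e i)).2
  have a1 : (∏ j, d (e j)) * (Matrix.of fun i j => f i (e j)).det =
      ((Matrix.of fun i j => n i (e j)).det : ℤ) := by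
    rw [← Matrix.det_mul_row, Int.cast_det]
    congr 1
    ext i j
    exact (mul_comm _ _).trans (hn i (e j))
  have a2 : 0 < ∏ j, d (e j) := prod_pos fun j _ => (hd _).1
  have a3 : 1 ≤ X ^ Fintype.card R * |(Matrix.of fun i j => f i (e j)).det| := by
    have b1 := mul_ne_zero a2.ne' he
    rw [a1] at b1
    have b2 : (1 : ℝ) ≤ |(((Matrix.of fun i j => n i (e j)).det : ℤ) : ℝ)| := by
      exact_mod_cast Int.one_le_abs (Int.cast_ne_zero.1 b1)
    rw [← a1, abs_mul, abs_of_pos a2] at b2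
    refine b2.trans (mul_le_mul_of_nonneg_right ?_ (abs_nonneg _))
    exact (prod_le_prod (fun j _ => (hd _).1.le) fun j _ => (hd _).2).trans_eq (by simp)
  have a4 : |(Matrix.of fun i j => f i (e j)).det| ≤ 2 ^ Fintype.card R *
      ((Fintype.card R).factorial * ((2 * Y) ^ Fintype.card R *
        ε ^ (Fintype.card R - Module.finrank ℝ P))) := by
    have b1 := (Matrix.detRowAlternating (n := R) (R := ℝ)).toMultilinearMap.map_add_univ
      (fun i j => g i (e j)) fun i j => f i (e j) - g i (e j)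
    have b2 : ((fun i j => g i (e j)) + fun i j => f i (e j) - g i (e j)) =
        fun i j => f i (e j) := by
      ext i j
      simp
    rw [b2] at b1
    refine (congrArg abs b1).trans_le ((abs_sum_le_sum_abs _ _).trans
      ((sum_le_card_nsmul _ _ _ fun s _ => ?_).trans_eq (by
        rw [card_univ, Fintype.card_finset, nsmul_eq_mul, Nat.cast_pow, Nat.cast_two])))
    change |Matrix.det (s.piecewise (fun i j => g i (e j)) fun i j => f i (e j) - g i (e j))| ≤ _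
    by_cases c : Matrix.det (s.piecewise (fun i j => g i (e j))
      fun i j => f i (e j) - g i (e j)) = 0
    · rw [c, abs_zero]
      positivity
    have b3 := (Det.det_low _ (P.map (LinearMap.funLeft ℝ ℝ e)) s (fun i hi => by
      rw [piecewise_eq_of_mem _ _ _ hi]
      exact ⟨g i, g1 i, rfl⟩) c).trans (Submodule.finrank_map_le _ _)
    refine (Det.det_le _ (s.piecewise (fun _ => 2 * Y) fun _ => ε) fun i j => ?_).trans
      (mul_le_mul_of_nonneg_left ?_ (Nat.cast_nonneg _))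
    · by_cases k : i ∈ s
      · rw [piecewise_eq_of_mem _ _ _ k, piecewise_eq_of_mem _ _ _ k]
        have := abs_sub (f i (e j)) (f i (e j) - g i (e j))
        rw [sub_sub_cancel] at this
        linarith [hb i (e j), g2 i (e j)]
      · rw [piecewise_eq_of_notMem _ _ _ k, piecewise_eq_of_notMem _ _ _ k]
        exact g2 i (e j)
    · rw [prod_piecewise, univ_inter, prod_const, prod_const, card_univ_sdiff]
      exact mul_le_mul (pow_le_pow_right₀ (by linarith) (card_le_univ s))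
        (pow_le_pow_of_le_one e0 e1 (by omega)) (by positivity) (by positivity)
  have a5 : ((Fintype.card R).factorial : ℝ) ≤ Fintype.card R ^ Fintype.card R := by
    exact_mod_cast Nat.factorial_le_pow _
  have a6 : 1 ≤ (4 * Fintype.card R * X * Y) ^ Fintype.card R *
      ε ^ (Fintype.card R - Module.finrank ℝ P) := by
    refine a3.trans ((mul_le_mul_of_nonneg_left (a4.trans (mul_le_mul_of_nonneg_left
      (mul_le_mul_of_nonneg_right a5 (by positivity)) (by positivity))) (by positivity)).trans_eq ?_)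
    rw [show (4 : ℝ) = 2 * 2 by norm_num]
    simp only [mul_pow]
    ring
  rw [← one_le_pow_iff_of_nonneg (by positivity) (Fintype.card_ne_zero (α := R)), mul_pow,
    ← pow_mul, mul_comm 2, pow_mul]
  refine (one_le_pow₀ (n := 2) a6).trans ?_
  rw [mul_pow, ← pow_mul ε]
  exact mul_le_mul_of_nonneg_left (pow_le_pow_of_le_one e0 e1 (by omega)) (by positivity)

end Pool.Agent.Lib.MP_4ffbf9_nt.B
end

-- part Pool.Agent.Lib.MP_4ffbf9_nt.B.Shape
section

/-! Values and multiplicities of a product. -/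

set_option autoImplicit false

namespace Pool.Agent.Lib.MP_4ffbf9_nt.B

open Finset

theorem stShape : StShape := by
  intro R n M θ x hn hR h
  have : Nonempty (Fin n) := ⟨⟨0, hn⟩⟩
  obtain ⟨i₀, h0⟩ := Finite.exists_min x
  obtain ⟨e⟩ : Nonempty (univ.image x ↪ Fin R) :=
    Function.Embedding.nonempty_of_card_le (by rwa [Fintype.card_coe, Fintype.card_fin])
  let f : Fin n → Fin R := fun j => e ⟨x j, mem_image_of_mem x (mem_univ j)⟩
  have hg : ∀ i, ∃ k, ∀ j, f j = i → x k = x j := fun i => by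
    by_cases h1 : ∃ k, f k = i
    · obtain ⟨k, rfl⟩ := h1
      exact ⟨k, fun j hj => congrArg Subtype.val (e.injective hj.symm)⟩
    · exact ⟨i₀, fun j hj => absurd ⟨j, hj⟩ h1⟩
  choose g hg using hg
  refine ⟨i₀, fun i => x (g i), fun i => (univ.filter fun j => f j = i).card, h0,
    fun i => ⟨h0 _, h _ _⟩, ?_, ?_⟩
  · rw [← card_eq_sum_card_fiberwise fun j _ => mem_univ (f j), card_univ, Fintype.card_fin]
  · rw [← prod_fiberwise univ f x]
    refine prod_congr rfl fun i _ => ?_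
    rw [← prod_const]
    exact prod_congr rfl fun j hj => hg i j (mem_filter.1 hj).2

end Pool.Agent.Lib.MP_4ffbf9_nt.B
end
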